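import Pool.Agent.Lib.SL.R1g

/-! # Row R8, first part: the pseudo-measure theorem -/

namespace Pool.Agent.SL

open Finset

namespace R8x

variable {n m : ℕ} {α : Type} [Fintype α] [DecidableEq α]

theorem fam_inter {Ω : Type} [Fintype Ω] [DecidableEq Ω] (L : Finset (Finset Ω)) (k : ℕ) :
    ∃ G : Finset (Finset Ω), G.card ≤ (L.card + 1) ^ k ∧
      ∀ h : List (Finset Ω), h.length ≤ k → (∀ V ∈ h, V ∈ L) → Inter h ∈ G := by
  induction k with
  | zero =>
    refine ⟨{univ}, by simp, ?_⟩
    intro h hh _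
    have : h = [] := List.length_eq_zero_iff.mp (Nat.le_zero.mp hh)
    subst this
    simp [Inter]
  | succ k ih =>
    obtain ⟨G, hG, hG'⟩ := ih
    refine ⟨G ∪ Finset.image₂ (fun A B => A ∩ B) L G, ?_, ?_⟩
    · calc (G ∪ Finset.image₂ (fun A B => A ∩ B) L G).card
          ≤ G.card + (Finset.image₂ (fun A B => A ∩ B) L G).card := card_union_le _ _
        _ ≤ G.card + L.card * G.card := by
            gcongr
            exact Finset.card_image₂_le _ _ _
        _ = (L.card + 1) * G.card := by ring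
        _ ≤ (L.card + 1) * (L.card + 1) ^ k := by gcongr
        _ = (L.card + 1) ^ (k + 1) := by ring
    · intro h hh hL
      cases h with
      | nil =>
        exact mem_union_left _ (hG' [] (by simp) (by simp))
      | cons V h =>
        apply mem_union_right
        rw [Finset.mem_image₂]
        refine ⟨V, hL V (by simp), Inter h, hG' h ?_ ?_, rfl⟩
        · simpa using hh
        · intro V' hV'
          exact hL V' (by simp [hV'])

theorem card_Fib (B : Finset (Fin n)) (a : Fin n → α) :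
    (Fib B a).card * (Fintype.card α) ^ B.card = Fintype.card (Fin n → α) := by
  have h1 : Fib B a = Fintype.piFinset (fun i => if i ∈ B then {a i} else univ) := by
    ext x
    simp only [Fib, mem_filter, mem_univ, true_and, Fintype.mem_piFinset]
    constructor
    · intro h i
      by_cases hi : i ∈ B
      · simp [hi, h i hi]
      · simp [hi]
    · intro h i hi
      have := h i
      simpa [hi] using this
  rw [h1, Fintype.card_piFinset, Fintype.card_fun, Fintype.card_fin]
  have h2 : (Fintype.card α) ^ B.card = ∏ i : Fin n, (if i ∈ B then Fintype.card α else 1) := by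
    rw [Finset.prod_ite_mem]
    simp
  rw [h2, ← Finset.prod_mul_distrib]
  have h3 : ∀ i ∈ (univ : Finset (Fin n)), (if i ∈ B then ({a i} : Finset α) else univ).card *
      (if i ∈ B then Fintype.card α else 1) = Fintype.card α := by
    intro i _
    by_cases hi : i ∈ B
    · simp [hi]
    · simp [hi]
  rw [Finset.prod_congr rfl h3]
  simp

theorem spread_univ (r R : ℕ) (hR : 1 ≤ R) (hα : Fintype.card α = r * R) :
    Spread (n := n) (α := α) r ∅ univ := by
  intro B _ a
  have h := card_Fib (n := n) B a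
  have h1 : (univ.filter (fun x : Fin n → α => ∀ i ∈ B, x i = a i)) = Fib B a := rfl
  rw [h1, Finset.card_univ, ← h, hα]
  have : r ^ B.card ≤ (r * R) ^ B.card := by
    apply Nat.pow_le_pow_left
    exact Nat.le_mul_of_pos_right _ hR
  exact Nat.mul_le_mul_left _ this

/-- The pseudo-measure theorem -/
theorem core (h1 : R1g) (h3 : R3) (h5 : R5) (h5b : R5b) (h5c : R5c)
    (r R k t s : ℕ) [Nonempty α] (hn : 8 ≤ n) (hm : n = m + 1) (ht1 : 1 ≤ t) (ht : 2 * t ≤ m)
    (hα : Fintype.card α = r * R) (hk : 1 ≤ k) (hs : 4 ≤ s)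
    (hkr : 32 * k * n ^ 2 * n ^ (2 * s) ≤ r) (hR1 : n ^ (s + 2) ≤ R) (𝓤 : Finset (Finset (Fin n → α)))
    (hU : (𝓤.card * (2 ^ n * Fintype.card (Fin n → α)) + 1) * 2 ^ n * m ^ n < 4 ^ k) :
    ∃ g : Fin n → α → Fin m,
      (Fintype.card (Fin n → α) : ℝ) / 4 ≤ ∑ x, Ker (2 * t) g x ∧
      (∀ U ∈ 𝓤, -(6 / (n : ℝ) ^ ((s - 2) * t) * Fintype.card (Fin n → α))
        ≤ ∑ x ∈ U, Ker (2 * t) g x) ∧
      (∀ U ∈ 𝓤, ∀ i j : Fin n, ∀ a a' : α, i ≠ j → g i a = g j a' →
        (∀ x ∈ U, x i = a ∧ x j = a') →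
        ∑ x ∈ U, Ker (2 * t) g x ≤ 6 / (n : ℝ) ^ ((s - 2) * t) * Fintype.card (Fin n → α)) := by
  classical
  have hr1 : n ^ (s + 2) ≤ r := by
    refine le_trans ?_ hkr
    have e1 : n ^ (s + 2) ≤ n ^ 2 * n ^ (2 * s) := by
      rw [← pow_add]
      exact Nat.pow_le_pow_right (by omega) (by omega)
    calc n ^ (s + 2) ≤ n ^ 2 * n ^ (2 * s) := e1
      _ = 1 * (n ^ 2 * n ^ (2 * s)) := by ring
      _ ≤ (32 * k) * (n ^ 2 * n ^ (2 * s)) := Nat.mul_le_mul_right _ (by omega)
      _ = 32 * k * n ^ 2 * n ^ (2 * s) := by ring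
  have hR0 : 1 ≤ R := le_trans (Nat.one_le_pow _ _ (by omega)) hR1
  have hr2 : 2 ≤ r := by
    refine le_trans ?_ hr1
    calc 2 ≤ n := by omega
      _ = n ^ 1 := by simp
      _ ≤ n ^ (s + 2) := Nat.pow_le_pow_right (by omega) (by omega)
  have hr0 : 1 ≤ r := by omega
  have hm1 : 1 ≤ m := by omega
  have hnR : (8 : ℝ) ≤ n := by exact_mod_cast hn
  have hnpos : (0 : ℝ) < n := by linarith
  -- pieces
  choose! P L hP using (fun U : Finset (Fin n → α) => h1 n t r R α hr0 hR0 hα U)
  -- the family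
  set Fam : Finset (Finset (Fin n) × Finset (Fin n → α)) :=
    insert (∅, univ) (((𝓤 ×ˢ (univ : Finset (Finset (Fin n)))) ×ˢ (univ : Finset (Fin n → α))).image
      (fun z => (z.1.2, P z.1.1 z.1.2 z.2))) with hFam
  have hFcard : Fam.card ≤ 𝓤.card * (2 ^ n * Fintype.card (Fin n → α)) + 1 := by
    refine le_trans (card_insert_le _ _) ?_
    refine Nat.add_le_add_right (le_trans card_image_le ?_) 1
    rw [card_product, card_product]
    simp only [card_univ, Fintype.card_finset, Fintype.card_fin]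
    rw [mul_assoc]
  have hτ : (0 : ℝ) < 1 / (n : ℝ) ^ s := by positivity
  have hcond : 8 * (k : ℝ) * (m : ℝ) ^ 2 / r ≤ (1 / (n : ℝ) ^ s) ^ 2 / 4 := by
    have hrR : (0 : ℝ) < r := by exact_mod_cast hr0
    have hmn : (m : ℝ) ≤ n := by
      have : m ≤ n := by omega
      exact_mod_cast this
    have hkrR : 32 * (k : ℝ) * (n : ℝ) ^ 2 * (n : ℝ) ^ (2 * s) ≤ r := by exact_mod_cast hkr
    have e : (1 / (n : ℝ) ^ s) ^ 2 / 4 = 1 / (4 * (n : ℝ) ^ (2 * s)) := by
      rw [div_pow, one_pow, ← pow_mul, mul_comm s 2]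
      field_simp
    rw [e, div_le_div_iff₀ hrR (by positivity)]
    calc 8 * (k : ℝ) * (m : ℝ) ^ 2 * (4 * (n : ℝ) ^ (2 * s))
        ≤ 8 * (k : ℝ) * (n : ℝ) ^ 2 * (4 * (n : ℝ) ^ (2 * s)) := by gcongr
      _ = 32 * (k : ℝ) * (n : ℝ) ^ 2 * (n : ℝ) ^ (2 * s) := by ring
      _ ≤ r := hkrR
      _ = 1 * r := by ring
  obtain ⟨g, hg⟩ := h3 n m r k α (1 / (n : ℝ) ^ s) hm1 hr0 hk hτ hcond Fam
    (by
      intro Q hQ
      rw [hFam, mem_insert, mem_image] at hQ
      rcases hQ with hQ | ⟨z, _, hz⟩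
      · rw [hQ]; exact spread_univ r R hR0 hα
      · rw [← hz]
        exact (hP z.1.1).2.2.2.1 z.1.2 z.2)
    (lt_of_le_of_lt (by gcongr) hU)
  have hΩ : (0 : ℝ) ≤ (Fintype.card (Fin n → α) : ℝ) := by positivity
  set E : ℝ := 3 / (n : ℝ) ^ ((s - 2) * t) with hE
  have hE0 : 0 ≤ E := by positivity
  have hE2 : 6 / (n : ℝ) ^ ((s - 2) * t) = 2 * E := by rw [hE]; ring
  have hE4 : E ≤ 1 / 4 := by
    rw [hE, div_le_div_iff₀ (by positivity) (by norm_num)]
    have : (8 : ℝ) ^ 2 ≤ (n : ℝ) ^ ((s - 2) * t) := by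
      calc (8 : ℝ) ^ 2 ≤ (n : ℝ) ^ 2 := by gcongr
        _ ≤ (n : ℝ) ^ ((s - 2) * t) := by
            apply pow_le_pow_right₀ (by linarith)
            calc 2 = 2 * 1 := by norm_num
              _ ≤ (s - 2) * t := Nat.mul_le_mul (by omega) ht1
    linarith
  -- the leftover
  have hL : ∀ U : Finset (Fin n → α), |∑ x ∈ L U, Ker (2 * t) g x|
      ≤ E * Fintype.card (Fin n → α) := by
    intro U
    have hLc := (hP U).2.2.2.2.2
    have b1 : |∑ x ∈ L U, Ker (2 * t) g x| ≤ (L U).card * (3 * (n : ℝ) ^ (2 * (2 * t))) := by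
      refine le_trans (Finset.abs_sum_le_sum_abs _ _) ?_
      refine le_trans (Finset.sum_le_card_nsmul _ _ _ (fun x _ =>
        h5b n m (2 * t) α (by omega) hm g x)) ?_
      rw [nsmul_eq_mul]
    have b2 : ((L U).card : ℝ) * (n : ℝ) ^ ((s + 2) * t) ≤ Fintype.card (Fin n → α) := by
      have : (L U).card * n ^ ((s + 2) * t) ≤ Fintype.card (Fin n → α) := by
        refine le_trans ?_ hLc
        apply Nat.mul_le_mul_left
        rw [pow_mul]
        exact Nat.pow_le_pow_left hR1 t
      exact_mod_cast this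
    have e3 : (n : ℝ) ^ ((s + 2) * t) = (n : ℝ) ^ ((s - 2) * t) * (n : ℝ) ^ (2 * (2 * t)) := by
      rw [← pow_add]
      congr 1
      obtain ⟨u, rfl⟩ : ∃ u, s = u + 2 := ⟨s - 2, by omega⟩
      simp only [Nat.add_sub_cancel]
      ring
    have hpos : (0 : ℝ) < (n : ℝ) ^ ((s - 2) * t) := by positivity
    refine le_trans b1 ?_
    rw [hE, div_mul_eq_mul_div, le_div_iff₀ hpos]
    calc ((L U).card : ℝ) * (3 * (n : ℝ) ^ (2 * (2 * t))) * (n : ℝ) ^ ((s - 2) * t)
        = 3 * ((L U).card * ((n : ℝ) ^ ((s - 2) * t) * (n : ℝ) ^ (2 * (2 * t)))) := by ring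
      _ = 3 * ((L U).card * (n : ℝ) ^ ((s + 2) * t)) := by rw [e3]
      _ ≤ 3 * Fintype.card (Fin n → α) := by gcongr
  -- the cardinalities of the pieces
  have hcard : ∀ U : Finset (Fin n → α),
      (∑ T : Finset (Fin n), ∑ a : Fin n → α, ((P U T a).card : ℝ))
        ≤ Fintype.card (Fin n → α) := by
    intro U
    have h := (hP U).2.2.1 (fun _ => 1)
    simp only [sum_const, nsmul_eq_mul, mul_one] at h
    have hUc : (U.card : ℝ) ≤ Fintype.card (Fin n → α) := by
      exact_mod_cast Finset.card_le_univ U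
    have hLc : (0 : ℝ) ≤ ((L U).card : ℝ) := Nat.cast_nonneg _
    linarith
  have hgood : ∀ U ∈ 𝓤, ∀ T a, Good (1 / (n : ℝ) ^ s) g T (P U T a) := by
    intro U hU' T a
    have : (T, P U T a) ∈ Fam := by
      rw [hFam, mem_insert, mem_image]
      right
      exact ⟨((U, T), a), mem_product.mpr ⟨mem_product.mpr ⟨hU', mem_univ _⟩, mem_univ _⟩, rfl⟩
    exact hg _ this
  have hval : ∀ U ∈ 𝓤, ∀ T a, (P U T a).Nonempty →
      |(∑ x ∈ P U T a, Ker (2 * t) g x) - (P U T a).card * zval g T a|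
        ≤ (P U T a).card * (zval g T a / 2 + E) := by
    intro U hU' T a hne
    exact h5 n m t α hn hm ht s hs g T a (P U T a) ((hP U).2.2.2.2.1 T a hne)
      (fun x hx => (mem_inter.mp ((hP U).1 T a hx)).2) (hgood U hU' T a)
  refine ⟨g, ?_, ?_, ?_⟩
  · -- M(Ω) ≥ 1/4
    have a0 : Fin n → α := fun _ => Classical.arbitrary α
    have hg0 : Good (1 / (n : ℝ) ^ s) g (∅ : Finset (Fin n)) univ := by
      have : ((∅ : Finset (Fin n)), (univ : Finset (Fin n → α))) ∈ Fam := by
        rw [hFam]; exact mem_insert_self _ _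
      exact hg _ this
    have h := h5 n m t α hn hm ht s hs g ∅ a0 univ (by simp) (by intro x _; simp [Fib]) hg0
    have hz := (h5c n m α hm1 g ∅ a0).2.1
    rw [hz, Finset.card_univ] at h
    have h' := (abs_le.mp h).1
    have h4 : (Fintype.card (Fin n → α) : ℝ) * (1 / 2 + E)
        ≤ (Fintype.card (Fin n → α) : ℝ) * (1 / 2 + 1 / 4) := by gcongr
    have h'' : -((Fintype.card (Fin n → α) : ℝ) * (1 / 2 + E)) ≤
        ∑ x, Ker (2 * t) g x - (Fintype.card (Fin n → α) : ℝ) * 1 := h'
    linarith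
  · -- nonnegativity
    intro U hU'
    have hsum := (hP U).2.2.1 (Ker (2 * t) g)
    rw [hsum, hE2]
    have hpc : ∀ T a, -((P U T a).card * E) ≤ ∑ x ∈ P U T a, Ker (2 * t) g x := by
      intro T a
      rcases (P U T a).eq_empty_or_nonempty with he | hne
      · rw [he]; simp
      · have h := (abs_le.mp (hval U hU' T a hne)).1
        have hz := (h5c n m α hm1 g T a).1
        have hp : (0 : ℝ) ≤ (P U T a).card := Nat.cast_nonneg _
        have hzp : (0 : ℝ) ≤ (P U T a).card * zval g T a := mul_nonneg hp hz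
        nlinarith
    have hs1 : -(∑ T : Finset (Fin n), ∑ a : Fin n → α, ((P U T a).card : ℝ)) * E
        ≤ ∑ T : Finset (Fin n), ∑ a : Fin n → α, ∑ x ∈ P U T a, Ker (2 * t) g x := by
      rw [neg_mul, Finset.sum_mul, ← Finset.sum_neg_distrib]
      refine Finset.sum_le_sum (fun T _ => ?_)
      rw [Finset.sum_mul, ← Finset.sum_neg_distrib]
      exact Finset.sum_le_sum (fun a _ => hpc T a)
    have hs2 := hcard U
    have hl := (abs_le.mp (hL U)).1
    have hs3 : (∑ T : Finset (Fin n), ∑ a : Fin n → α, ((P U T a).card : ℝ)) * E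
        ≤ Fintype.card (Fin n → α) * E := by gcongr
    linarith
  · -- leaves
    intro U hU' i j a a' hij hgg hUs
    have hsum := (hP U).2.2.1 (Ker (2 * t) g)
    rw [hsum, hE2]
    have hpc : ∀ T b, ∑ x ∈ P U T b, Ker (2 * t) g x ≤ (P U T b).card * E := by
      intro T b
      rcases (P U T b).eq_empty_or_nonempty with he | hne
      · rw [he]; simp
      · have hsub : ∀ x ∈ P U T b, x i = a ∧ x j = a' := fun x hx =>
          hUs x (mem_inter.mp ((hP U).1 T b hx)).1
        have hfib : ∀ x ∈ P U T b, ∀ u ∈ T, x u = b u := by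
          intro x hx
          have := (mem_inter.mp ((hP U).1 T b hx)).2
          simpa [Fib] using this
        have hmem : ∀ u : Fin n, ∀ v : α, (∀ x ∈ P U T b, x u = v) → u ∈ T := by
          intro u v huv
          by_contra hnot
          have hsp := (hP U).2.2.2.1 T b {u} (Finset.disjoint_singleton_left.mpr hnot) (fun _ => v)
          have hfil : ((P U T b).filter (fun x => ∀ i ∈ ({u} : Finset (Fin n)), x i = v))
              = P U T b := by
            apply Finset.filter_true_of_mem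
            intro x hx w hw
            rw [mem_singleton] at hw
            rw [hw]
            exact huv x hx
          rw [hfil, card_singleton, pow_one] at hsp
          have hpos : 0 < (P U T b).card := hne.card_pos
          nlinarith
        have hi := hmem i a (fun x hx => (hsub x hx).1)
        have hj := hmem j a' (fun x hx => (hsub x hx).2)
        obtain ⟨x0, hx0⟩ := hne
        have hbi : b i = a := by rw [← hfib x0 hx0 i hi]; exact (hsub x0 hx0).1
        have hbj : b j = a' := by rw [← hfib x0 hx0 j hj]; exact (hsub x0 hx0).2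
        have hz := (h5c n m α hm1 g T b).2.2 i hi j hj hij (by rw [hbi, hbj]; exact hgg)
        have h := (abs_le.mp (hval U hU' T b ⟨x0, hx0⟩)).2
        rw [hz] at h
        linarith
    have hs1 : ∑ T : Finset (Fin n), ∑ b : Fin n → α, ∑ x ∈ P U T b, Ker (2 * t) g x
        ≤ (∑ T : Finset (Fin n), ∑ b : Fin n → α, ((P U T b).card : ℝ)) * E := by
      rw [Finset.sum_mul]
      refine Finset.sum_le_sum (fun T _ => ?_)
      rw [Finset.sum_mul]
      exact Finset.sum_le_sum (fun b _ => hpc T b)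
    have hs2 := hcard U
    have hl := (abs_le.mp (hL U)).2
    have hs3 : (∑ T : Finset (Fin n), ∑ a : Fin n → α, ((P U T a).card : ℝ)) * E
        ≤ Fintype.card (Fin n → α) * E := by gcongr
    linarith

end R8x

end Pool.Agent.SL
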