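import Mathlib

/-!
# High moments of averages of random tables over a spread set
-/

set_option autoImplicit false
open Finset

namespace Pool.Agent.SL.Mom

variable {n m : ℕ} {Sig : Type} [DecidableEq Sig]

/-- the weight of the repetitions: `lam` for each place whose value occurs before -/
noncomputable def rw1 (B : Finset (Fin n)) (lam : ℝ) {N : ℕ} (y : Fin N → Fin n → Sig)
    (x : Fin n → Sig) : ℝ := ∏ i ∈ B, (if ∃ l, y l i = x i then lam else 1)

/-- one more sample -/
lemma sum_rw1_le (B : Finset (Fin n)) (p : Finset (Fin n → Sig)) (r c : ℝ) (hr : 0 < r)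
    (hc : 0 ≤ c) (hsp : ∀ C ⊆ B, ∀ a : Fin n → Sig,
      (#{x ∈ p | ∀ i ∈ C, x i = a i} : ℝ) * r ^ #C ≤ #p)
    {N : ℕ} (y : Fin N → Fin n → Sig) :
    ∑ x ∈ p, rw1 B (1 + c) y x ≤ (#p : ℝ) * (1 + N * (c / r)) ^ #B := by
  classical
  -- weights of the choices
  let w : Option (Fin N) → ℝ := fun o => o.elim 1 fun _ => c
  let w' : Option (Fin N) → ℝ := fun o => o.elim 1 fun _ => c / r
  let D : Fin n → Finset (Option (Fin N)) := fun i => if i ∈ B then univ else {none}
  let mt : (Fin n → Option (Fin N)) → (Fin n → Sig) → Fin n → Prop :=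
    fun u x i => ∀ l, u i = some l → y l i = x i
  have hw : ∀ o, 0 ≤ w o := fun o => by cases o <;> simp [w, hc]
  have h1 : ∀ x : Fin n → Sig, rw1 B (1 + c) y x ≤
      ∑ u ∈ Fintype.piFinset D, ∏ i, (w (u i) * if (∀ l, u i = some l → y l i = x i) then 1
        else 0) := by
    intro x
    rw [← prod_univ_sum D (fun i o => w o * if (∀ l, o = some l → y l i = x i) then 1 else 0)]
    unfold rw1
    have e1 : ∏ i ∈ B, (if ∃ l, y l i = x i then (1 + c) else 1) =
        ∏ i, (if i ∈ B then (if ∃ l, y l i = x i then (1 + c) else 1) else 1) := by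
      rw [prod_ite_mem, univ_inter]
    rw [e1]
    refine prod_le_prod (fun i _ => by split_ifs <;> linarith) fun i _ => ?_
    by_cases hi : i ∈ B
    · simp only [hi, if_true, D]
      rw [Fintype.sum_option]
      have h2 : (w none * if (∀ l, (none : Option (Fin N)) = some l → y l i = x i) then (1 : ℝ)
          else 0) = 1 := by simp [w]
      rw [h2]
      have h3 : ∀ l : Fin N, (w (some l) *
          if (∀ l', (some l : Option (Fin N)) = some l' → y l' i = x i) then (1 : ℝ) else 0) =
          c * if y l i = x i then 1 else 0 := by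
        intro l
        simp [w]
      rw [sum_congr rfl fun l _ => h3 l]
      split_ifs with h
      · obtain ⟨l, hl⟩ := h
        have : c * (if y l i = x i then 1 else 0) ≤
            ∑ l : Fin N, c * (if y l i = x i then (1 : ℝ) else 0) :=
          single_le_sum (f := fun l => c * (if y l i = x i then (1 : ℝ) else 0))
            (fun l _ => by positivity) (mem_univ l)
        rw [if_pos hl, mul_one] at this
        linarith
      · have : 0 ≤ ∑ l : Fin N, c * (if y l i = x i then (1 : ℝ) else 0) :=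
          sum_nonneg fun l _ => by positivity
        linarith
    · simp [hi, D, w]
  have h2 : ∀ u ∈ Fintype.piFinset D,
      ∑ x ∈ p, ∏ i, (w (u i) * if (∀ l, u i = some l → y l i = x i) then (1 : ℝ) else 0) ≤
      (#p : ℝ) * ∏ i, w' (u i) := by
    intro u hu
    rw [Fintype.mem_piFinset] at hu
    have hun : ∀ i, i ∉ B → u i = none := fun i hi => by
      have := hu i
      simpa [D, hi] using this
    set C : Finset (Fin n) := B.filter (fun i => u i ≠ none) with hC
    have e1 : ∀ x : Fin n → Sig,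
        ∏ i, (w (u i) * if (∀ l, u i = some l → y l i = x i) then (1 : ℝ) else 0) =
        (∏ i, w (u i)) * if (∀ i, ∀ l, u i = some l → y l i = x i) then 1 else 0 := by
      intro x
      rw [prod_mul_distrib]
      congr 1
      rw [prod_ite_zero]
      simp
    rw [sum_congr rfl fun x _ => e1 x, ← mul_sum]
    have e2 : ∏ i, w (u i) = c ^ #C := by
      have : ∀ i, w (u i) = if i ∈ C then c else 1 := by
        intro i
        by_cases hi : i ∈ C
        · rw [if_pos hi]
          have := (mem_filter.mp hi).2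
          obtain ⟨l, hl⟩ := Option.ne_none_iff_exists'.mp this
          rw [hl]
          rfl
        · rw [if_neg hi]
          have : u i = none := by
            by_contra h
            by_cases hB : i ∈ B
            · exact hi (mem_filter.mpr ⟨hB, h⟩)
            · exact h (hun i hB)
          rw [this]
          rfl
      rw [prod_congr rfl fun i _ => this i, prod_ite_mem, univ_inter, prod_const]
    have e3 : ∏ i, w' (u i) = (c / r) ^ #C := by
      have : ∀ i, w' (u i) = if i ∈ C then c / r else 1 := by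
        intro i
        by_cases hi : i ∈ C
        · rw [if_pos hi]
          have := (mem_filter.mp hi).2
          obtain ⟨l, hl⟩ := Option.ne_none_iff_exists'.mp this
          rw [hl]
          rfl
        · rw [if_neg hi]
          have : u i = none := by
            by_contra h
            by_cases hB : i ∈ B
            · exact hi (mem_filter.mpr ⟨hB, h⟩)
            · exact h (hun i hB)
          rw [this]
          rfl
      rw [prod_congr rfl fun i _ => this i, prod_ite_mem, univ_inter, prod_const]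
    rw [e2, e3]
    have e4 : ∑ x ∈ p, (if (∀ i, ∀ l, u i = some l → y l i = x i) then (1 : ℝ) else 0) =
        #{x ∈ p | ∀ i, ∀ l, u i = some l → y l i = x i} := by
      rw [sum_ite, sum_const_zero, add_zero, sum_const, nsmul_eq_mul, mul_one]
    rw [e4]
    -- the fixed values
    rcases isEmpty_or_nonempty (Fin n → Sig) with hE | ⟨⟨x0⟩⟩
    · have : p = ∅ := by
        ext x
        exact hE.elim x
      subst this
      simp
    let a : Fin n → Sig := fun i => (u i).elim (x0 i) fun l => y l i
    have h3 : #{x ∈ p | ∀ i, ∀ l, u i = some l → y l i = x i} ≤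
        #{x ∈ p | ∀ i ∈ C, x i = a i} := by
      refine card_le_card fun x hx => ?_
      rw [mem_filter] at hx ⊢
      refine ⟨hx.1, fun i hi => ?_⟩
      obtain ⟨l, hl⟩ := Option.ne_none_iff_exists'.mp (mem_filter.mp hi).2
      rw [← hx.2 i l hl]
      simp only [a, hl, Option.elim_some]
    have h4 := hsp C (filter_subset _ _) a
    have h5 : (#{x ∈ p | ∀ i, ∀ l, u i = some l → y l i = x i} : ℝ) ≤ #p / r ^ #C := by
      rw [le_div_iff₀ (by positivity)]
      refine le_trans ?_ h4
      exact mul_le_mul_of_nonneg_right (by exact_mod_cast h3) (by positivity)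
    calc c ^ #C * (#{x ∈ p | ∀ i, ∀ l, u i = some l → y l i = x i} : ℝ)
        ≤ c ^ #C * (#p / r ^ #C) := mul_le_mul_of_nonneg_left h5 (by positivity)
      _ = #p * (c / r) ^ #C := by rw [div_pow]; ring
  calc ∑ x ∈ p, rw1 B (1 + c) y x
      ≤ ∑ x ∈ p, ∑ u ∈ Fintype.piFinset D, ∏ i, (w (u i) *
          if (∀ l, u i = some l → y l i = x i) then 1 else 0) := sum_le_sum fun x _ => h1 x
    _ = ∑ u ∈ Fintype.piFinset D, ∑ x ∈ p, ∏ i, (w (u i) *
          if (∀ l, u i = some l → y l i = x i) then 1 else 0) := sum_comm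
    _ ≤ ∑ u ∈ Fintype.piFinset D, (#p : ℝ) * ∏ i, w' (u i) := sum_le_sum h2
    _ = #p * ∏ i, ∑ o ∈ D i, w' o := by
        rw [← mul_sum, ← prod_univ_sum D (fun _ o => w' o)]
    _ = (#p : ℝ) * (1 + N * (c / r)) ^ #B := by
        congr 1
        have : ∀ i, ∑ o ∈ D i, w' o = if i ∈ B then (1 + N * (c / r)) else 1 := by
          intro i
          by_cases hi : i ∈ B
          · simp only [hi, if_true, D]
            rw [Fintype.sum_option]
            simp [w']
          · simp [hi, D, w']
        rw [prod_congr rfl fun i _ => this i, prod_ite_mem, univ_inter, prod_const]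

/-- the weight of a tuple -/
noncomputable def rw2 (B : Finset (Fin n)) (lam : ℝ) : (N : ℕ) → (Fin N → Fin n → Sig) → ℝ
  | 0, _ => 1
  | N + 1, y => rw2 B lam N (fun l => y l.castSucc) *
      rw1 B lam (fun l : Fin N => y l.castSucc) (y (Fin.last N))

lemma rw1_nonneg (B : Finset (Fin n)) (lam : ℝ) (h : 0 ≤ lam) {N : ℕ} (y : Fin N → Fin n → Sig)
    (x : Fin n → Sig) : 0 ≤ rw1 B lam y x := prod_nonneg fun i _ => by split_ifs <;> linarith

lemma rw2_nonneg (B : Finset (Fin n)) (lam : ℝ) (h : 0 ≤ lam) : ∀ (N : ℕ)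
    (y : Fin N → Fin n → Sig), 0 ≤ rw2 B lam N y
  | 0, _ => zero_le_one
  | N + 1, _ => mul_nonneg (rw2_nonneg B lam h N _) (rw1_nonneg B lam h _ _)

lemma sum_rw2_le (B : Finset (Fin n)) (p : Finset (Fin n → Sig)) (r c : ℝ) (hr : 0 < r)
    (hc : 0 ≤ c) (hsp : ∀ C ⊆ B, ∀ a : Fin n → Sig,
      (#{x ∈ p | ∀ i ∈ C, x i = a i} : ℝ) * r ^ #C ≤ #p) (Q : ℝ) (N : ℕ)
    (hQ : 1 + N * (c / r) ≤ Q) :
    ∑ y ∈ Fintype.piFinset (fun _ : Fin N => p), rw2 B (1 + c) N y ≤ ((#p : ℝ) * Q ^ #B) ^ N := by
  classical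
  induction N with
  | zero => simp [rw2]
  | succ N ih =>
    have hcr : 0 ≤ c / r := by positivity
    have hQN : 1 + (N : ℝ) * (c / r) ≤ Q := by
      refine le_trans ?_ hQ
      push_cast
      nlinarith
    have hQ1 : 0 ≤ 1 + (N : ℝ) * (c / r) := by positivity
    have e : ∑ y ∈ Fintype.piFinset (fun _ : Fin (N + 1) => p), rw2 B (1 + c) (N + 1) y =
        ∑ z ∈ Fintype.piFinset (fun _ : Fin N => p), ∑ x ∈ p,
          rw2 B (1 + c) N z * rw1 B (1 + c) z x := by
      rw [← sum_product']
      refine sum_bij' (fun y _ => (fun l : Fin N => y l.castSucc, y (Fin.last N)))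
        (fun zx _ => Fin.snoc (α := fun _ => Fin n → Sig) zx.1 zx.2) ?_ ?_ ?_ ?_ ?_
      · intro y hy
        rw [Fintype.mem_piFinset] at hy
        rw [mem_product, Fintype.mem_piFinset]
        exact ⟨fun l => hy _, hy _⟩
      · rintro ⟨z, x⟩ h
        rw [mem_product, Fintype.mem_piFinset] at h
        rw [Fintype.mem_piFinset]
        intro l
        refine Fin.lastCases ?_ (fun l => ?_) l
        · simpa using h.2
        · simpa using h.1 l
      · intro y _
        exact Fin.snoc_init_self y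
      · rintro ⟨z, x⟩ _
        simp
      · intro y _
        rfl
    rw [e]
    calc ∑ z ∈ Fintype.piFinset (fun _ : Fin N => p), ∑ x ∈ p,
          rw2 B (1 + c) N z * rw1 B (1 + c) z x
        ≤ ∑ z ∈ Fintype.piFinset (fun _ : Fin N => p), rw2 B (1 + c) N z * ((#p : ℝ) * Q ^ #B) := by
          refine sum_le_sum fun z _ => ?_
          rw [← mul_sum]
          refine mul_le_mul_of_nonneg_left ?_ (rw2_nonneg B _ (by linarith) N z)
          refine (sum_rw1_le B p r c hr hc hsp z).trans ?_
          exact mul_le_mul_of_nonneg_left (pow_le_pow_left₀ hQ1 hQN _) (by positivity)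
      _ = (∑ z ∈ Fintype.piFinset (fun _ : Fin N => p), rw2 B (1 + c) N z) *
            ((#p : ℝ) * Q ^ #B) := by rw [sum_mul]
      _ ≤ ((#p : ℝ) * Q ^ #B) ^ N * ((#p : ℝ) * Q ^ #B) :=
          mul_le_mul_of_nonneg_right (ih hQN) (by have : 0 ≤ Q := hQ1.trans hQN; positivity)
      _ = _ := (pow_succ _ _).symm

/-- number of places whose value occurs before -/
noncomputable def rep {N : ℕ} (v : Fin N → Sig) : ℕ := #{l | ∃ l' < l, v l' = v l}

lemma rw2_eq (B : Finset (Fin n)) (lam : ℝ) : ∀ (N : ℕ) (y : Fin N → Fin n → Sig),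
    rw2 B lam N y = ∏ i ∈ B, lam ^ rep (fun l => y l i) := by
  classical
  intro N
  induction N with
  | zero => intro y; simp [rw2, rep]
  | succ N ih =>
    intro y
    rw [rw2, ih, rw1, ← prod_mul_distrib]
    refine prod_congr rfl fun i _ => ?_
    have h : rep (fun l => y l i) = rep (fun l : Fin N => y l.castSucc i) +
        if ∃ l : Fin N, y l.castSucc i = y (Fin.last N) i then 1 else 0 := by
      unfold rep
      rw [card_filter, card_filter, Fin.sum_univ_castSucc]
      congr 1
      · refine sum_congr rfl fun l _ => ?_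
        congr 1
        apply propext
        constructor
        · rintro ⟨l', h1, h2⟩
          have h3 : l' ≠ Fin.last N := fun h => by
            rw [h] at h1
            exact absurd h1 (not_lt.mpr (Fin.le_last _))
          obtain ⟨l'', rfl⟩ := Fin.exists_castSucc_eq.mpr h3
          exact ⟨l'', by simpa using h1, h2⟩
        · rintro ⟨l', h1, h2⟩
          exact ⟨l'.castSucc, by simpa using h1, h2⟩
      · congr 1
        apply propext
        constructor
        · rintro ⟨l', h1, h2⟩
          obtain ⟨l'', rfl⟩ := Fin.exists_castSucc_eq.mpr h1.ne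
          exact ⟨l'', h2⟩
        · rintro ⟨l', h2⟩
          exact ⟨l'.castSucc, Fin.castSucc_lt_last _, h2⟩
    rw [h, pow_add]
    congr 1
    split_ifs <;> simp

/-- all values occur at least twice -/
def Paired {N : ℕ} (v : Fin N → Sig) : Prop := ∀ l, ∃ l', l' ≠ l ∧ v l' = v l

lemma rep_ge {k : ℕ} (v : Fin (2 * k) → Sig) (hv : Paired v) : k ≤ rep v := by
  classical
  unfold rep
  have h1 : #{l : Fin (2 * k) | ¬ ∃ l' < l, v l' = v l} ≤ #{l | ∃ l' < l, v l' = v l} := by
    choose f hf using hv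
    refine card_le_card_of_injOn f ?_ ?_
    · intro l hl
      simp only [coe_filter, mem_univ, true_and, Set.mem_ofPred_eq] at hl ⊢
      refine ⟨l, ?_, (hf l).2.symm⟩
      rcases lt_or_gt_of_ne (hf l).1 with h | h
      · exact absurd ⟨f l, h, (hf l).2⟩ hl
      · exact h
    · intro a ha b hb hab
      simp only [coe_filter, mem_univ, true_and, Set.mem_ofPred_eq] at ha hb
      have e : v a = v b := by rw [← (hf a).2, ← (hf b).2, hab]
      rcases lt_trichotomy a b with h | h | h
      · exact absurd ⟨a, h, e⟩ hb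
      · exact h
      · exact absurd ⟨b, h, e.symm⟩ ha
  have h2 : #{l : Fin (2 * k) | ∃ l' < l, v l' = v l} +
      #{l : Fin (2 * k) | ¬ ∃ l' < l, v l' = v l} = 2 * k := by
    rw [card_filter_add_card_filter_not]
    simp
  omega

open Classical in
/-- the number of paired tuples -/
lemma card_paired (B : Finset (Fin n)) (p : Finset (Fin n → Sig)) (r : ℝ) (hr : 0 < r)
    (hsp : ∀ C ⊆ B, ∀ a : Fin n → Sig,
      (#{x ∈ p | ∀ i ∈ C, x i = a i} : ℝ) * r ^ #C ≤ #p) (k : ℕ) (hk : 1 ≤ k) :
    (#{y ∈ Fintype.piFinset (fun _ : Fin (2 * k) => p) |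
      ∀ i ∈ B, Paired fun l : Fin (2 * k) => (y l : Fin n → Sig) i} : ℝ) ≤
      (#p : ℝ) ^ (2 * k) * (8 * k / r) ^ (k * #B) := by
  classical
  have hk0 : (0 : ℝ) < k := by exact_mod_cast hk
  set c : ℝ := r / (2 * k) with hc
  have hc0 : 0 < c := by positivity
  have h1 := sum_rw2_le B p r c hr hc0.le hsp 2 (2 * k) (by
    rw [hc]
    push_cast
    rw [div_div_cancel_left' hr.ne']
    field_simp
    norm_num)
  have h2 : ((#{y ∈ Fintype.piFinset (fun _ : Fin (2 * k) => p) |
      ∀ i ∈ B, Paired fun l : Fin (2 * k) => (y l : Fin n → Sig) i} : ℕ) : ℝ) * c ^ (k * #B) ≤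
      ∑ y ∈ Fintype.piFinset (fun _ : Fin (2 * k) => p), rw2 B (1 + c) (2 * k) y := by
    rw [← nsmul_eq_mul, ← sum_const]
    refine (sum_le_sum fun y hy => ?_).trans (sum_le_sum_of_subset_of_nonneg (filter_subset _ _)
      fun y _ _ => rw2_nonneg B _ (by linarith) _ y)
    rw [mem_filter] at hy
    rw [rw2_eq, pow_mul, ← prod_const]
    refine prod_le_prod (fun i _ => by positivity) fun i hi => ?_
    calc c ^ k ≤ (1 + c) ^ k := pow_le_pow_left₀ hc0.le (by linarith) _
      _ ≤ (1 + c) ^ rep (fun l => y l i) :=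
        pow_le_pow_right₀ (by linarith) (rep_ge _ (hy.2 i hi))
  have h3 := h2.trans h1
  rw [← le_div_iff₀ (by positivity)] at h3
  refine h3.trans (le_of_eq ?_)
  rw [mul_pow, ← pow_mul, div_eq_mul_inv, mul_assoc, ← inv_pow]
  congr 1
  rw [show #B * (2 * k) = 2 * (k * #B) by ring, pow_mul, ← mul_pow]
  congr 1
  rw [hc]
  field_simp
  norm_num

/-- the factor of a table -/
noncomputable def fac (m : ℕ) (t e : Fin m) : ℝ := (m : ℝ) * (if t = e then 1 else 0) - 1

lemma abs_fac_le (hm : 1 ≤ m) (t e : Fin m) : |fac m t e| ≤ m := by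
  have : (1 : ℝ) ≤ m := by exact_mod_cast hm
  unfold fac
  split_ifs
  · rw [abs_of_nonneg (by linarith)]; linarith
  · simp [this]

lemma sum_fac (e : Fin m) : ∑ t : Fin m, fac m t e = 0 := by
  unfold fac
  rw [sum_sub_distrib, ← mul_sum]
  simp

/-- the average over one table vanishes if some value occurs only once -/
lemma sum_table {m : ℕ} [Fintype Sig] {N : ℕ} (v : Fin N → Sig) (e : Fin m) (hv : ¬ Paired v) :
    ∑ t : Sig → Fin m, ∏ l, fac m (t (v l)) e = 0 := by
  classical
  unfold Paired at hv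
  push Not at hv
  obtain ⟨l0, hl0⟩ := hv
  have h1 : ∀ t : Sig → Fin m, ∏ l, fac m (t (v l)) e =
      ∏ s : Sig, ∏ l with v l = s, fac m (t s) e := by
    intro t
    rw [← prod_fiberwise univ v]
    refine prod_congr rfl fun s _ => prod_congr rfl fun l hl => ?_
    rw [(mem_filter.mp hl).2]
  rw [sum_congr rfl fun t _ => h1 t]
  have h2 := (prod_univ_sum (fun _ : Sig => (univ : Finset (Fin m)))
    (fun s c => ∏ l with v l = s, fac m c e)).symm
  rw [Fintype.piFinset_univ] at h2
  rw [h2]
  refine prod_eq_zero (mem_univ (v l0)) ?_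
  have h3 : (univ.filter fun l => v l = v l0) = {l0} := by
    ext l
    simp only [mem_filter, mem_univ, true_and, mem_singleton]
    constructor
    · intro h
      by_contra hne
      exact hl0 l hne h
    · rintro rfl; rfl
  rw [h3]
  simp only [prod_singleton]
  exact sum_fac e

/-- Row R2: the moments. -/
theorem moment [Fintype Sig] {m k : ℕ} (hm : 1 ≤ m) (hk : 1 ≤ k) (B : Finset (Fin n))
    (p : Finset (Fin n → Sig)) (r : ℝ) (hr : 0 < r)
    (hsp : ∀ C ⊆ B, ∀ a : Fin n → Sig,
      (#{x ∈ p | ∀ i ∈ C, x i = a i} : ℝ) * r ^ #C ≤ #p) (η : Fin n → Fin m) :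
    ∑ g : Fin n → Sig → Fin m, (∑ x ∈ p, ∏ i ∈ B, fac m (g i (x i)) (η i)) ^ (2 * k) ≤
      (#p : ℝ) ^ (2 * k) * (8 * k * (m : ℝ) ^ 2 / r) ^ (k * #B) *
        (Fintype.card (Fin n → Sig → Fin m) : ℝ) := by
  classical
  have hm0 : (0 : ℝ) ≤ m := by positivity
  have h1 : ∀ g : Fin n → Sig → Fin m,
      (∑ x ∈ p, ∏ i ∈ B, fac m (g i (x i)) (η i)) ^ (2 * k) =
      ∑ y ∈ Fintype.piFinset (fun _ : Fin (2 * k) => p),
        ∏ l, ∏ i ∈ B, fac m (g i (y l i)) (η i) := by
    intro g
    rw [← prod_univ_sum (fun _ : Fin (2 * k) => p) (fun _ x => ∏ i ∈ B, fac m (g i (x i)) (η i))]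
    simp
  rw [sum_congr rfl fun g _ => h1 g, sum_comm]
  have h2 : ∀ y ∈ Fintype.piFinset (fun _ : Fin (2 * k) => p),
      ∑ g : Fin n → Sig → Fin m, ∏ l, ∏ i ∈ B, fac m (g i (y l i)) (η i) ≤
      if (∀ i ∈ B, Paired fun l : Fin (2 * k) => (y l : Fin n → Sig) i) then
        (m : ℝ) ^ (2 * k * #B) * (Fintype.card (Fin n → Sig → Fin m) : ℝ) else 0 := by
    intro y _
    split_ifs with hP
    · calc ∑ g : Fin n → Sig → Fin m, ∏ l, ∏ i ∈ B, fac m (g i (y l i)) (η i)
          ≤ ∑ g : Fin n → Sig → Fin m, (m : ℝ) ^ (2 * k * #B) := by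
            refine sum_le_sum fun g _ => (le_abs_self _).trans ?_
            rw [abs_prod]
            calc ∏ l, |∏ i ∈ B, fac m (g i (y l i)) (η i)|
                ≤ ∏ _l : Fin (2 * k), (m : ℝ) ^ #B := by
                  refine prod_le_prod (fun _ _ => abs_nonneg _) fun l _ => ?_
                  rw [abs_prod, ← prod_const]
                  exact prod_le_prod (fun _ _ => abs_nonneg _) fun i _ => abs_fac_le hm _ _
              _ = (m : ℝ) ^ (2 * k * #B) := by
                  rw [prod_const, card_univ, Fintype.card_fin, ← pow_mul, mul_comm]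
        _ = _ := by rw [sum_const, card_univ, nsmul_eq_mul, mul_comm]
    · push Not at hP
      obtain ⟨i0, hi0, hP⟩ := hP
      refine le_of_eq ?_
      have e1 : ∀ g : Fin n → Sig → Fin m, ∏ l, ∏ i ∈ B, fac m (g i (y l i)) (η i) =
          ∏ i, (if i ∈ B then ∏ l, fac m (g i (y l i)) (η i) else 1) := by
        intro g
        rw [prod_comm, prod_ite_mem, univ_inter]
      rw [sum_congr rfl fun g _ => e1 g]
      have e2 := (prod_univ_sum (fun _ : Fin n => (univ : Finset (Sig → Fin m)))
        (fun i t => if i ∈ B then ∏ l, fac m (t (y l i)) (η i) else 1)).symm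
      rw [Fintype.piFinset_univ] at e2
      rw [e2]
      refine prod_eq_zero (mem_univ i0) ?_
      simp only [hi0, if_true]
      exact sum_table _ _ hP
  refine (sum_le_sum h2).trans ?_
  rw [← sum_filter, sum_const, nsmul_eq_mul]
  have h3 := card_paired B p r hr hsp k hk
  calc (#{y ∈ Fintype.piFinset (fun _ : Fin (2 * k) => p) |
        ∀ i ∈ B, Paired fun l : Fin (2 * k) => (y l : Fin n → Sig) i} : ℝ) *
        ((m : ℝ) ^ (2 * k * #B) * (Fintype.card (Fin n → Sig → Fin m) : ℝ))
      ≤ ((#p : ℝ) ^ (2 * k) * (8 * k / r) ^ (k * #B)) *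
        ((m : ℝ) ^ (2 * k * #B) * (Fintype.card (Fin n → Sig → Fin m) : ℝ)) :=
        mul_le_mul_of_nonneg_right h3 (by positivity)
    _ = _ := by
        rw [show 8 * (k : ℝ) * (m : ℝ) ^ 2 / r = (8 * k / r) * (m : ℝ) ^ 2 by ring, mul_pow,
          ← pow_mul (m : ℝ), show 2 * (k * #B) = 2 * k * #B by ring]
        ring

end Pool.Agent.SL.Mom
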