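import Pool.Agent.Lib.SL.Defs
import Pool.Agent.Lib.SL.Mom

/-!
# Row R2: moments
-/

set_option autoImplicit false
open Finset

namespace Pool.Agent.SL

theorem r2 : R2 := by
  intro n m r k α _ _ hm hr hk T B p η hsp hBT
  have hr0 : (0 : ℝ) < r := by exact_mod_cast hr
  have h := Mom.moment (n := n) (Sig := α) (m := m) (k := k) hm hk B p (r : ℝ) hr0
    (fun C hC a => by
      have := hsp C (hBT.mono_left hC) a
      exact_mod_cast this) η
  refine le_trans (le_of_eq rfl) (h.trans (le_of_eq ?_))
  ring

end Pool.Agent.SL
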