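import Pool.Agent.Lib.SL.Defs

/-!
# Row R3: a good choice of the tables for all pieces of a family
-/

set_option autoImplicit false
open Finset

namespace Pool.Agent.SL

namespace R3x

open Classical in
/-- the number of bad choices for one piece, one set of places and one choice of the labels -/
lemma card_bad (h2 : R2) {n m r k : ℕ} {α : Type} [Fintype α] [DecidableEq α] {τ : ℝ}
    (hm : 1 ≤ m) (hr : 1 ≤ r) (hk : 1 ≤ k) (hτ : 0 < τ)
    (hkr : 8 * (k : ℝ) * (m : ℝ) ^ 2 / r ≤ τ ^ 2 / 4) (T B : Finset (Fin n))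
    (p : Finset (Fin n → α)) (η : Fin n → Fin m) (hsp : Spread r T p) (hBT : Disjoint B T) :
    (#{g : Fin n → α → Fin m | (#p : ℝ) * τ ^ #B < |∑ x ∈ p, Qf g η B x|} : ℝ) * 4 ^ k ≤
      (Fintype.card (Fin n → α → Fin m) : ℝ) := by
  set bad := ({g : Fin n → α → Fin m | (#p : ℝ) * τ ^ #B < |∑ x ∈ p, Qf g η B x|} :
    Finset (Fin n → α → Fin m)) with hbad
  rcases B.eq_empty_or_nonempty with hB | hB
  · have : bad = ∅ := by
      rw [hbad, filter_eq_empty_iff]
      intro g _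
      subst hB
      simp [Qf]
    rw [this]
    simp
  rcases Nat.eq_zero_or_pos (#p) with hp | hp
  · have : bad = ∅ := by
      rw [hbad, filter_eq_empty_iff]
      intro g _
      rw [card_eq_zero] at hp
      subst hp
      simp
    rw [this]
    simp
  have hp0 : (0 : ℝ) < #p := by exact_mod_cast hp
  have h := h2 n m r k α hm hr hk T B p η hsp hBT
  have h3 : (bad.card : ℝ) * ((#p : ℝ) * τ ^ #B) ^ (2 * k) ≤
      ∑ g : Fin n → α → Fin m, (∑ x ∈ p, Qf g η B x) ^ (2 * k) := by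
    rw [← nsmul_eq_mul, ← sum_const]
    refine (sum_le_sum fun g hg => ?_).trans (sum_le_sum_of_subset_of_nonneg (filter_subset _ _)
      fun g _ _ => (even_two_mul k).pow_nonneg _)
    rw [hbad, mem_filter] at hg
    rw [← (even_two_mul k).pow_abs (∑ x ∈ p, Qf g η B x)]
    exact pow_le_pow_left₀ (by positivity) hg.2.le _
  have h4 : (8 * (k : ℝ) * (m : ℝ) ^ 2 / r) ^ (k * #B) ≤ (τ ^ 2 / 4) ^ (k * #B) :=
    pow_le_pow_left₀ (by positivity) hkr _
  have h5 : (bad.card : ℝ) * ((#p : ℝ) * τ ^ #B) ^ (2 * k) ≤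
      (Fintype.card (Fin n → α → Fin m) : ℝ) * (#p : ℝ) ^ (2 * k) * (τ ^ 2 / 4) ^ (k * #B) :=
    (h3.trans h).trans (mul_le_mul_of_nonneg_left h4 (by positivity))
  have h6 : (4 : ℝ) ^ k ≤ 4 ^ (k * #B) :=
    pow_le_pow_right₀ (by norm_num) (Nat.le_mul_of_pos_right _ (card_pos.mpr hB))
  have h7 : ((#p : ℝ) * τ ^ #B) ^ (2 * k) = (#p : ℝ) ^ (2 * k) * (τ ^ 2) ^ (k * #B) := by
    rw [mul_pow, ← pow_mul, ← pow_mul]
    congr 2
    ring
  rw [h7, div_pow] at h5
  have h8 : (bad.card : ℝ) * 4 ^ (k * #B) ≤ (Fintype.card (Fin n → α → Fin m) : ℝ) := by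
    have hc : 0 < (#p : ℝ) ^ (2 * k) * (τ ^ 2) ^ (k * #B) / 4 ^ (k * #B) := by positivity
    refine le_of_mul_le_mul_right ?_ hc
    calc (bad.card : ℝ) * 4 ^ (k * #B) * ((#p : ℝ) ^ (2 * k) * (τ ^ 2) ^ (k * #B) / 4 ^ (k * #B))
        = (bad.card : ℝ) * ((#p : ℝ) ^ (2 * k) * (τ ^ 2) ^ (k * #B)) := by
          field_simp
      _ ≤ _ := h5
      _ = _ := by ring
  exact (mul_le_mul_of_nonneg_left h6 (by positivity)).trans h8

end R3x

theorem r3 (h2 : R2) : R3 := by
  classical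
  intro n m r k α _ _ τ hm hr hk hτ hkr Fam hF hcard
  by_contra hno
  push Not at hno
  let bad : (Finset (Fin n) × Finset (Fin n → α)) × (Finset (Fin n) × (Fin n → Fin m)) →
      Finset (Fin n → α → Fin m) := fun z =>
    if Disjoint z.2.1 z.1.1 then
      univ.filter (fun g : Fin n → α → Fin m =>
        (#z.1.2 : ℝ) * τ ^ #z.2.1 < |∑ x ∈ z.1.2, Qf g z.2.2 z.2.1 x|)
    else ∅
  have h1 : (univ : Finset (Fin n → α → Fin m)) ⊆ (Fam ×ˢ univ).biUnion bad := by
    intro g _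
    obtain ⟨P, hP, hg⟩ := hno g
    unfold Good at hg
    push Not at hg
    obtain ⟨B, hB, η, hg⟩ := hg
    rw [mem_biUnion]
    refine ⟨(P, (B, η)), by simp [hP], ?_⟩
    simp only [bad, if_pos hB, mem_filter, mem_univ, true_and]
    exact hg
  have h3 := (card_le_card h1).trans card_biUnion_le
  have h4 : ∀ z ∈ Fam ×ˢ (univ : Finset (Finset (Fin n) × (Fin n → Fin m))),
      ((bad z).card : ℝ) ≤ (Fintype.card (Fin n → α → Fin m) : ℝ) / 4 ^ k := by
    intro z hz
    rw [mem_product] at hz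
    by_cases hd : Disjoint z.2.1 z.1.1
    · simp only [bad, if_pos hd]
      rw [le_div_iff₀ (by positivity)]
      exact R3x.card_bad h2 hm hr hk hτ hkr z.1.1 z.2.1 z.1.2 z.2.2 (hF _ hz.1) hd
    · simp only [bad, if_neg hd, card_empty, Nat.cast_zero]
      positivity
  have : Nonempty (Fin m) := ⟨⟨0, hm⟩⟩
  have hG : (0 : ℝ) < (Fintype.card (Fin n → α → Fin m) : ℝ) := by
    exact_mod_cast Fintype.card_pos
  have h5 : (Fintype.card (Fin n → α → Fin m) : ℝ) ≤
      ((Fam.card * (2 ^ n * m ^ n) : ℕ) : ℝ) *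
        ((Fintype.card (Fin n → α → Fin m) : ℝ) / 4 ^ k) := by
    calc (Fintype.card (Fin n → α → Fin m) : ℝ)
        ≤ ((∑ z ∈ Fam ×ˢ (univ : Finset (Finset (Fin n) × (Fin n → Fin m))), (bad z).card : ℕ) :
            ℝ) := by
          rw [← card_univ]
          exact_mod_cast h3
      _ ≤ ∑ z ∈ Fam ×ˢ (univ : Finset (Finset (Fin n) × (Fin n → Fin m))),
            ((Fintype.card (Fin n → α → Fin m) : ℝ) / 4 ^ k) := by
          push_cast
          exact sum_le_sum h4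
      _ = _ := by
          rw [sum_const, card_product, nsmul_eq_mul]
          congr 2
          simp [Fintype.card_prod]
  have h6 : ((Fam.card * (2 ^ n * m ^ n) : ℕ) : ℝ) < 4 ^ k := by
    have : Fam.card * (2 ^ n * m ^ n) < 4 ^ k := by rw [← mul_assoc]; exact hcard
    exact_mod_cast this
  have h7 : ((Fam.card * (2 ^ n * m ^ n) : ℕ) : ℝ) *
        ((Fintype.card (Fin n → α → Fin m) : ℝ) / 4 ^ k) <
      4 ^ k * ((Fintype.card (Fin n → α → Fin m) : ℝ) / 4 ^ k) :=
    mul_lt_mul_of_pos_right h6 (by positivity)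
  have h8 : (4 : ℝ) ^ k * ((Fintype.card (Fin n → α → Fin m) : ℝ) / 4 ^ k) =
      (Fintype.card (Fin n → α → Fin m) : ℝ) := by field_simp
  linarith

end Pool.Agent.SL
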