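import Pool.Agent.Lib.SL.Defs

/-!
# Row R4: consistency of the averages over injections
-/

namespace Pool.Agent.SL

open Finset

namespace R4x

lemma mem_J {n m : ℕ} {A : Finset (Fin n)} {η : Fin n → Fin m} :
    η ∈ J n m A ↔ ∀ i ∈ A, ∀ j ∈ A, η i = η j → i = j := by
  simp [J]

lemma upd_mem {n m : ℕ} {A : Finset (Fin n)} {a : Fin n} (ha : a ∉ A) {η : Fin n → Fin m}
    (v : Fin m) (h : ∀ i ∈ A, ∀ j ∈ A, η i = η j → i = j) :
    ∀ i ∈ A, ∀ j ∈ A, Function.update η a v i = Function.update η a v j → i = j := by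
  intro i hi j hj hij
  have h1 : i ≠ a := fun h => ha (h ▸ hi)
  have h2 : j ≠ a := fun h => ha (h ▸ hj)
  rw [Function.update_of_ne h1, Function.update_of_ne h2] at hij
  exact h i hi j hj hij

/-- One more element. -/
lemma step {n m : ℕ} {A : Finset (Fin n)} {a : Fin n} (ha : a ∉ A)
    (f : (Fin n → Fin m) → ℝ) (hf : ∀ η v, f (Function.update η a v) = f η) :
    (m : ℝ) * ∑ η ∈ J n m (insert a A), f η = ((m : ℝ) - A.card) * ∑ η ∈ J n m A, f η := by
  have e1 : (m : ℝ) * ∑ η ∈ J n m (insert a A), f η =
      ∑ x ∈ J n m (insert a A) ×ˢ (univ : Finset (Fin m)), f x.1 := by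
    rw [sum_product, mul_sum]
    refine sum_congr rfl fun η _ => ?_
    dsimp only
    rw [sum_const, card_univ, Fintype.card_fin, nsmul_eq_mul]
  have e2 : ((m : ℝ) - A.card) * ∑ η ∈ J n m A, f η =
      ∑ x ∈ (J n m A ×ˢ (univ : Finset (Fin m))).filter (fun x => x.2 ∉ A.image x.1), f x.1 := by
    rw [sum_filter, sum_product, mul_sum]
    refine sum_congr rfl fun η hη => ?_
    dsimp only
    rw [← sum_filter, sum_const, nsmul_eq_mul]
    congr 1
    have h1 : (A.image η).card = A.card := card_image_of_injOn fun i hi j hj hij =>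
      mem_J.1 hη i hi j hj hij
    have h2 : (univ.filter fun v : Fin m => v ∉ A.image η) = (A.image η)ᶜ := by
      ext v
      simp
    rw [h2, card_compl, Fintype.card_fin, h1, Nat.cast_sub]
    rw [← h1]
    have := card_le_univ (A.image η)
    rwa [Fintype.card_fin] at this
  rw [e1, e2]
  refine sum_nbij' (fun x => (Function.update x.1 a x.2, x.1 a))
    (fun x => (Function.update x.1 a x.2, x.1 a)) ?_ ?_ ?_ ?_ ?_
  · rintro ⟨η, v⟩ hx
    simp only [mem_product, mem_univ, and_true, mem_filter] at hx ⊢
    have h0 := mem_J.1 hx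
    refine ⟨mem_J.2 (upd_mem ha v fun i hi j hj => h0 i (mem_insert_of_mem hi) j
      (mem_insert_of_mem hj)), ?_⟩
    intro h
    rw [mem_image] at h
    obtain ⟨i, hi, hi2⟩ := h
    have h1 : i ≠ a := fun h => ha (h ▸ hi)
    rw [Function.update_of_ne h1] at hi2
    exact h1 (h0 i (mem_insert_of_mem hi) a (mem_insert_self a A) hi2)
  · rintro ⟨η, v⟩ hx
    simp only [mem_product, mem_univ, and_true, mem_filter] at hx ⊢
    obtain ⟨h0, h1⟩ := hx
    rw [mem_J] at h0 ⊢
    have h2 : ∀ i ∈ A, η i ≠ v := fun i hi h => h1 (mem_image.2 ⟨i, hi, h⟩)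
    intro i hi j hj hij
    by_cases hia : i = a
    · by_cases hja : j = a
      · rw [hia, hja]
      · have hj' : j ∈ A := (mem_insert.1 hj).resolve_left hja
        rw [hia, Function.update_self, Function.update_of_ne hja] at hij
        exact absurd hij.symm (h2 j hj')
    · have hi' : i ∈ A := (mem_insert.1 hi).resolve_left hia
      by_cases hja : j = a
      · rw [hja, Function.update_self, Function.update_of_ne hia] at hij
        exact absurd hij (h2 i hi')
      · exact upd_mem ha v h0 i hi' j ((mem_insert.1 hj).resolve_left hja) hij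
  · rintro ⟨η, v⟩ _
    simp
  · rintro ⟨η, v⟩ _
    simp
  · rintro ⟨η, v⟩ _
    exact (hf η v).symm

end R4x

open R4x in
/-- R4 -/
theorem r4 : R4 := by
  intro n m A A' hAA' hA' hm
  have hm0 : (0 : ℝ) < m := by exact_mod_cast hm
  -- positivity
  have hpos : ∀ B : Finset (Fin n), B.card ≤ m → 0 < (J n m B).card := by
    intro B
    induction B using Finset.induction_on with
    | empty =>
      intro _
      rw [card_pos]
      exact ⟨fun _ => ⟨0, hm⟩, mem_J.2 fun i hi => absurd hi (notMem_empty i)⟩
    | insert a B ha ih =>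
      intro hc
      rw [card_insert_of_notMem ha] at hc
      have h1 := ih (by omega)
      have h2 := step (m := m) ha (fun _ => 1) fun _ _ => rfl
      simp only [sum_const, nsmul_eq_mul, mul_one] at h2
      have h3 : (0 : ℝ) < (m : ℝ) - B.card := by
        have : (B.card : ℝ) < m := by exact_mod_cast (by omega : B.card < m)
        linarith
      have h4 : (0 : ℝ) < ((J n m B).card : ℝ) := by exact_mod_cast h1
      have h5 : 0 < (m : ℝ) * ((J n m (insert a B)).card : ℝ) := by
        rw [h2]; positivity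
      have h6 : 0 < ((J n m (insert a B)).card : ℝ) := (mul_pos_iff_of_pos_left hm0).1 h5
      exact_mod_cast h6
  refine ⟨hpos A' hA', fun f hf => ?_⟩
  have key : ∀ C : Finset (Fin n), Disjoint A C → (A ∪ C).card ≤ m →
      avgJ (A ∪ C) f = avgJ A f := by
    intro C
    induction C using Finset.induction_on with
    | empty => intro _ _; rw [union_empty]
    | insert a C ha ih =>
      intro hd hc
      have hd' : Disjoint A C := hd.mono_right (subset_insert a C)
      have haA : a ∉ A := fun h => disjoint_left.1 hd h (mem_insert_self a C)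
      have haU : a ∉ A ∪ C := by
        rw [mem_union]
        tauto
      rw [union_insert] at hc ⊢
      rw [card_insert_of_notMem haU] at hc
      rw [← ih hd' (by omega)]
      have h1 := step (m := m) haU (fun _ => 1) fun _ _ => rfl
      have h2 := step (m := m) haU f fun η v => hf _ _ fun i hi => by
        have : i ≠ a := fun h => haA (h ▸ hi)
        rw [Function.update_of_ne this]
      simp only [sum_const, nsmul_eq_mul, mul_one] at h1
      have p1 : (0 : ℝ) < ((J n m (A ∪ C)).card : ℝ) := by exact_mod_cast hpos _ (by omega)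
      have p2 : (0 : ℝ) < ((J n m (insert a (A ∪ C))).card : ℝ) := by
        exact_mod_cast hpos _ (by rw [card_insert_of_notMem haU]; exact hc)
      unfold avgJ
      rw [div_eq_div_iff p2.ne' p1.ne']
      have h3 : (m : ℝ) * ((∑ η ∈ J n m (insert a (A ∪ C)), f η) * ((J n m (A ∪ C)).card : ℝ)) =
          m * ((∑ η ∈ J n m (A ∪ C), f η) * ((J n m (insert a (A ∪ C))).card : ℝ)) := by
        calc (m : ℝ) * ((∑ η ∈ J n m (insert a (A ∪ C)), f η) * ((J n m (A ∪ C)).card : ℝ))
            = (m * ∑ η ∈ J n m (insert a (A ∪ C)), f η) * ((J n m (A ∪ C)).card : ℝ) := by ring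
          _ = (((m : ℝ) - (A ∪ C).card) * ∑ η ∈ J n m (A ∪ C), f η) *
              ((J n m (A ∪ C)).card : ℝ) := by rw [h2]
          _ = (∑ η ∈ J n m (A ∪ C), f η) * (((m : ℝ) - (A ∪ C).card) *
              ((J n m (A ∪ C)).card : ℝ)) := by ring
          _ = (∑ η ∈ J n m (A ∪ C), f η) * (m * ((J n m (insert a (A ∪ C))).card : ℝ)) := by
              rw [h1]
          _ = _ := by ring
      exact mul_left_cancel₀ hm0.ne' h3
  have h1 := key (A' \ A) disjoint_sdiff (by rw [union_sdiff_of_subset hAA']; exact hA')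
  rwa [union_sdiff_of_subset hAA'] at h1

end Pool.Agent.SL
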