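import Pool.Agent.Lib.SL.Defs

/-!
# Row R5: value of the pseudo-measure on a good piece
-/

namespace Pool.Agent.SL

open Finset

namespace R5x

variable {n m : ℕ} {α : Type} [Fintype α] [DecidableEq α]

lemma avgJ_sum {ι : Type} (A : Finset (Fin n)) (s : Finset ι) (f : ι → (Fin n → Fin m) → ℝ) :
    avgJ A (fun η => ∑ i ∈ s, f i η) = ∑ i ∈ s, avgJ A (f i) := by
  unfold avgJ
  rw [sum_comm, sum_div]

lemma avgJ_mul (A : Finset (Fin n)) (c : ℝ) (f : (Fin n → Fin m) → ℝ) :
    avgJ A (fun η => f η * c) = avgJ A f * c := by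
  unfold avgJ
  rw [← sum_mul]
  ring

lemma avgJ_abs (A : Finset (Fin n)) (f h : (Fin n → Fin m) → ℝ) (hf : ∀ η, |f η| ≤ h η) :
    |avgJ A f| ≤ avgJ A h := by
  unfold avgJ
  rw [abs_div, Nat.abs_cast]
  refine div_le_div_of_nonneg_right ?_ (Nat.cast_nonneg _)
  exact (abs_sum_le_sum_abs _ _).trans (sum_le_sum fun η _ => hf η)

lemma avgJ_const_le (A : Finset (Fin n)) (c : ℝ) (hc : 0 ≤ c) :
    avgJ A (fun _ : Fin n → Fin m => c) ≤ c := by
  unfold avgJ
  rw [sum_const, nsmul_eq_mul]
  rcases Nat.eq_zero_or_pos (J n m A).card with h | h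
  · rw [h]; simp [hc]
  · have : (0 : ℝ) < ((J n m A).card : ℝ) := by exact_mod_cast h
    rw [mul_comm, mul_div_assoc, div_self this.ne', mul_one]

/-- the product without `-1` -/
noncomputable def Pr (g : Fin n → α → Fin m) (T : Finset (Fin n)) (a : Fin n → α)
    (η : Fin n → Fin m) : ℝ :=
  ∏ i ∈ T, ((m : ℝ) * (if g i (a i) = η i then 1 else 0))

lemma Pr_nonneg (g : Fin n → α → Fin m) (T : Finset (Fin n)) (a : Fin n → α)
    (η : Fin n → Fin m) : 0 ≤ Pr g T a η :=
  prod_nonneg fun i _ => by split_ifs <;> simp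

lemma zval_nonneg (g : Fin n → α → Fin m) (T : Finset (Fin n)) (a : Fin n → α) :
    0 ≤ zval g T a :=
  div_nonneg (sum_nonneg fun η _ => Pr_nonneg g T a η) (Nat.cast_nonneg _)

lemma sum_Qf (g : Fin n → α → Fin m) (T : Finset (Fin n)) (a : Fin n → α) (η : Fin n → Fin m) :
    ∑ A ∈ T.powerset, Qf g η A a = Pr g T a η := by
  unfold Qf Pr
  have h := prod_one_add (f := fun i => (m : ℝ) * (if g i (a i) = η i then 1 else 0) - 1) T
  rw [← h]
  refine prod_congr rfl fun i _ => ?_
  ring

lemma abs_Qf (hm : 1 ≤ m) (g : Fin n → α → Fin m) (A : Finset (Fin n)) (a : Fin n → α)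
    (η : Fin n → Fin m) : |Qf g η A a| ≤ (m : ℝ) ^ A.card := by
  have hm' : (1 : ℝ) ≤ m := by exact_mod_cast hm
  unfold Qf
  rw [abs_prod, ← prod_const]
  refine prod_le_prod (fun i _ => abs_nonneg _) fun i _ => ?_
  split_ifs
  · rw [mul_one, abs_of_nonneg (by linarith)]
    linarith
  · rw [mul_zero, zero_sub, abs_neg, abs_one]
    exact hm'

lemma Qf_union (g : Fin n → α → Fin m) {A B : Finset (Fin n)} (hd : Disjoint A B)
    {x a : Fin n → α} (hx : ∀ i ∈ A, x i = a i) (η : Fin n → Fin m) :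
    Qf g η (A ∪ B) x = Qf g η A a * Qf g η B x := by
  unfold Qf
  rw [prod_union hd]
  congr 1
  refine prod_congr rfl fun i hi => ?_
  rw [hx i hi]

/-- sets with many elements -/
lemma tail_sum (hn : 1 ≤ n) (s k : ℕ) (hs : 1 ≤ s) (F : Finset (Finset (Fin n)))
    (hF : ∀ B ∈ F, k ≤ B.card) :
    ∑ B ∈ F, ((1 / (n : ℝ) ^ s) ^ B.card) ≤ 3 * (1 / (n : ℝ) ^ (s - 1)) ^ k := by
  have hn' : (1 : ℝ) ≤ n := by exact_mod_cast hn
  have hn0 : (0 : ℝ) < n := by linarith
  set w : ℝ := 1 / (n : ℝ) ^ (s - 1) with hw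
  have hw0 : 0 ≤ w := by positivity
  have hw1 : w ≤ 1 := by
    rw [hw, div_le_one (by positivity)]
    exact one_le_pow₀ hn'
  have hy : 1 / (n : ℝ) ^ s = (1 / n) * w := by
    rw [hw, div_mul_div_comm, one_mul, ← pow_succ', Nat.sub_add_cancel hs]
  have h1 : ∀ B ∈ F, (1 / (n : ℝ) ^ s) ^ B.card ≤ (1 / (n : ℝ)) ^ B.card * w ^ k := by
    intro B hB
    rw [hy, mul_pow]
    exact mul_le_mul_of_nonneg_left (pow_le_pow_of_le_one hw0 hw1 (hF B hB)) (by positivity)
  refine (sum_le_sum h1).trans ?_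
  rw [← sum_mul]
  refine mul_le_mul_of_nonneg_right ?_ (by positivity)
  have h2 : ∑ B ∈ F, (1 / (n : ℝ)) ^ B.card ≤
      ∑ B ∈ (univ : Finset (Fin n)).powerset, (1 / (n : ℝ)) ^ B.card :=
    sum_le_sum_of_subset_of_nonneg (fun B _ => mem_powerset.2 (subset_univ B))
      fun _ _ _ => by positivity
  refine h2.trans ?_
  have h3 := sum_pow_mul_eq_add_pow (1 / (n : ℝ)) 1 (univ : Finset (Fin n))
  simp only [one_pow, mul_one, card_univ, Fintype.card_fin] at h3
  rw [h3]
  have h4 : 1 / (n : ℝ) + 1 ≤ Real.exp (1 / n) := Real.add_one_le_exp _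
  have h5 : (1 / (n : ℝ) + 1) ^ n ≤ Real.exp (1 / n) ^ n :=
    pow_le_pow_left₀ (by positivity) h4 n
  rw [← Real.exp_nat_mul, mul_one_div, div_self hn0.ne'] at h5
  have h6 : Real.exp 1 < 2.7182818286 := Real.exp_one_lt_d9
  linarith

end R5x

open R5x in
/-- R5 -/
theorem r5 (h4 : R4) : R5 := by
  classical
  intro n m t α _ _ _ hn hnm htm s hs g T a p hT hp hG
  have hm : 1 ≤ m := by omega
  have hn1 : 1 ≤ n := by omega
  have hn' : (8 : ℝ) ≤ n := by exact_mod_cast hn
  have hn0 : (0 : ℝ) < n := by linarith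
  set y : ℝ := 1 / (n : ℝ) ^ s with hy
  have hy0 : 0 < y := by positivity
  set z := zval g T a with hz
  have hz0 : 0 ≤ z := zval_nonneg g T a
  set c : ℝ := (p.card : ℝ) with hc
  have hc0 : 0 ≤ c := Nat.cast_nonneg _
  set X : Finset (Fin n) → (Fin n → Fin m) → ℝ := fun B η => ∑ x ∈ p, Qf g η B x with hX
  have hXb : ∀ B, Disjoint B T → ∀ η, |X B η| ≤ c * y ^ B.card := fun B hB η => hG B hB η
  set G : Finset (Fin n) → Finset (Fin n) → ℝ := fun A B =>
    avgJ (A ∪ B) (fun η => Qf g η A a * X B η) with hGd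
  set S : Finset (Fin n) → ℝ := fun B =>
    ∑ A ∈ T.powerset, if A.card + B.card ≤ 2 * t then G A B else 0 with hS
  have hfib : ∀ x ∈ p, ∀ i ∈ T, x i = a i := by
    intro x hx
    have := hp hx
    unfold Fib at this
    exact (mem_filter.1 this).2
  -- the decomposition
  have hdec : ∑ x ∈ p, Ker (2 * t) g x = ∑ B ∈ (Tᶜ).powerset, S B := by
    unfold Ker
    rw [sum_comm]
    have e1 : ∀ A : Finset (Fin n), ∑ x ∈ p, avgJ A (fun η => Qf g η A x) =
        G (A ∩ T) (A \ T) := by
      intro A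
      rw [hGd]
      dsimp only
      have hA : A ∩ T ∪ A \ T = A := by rw [union_comm]; exact sdiff_union_inter A T
      rw [hA, ← avgJ_sum]
      congr 1
      funext η
      rw [hX]
      dsimp only
      rw [mul_sum]
      refine sum_congr rfl fun x hx => ?_
      have hd : Disjoint (A ∩ T) (A \ T) := by
        rw [disjoint_left]
        intro i hi hi2
        exact (mem_sdiff.1 hi2).2 (mem_inter.1 hi).2
      have := Qf_union g hd (x := x) (a := a) (fun i hi => hfib x hx i (mem_inter.1 hi).2) η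
      rw [hA] at this
      exact this
    rw [sum_congr rfl fun A _ => e1 A]
    rw [hS]
    dsimp only
    rw [← sum_product', ← sum_filter]
    refine sum_nbij' (fun A => (A \ T, A ∩ T)) (fun x => x.2 ∪ x.1) ?_ ?_ ?_ ?_ ?_
    · intro A hA
      simp only [mem_filter, mem_univ, true_and] at hA
      simp only [mem_filter, mem_product, mem_powerset]
      refine ⟨⟨fun i hi => ?_, inter_subset_right⟩, ?_⟩
      · rw [mem_compl]; exact (mem_sdiff.1 hi).2
      · have := card_inter_add_card_sdiff A T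
        omega
    · rintro ⟨B, A⟩ hx
      simp only [mem_filter, mem_product, mem_powerset] at hx
      simp only [mem_filter, mem_univ, true_and]
      exact (card_union_le _ _).trans hx.2
    · intro A _
      dsimp only
      rw [union_comm]
      exact sdiff_union_inter A T
    · rintro ⟨B, A⟩ hx
      simp only [mem_filter, mem_product, mem_powerset] at hx
      obtain ⟨⟨hB, hA⟩, -⟩ := hx
      have hBT : ∀ i ∈ B, i ∉ T := fun i hi => mem_compl.1 (hB hi)
      refine Prod.ext ?_ ?_
      · ext i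
        simp only [mem_sdiff, mem_union]
        constructor
        · rintro ⟨h | h, h'⟩
          · exact absurd (hA h) h'
          · exact h
        · exact fun h => ⟨Or.inr h, hBT i h⟩
      · ext i
        simp only [mem_inter, mem_union]
        constructor
        · rintro ⟨h | h, h'⟩
          · exact h
          · exact absurd h' (hBT i h)
        · exact fun h => ⟨Or.inl h, hA h⟩
    · intro A _
      rfl
  -- the terms with few elements
  have hsmall : ∀ B, Disjoint B T → T.card + B.card ≤ 2 * t →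
      S B = avgJ (T ∪ B) (fun η => Pr g T a η * X B η) := by
    intro B hB hcard
    have hTB : (T ∪ B).card ≤ m := by
      have := card_union_le T B
      omega
    rw [hS]
    dsimp only
    have e1 : ∀ A ∈ T.powerset, (if A.card + B.card ≤ 2 * t then G A B else 0) =
        avgJ (T ∪ B) (fun η => Qf g η A a * X B η) := by
      intro A hA
      rw [mem_powerset] at hA
      have h1 := card_le_card hA
      rw [if_pos (by omega)]
      refine ((h4 n m (A ∪ B) (T ∪ B) (union_subset_union_left hA) hTB hm).2 _ ?_).symm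
      intro η η' hη
      congr 1
      · unfold Qf
        refine prod_congr rfl fun i hi => ?_
        rw [hη i (mem_union_left B hi)]
      · rw [hX]
        dsimp only
        unfold Qf
        refine sum_congr rfl fun x _ => prod_congr rfl fun i hi => ?_
        rw [hη i (mem_union_right A hi)]
    rw [sum_congr rfl e1, ← avgJ_sum]
    congr 1
    funext η
    rw [← sum_mul, sum_Qf]
  have hPrT : ∀ B, Disjoint B T → T.card + B.card ≤ 2 * t →
      avgJ (T ∪ B) (fun η => Pr g T a η) = z := by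
    intro B hB hcard
    have hTB : (T ∪ B).card ≤ m := by
      have := card_union_le T B
      omega
    refine (h4 n m T (T ∪ B) subset_union_left hTB hm).2 _ ?_
    intro η η' hη
    unfold Pr
    refine prod_congr rfl fun i hi => ?_
    rw [hη i hi]
  have hS0 : S ∅ = c * z := by
    rw [hsmall ∅ (disjoint_empty_left T) (by rw [card_empty]; omega)]
    have e1 : ∀ η, X ∅ η = c := by
      intro η
      rw [hX]
      dsimp only
      unfold Qf
      rw [sum_congr rfl fun x _ => prod_empty, sum_const, nsmul_eq_mul, mul_one]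
    have e2 : (fun η => Pr g T a η * X ∅ η) = fun η => Pr g T a η * c := by
      funext η
      rw [e1]
    rw [e2, avgJ_mul, hPrT ∅ (disjoint_empty_left T) (by rw [card_empty]; omega)]
    ring
  have hSb1 : ∀ B, Disjoint B T → T.card + B.card ≤ 2 * t → |S B| ≤ c * z * y ^ B.card := by
    intro B hB hcard
    rw [hsmall B hB hcard]
    refine (avgJ_abs _ _ (fun η => Pr g T a η * (c * y ^ B.card)) fun η => ?_).trans ?_
    · rw [abs_mul, abs_of_nonneg (Pr_nonneg g T a η)]
      exact mul_le_mul_of_nonneg_left (hXb B hB η) (Pr_nonneg g T a η)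
    · rw [avgJ_mul, hPrT B hB hcard]
      exact le_of_eq (by ring)
  have hSb2 : ∀ B, Disjoint B T → |S B| ≤ c * (n : ℝ) ^ t * y ^ B.card := by
    intro B hB
    rw [hS]
    dsimp only
    refine (abs_sum_le_sum_abs _ _).trans ?_
    have e1 : ∀ A ∈ T.powerset, |if A.card + B.card ≤ 2 * t then G A B else 0| ≤
        (m : ℝ) ^ A.card * (c * y ^ B.card) := by
      intro A _
      have h0 : 0 ≤ (m : ℝ) ^ A.card * (c * y ^ B.card) := by positivity
      split_ifs
      · rw [hGd]
        dsimp only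
        refine (avgJ_abs _ _ (fun _ => (m : ℝ) ^ A.card * (c * y ^ B.card)) fun η => ?_).trans
          (avgJ_const_le _ _ h0)
        rw [abs_mul]
        exact mul_le_mul (abs_Qf hm g A a η) (hXb B hB η) (abs_nonneg _) (by positivity)
      · rw [abs_zero]; exact h0
    refine (sum_le_sum e1).trans ?_
    rw [← sum_mul]
    have e2 := sum_pow_mul_eq_add_pow (m : ℝ) 1 T
    simp only [one_pow, mul_one] at e2
    rw [e2]
    have e3 : (m : ℝ) + 1 = n := by rw [hnm]; push_cast; ring
    rw [e3]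
    have e4 : (n : ℝ) ^ T.card ≤ (n : ℝ) ^ t := pow_le_pow_right₀ (by linarith) hT
    calc (n : ℝ) ^ T.card * (c * y ^ B.card) ≤ (n : ℝ) ^ t * (c * y ^ B.card) :=
          mul_le_mul_of_nonneg_right e4 (by positivity)
      _ = _ := by ring
  -- the sum
  have hmem : (∅ : Finset (Fin n)) ∈ (Tᶜ).powerset := empty_mem_powerset _
  have hsplit : ∑ B ∈ (Tᶜ).powerset, S B = c * z + ∑ B ∈ (Tᶜ).powerset.erase ∅, S B := by
    rw [← add_sum_erase _ _ hmem, hS0]
  rw [hdec, hsplit, add_sub_cancel_left]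
  refine (abs_sum_le_sum_abs _ _).trans ?_
  have hb : ∀ B ∈ (Tᶜ).powerset.erase ∅, |S B| ≤ c * z * y ^ B.card +
      (if t + 1 ≤ B.card then c * (n : ℝ) ^ t * y ^ B.card else 0) := by
    intro B hB
    have hBT : Disjoint B T := by
      rw [disjoint_left]
      exact fun i hi => mem_compl.1 (mem_powerset.1 (mem_of_mem_erase hB) hi)
    by_cases h : T.card + B.card ≤ 2 * t
    · have h1 := hSb1 B hBT h
      have h2 : 0 ≤ (if t + 1 ≤ B.card then c * (n : ℝ) ^ t * y ^ B.card else 0) := by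
        split_ifs
        · positivity
        · exact le_rfl
      linarith
    · rw [if_pos (by omega)]
      have h1 := hSb2 B hBT
      have h2 : 0 ≤ c * z * y ^ B.card := by positivity
      linarith
  refine (sum_le_sum hb).trans ?_
  rw [sum_add_distrib, ← mul_sum, ← sum_filter, ← mul_sum]
  have t1 := tail_sum hn1 s 1 (by omega) ((Tᶜ).powerset.erase ∅) fun B hB => by
    rw [Nat.one_le_iff_ne_zero, Ne, card_eq_zero]
    exact ne_of_mem_erase hB
  have t2 := tail_sum hn1 s (t + 1) (by omega)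
    (((Tᶜ).powerset.erase ∅).filter fun B => t + 1 ≤ B.card) fun B hB => (mem_filter.1 hB).2
  rw [← hy] at t1 t2
  set w : ℝ := 1 / (n : ℝ) ^ (s - 1) with hw
  have hw0 : 0 ≤ w := by positivity
  have hw1 : 3 * w ≤ 1 / 2 := by
    have h1 : (n : ℝ) ^ 1 ≤ (n : ℝ) ^ (s - 1) := pow_le_pow_right₀ (by linarith) (by omega)
    rw [pow_one] at h1
    rw [hw, mul_one_div, div_le_div_iff₀ (by positivity) (by norm_num)]
    linarith
  have hwn : (n : ℝ) ^ t * w ^ t = 1 / (n : ℝ) ^ ((s - 2) * t) := by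
    rw [← mul_pow, pow_mul, ← one_div_pow]
    congr 1
    rw [hw, mul_one_div, div_eq_div_iff (by positivity) (by positivity), one_mul, ← pow_succ']
    congr 1
    omega
  have b1 : c * z * ∑ B ∈ (Tᶜ).powerset.erase ∅, y ^ B.card ≤ c * (z / 2) := by
    rw [pow_one] at t1
    calc c * z * ∑ B ∈ (Tᶜ).powerset.erase ∅, y ^ B.card ≤ c * z * (1 / 2) :=
          mul_le_mul_of_nonneg_left (t1.trans hw1) (by positivity)
      _ = _ := by ring
  have b2 : c * (n : ℝ) ^ t * ∑ B ∈ ((Tᶜ).powerset.erase ∅).filter (fun B => t + 1 ≤ B.card),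
      y ^ B.card ≤ c * (3 / (n : ℝ) ^ ((s - 2) * t)) := by
    have h1 : w ^ (t + 1) ≤ w ^ t := pow_le_pow_of_le_one hw0 (by linarith) (Nat.le_succ t)
    calc c * (n : ℝ) ^ t * ∑ B ∈ ((Tᶜ).powerset.erase ∅).filter (fun B => t + 1 ≤ B.card),
        y ^ B.card ≤ c * (n : ℝ) ^ t * (3 * w ^ (t + 1)) :=
          mul_le_mul_of_nonneg_left t2 (by positivity)
      _ ≤ c * (n : ℝ) ^ t * (3 * w ^ t) := by gcongr
      _ = c * (3 * ((n : ℝ) ^ t * w ^ t)) := by ring
      _ = _ := by rw [hwn]; ring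
  linarith

end Pool.Agent.SL
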