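import Pool.Agent.Lib.SL.Defs

/-!
# Short lines: rows R5b and R5c
-/

set_option autoImplicit false

namespace Pool.Agent.SL

open Finset

namespace R5bcx

theorem abs_Qf_le {n m : ℕ} {α : Type} (hm : 1 ≤ m) (g : Fin n → α → Fin m) (η : Fin n → Fin m)
    (A : Finset (Fin n)) (x : Fin n → α) : |Qf g η A x| ≤ (m : ℝ) ^ A.card := by
  unfold Qf
  rw [Finset.abs_prod]
  have hm' : (1 : ℝ) ≤ m := by exact_mod_cast hm
  calc ∏ i ∈ A, |(m : ℝ) * (if g i (x i) = η i then 1 else 0) - 1| ≤ ∏ _i ∈ A, (m : ℝ) := by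
        refine Finset.prod_le_prod (fun i _ => abs_nonneg _) fun i _ => ?_
        split_ifs
        · rw [mul_one, abs_of_nonneg (by linarith)]
          linarith
        · rw [mul_zero, zero_sub, abs_neg, abs_one]
          exact hm'
    _ = (m : ℝ) ^ A.card := by rw [Finset.prod_const]

theorem abs_avgJ_le {n m : ℕ} (A : Finset (Fin n)) (f : (Fin n → Fin m) → ℝ) (B : ℝ)
    (hB : 0 ≤ B) (h : ∀ η, |f η| ≤ B) : |avgJ A f| ≤ B := by
  unfold avgJ
  by_cases h0 : (J n m A).card = 0
  · rw [h0]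
    simpa using hB
  · have h1 : (0 : ℝ) < ((J n m A).card : ℝ) := by exact_mod_cast Nat.pos_of_ne_zero h0
    rw [abs_div, abs_of_pos h1, div_le_iff₀ h1]
    refine (Finset.abs_sum_le_sum_abs _ _).trans ?_
    calc ∑ η ∈ J n m A, |f η| ≤ ∑ _η ∈ J n m A, B := Finset.sum_le_sum fun η _ => h η
      _ = B * (J n m A).card := by rw [Finset.sum_const, nsmul_eq_mul, mul_comm]

theorem geom {y : ℝ} (hy : 2 ≤ y) (d : ℕ) : ∑ s ∈ range (d + 1), y ^ s ≤ 2 * y ^ d := by
  induction d with
  | zero => simp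
  | succ d ih =>
    rw [Finset.sum_range_succ]
    have h0 : 0 ≤ y ^ d := by positivity
    have h1 : 2 * y ^ d ≤ y ^ (d + 1) := by
      rw [pow_succ, mul_comm]
      exact mul_le_mul_of_nonneg_left hy h0
    linarith

end R5bcx

open R5bcx

theorem r5b : R5b := by
  intro n m d α _ _ hn hnm g x
  have hm : 1 ≤ m := by omega
  have hm' : (1 : ℝ) ≤ m := by exact_mod_cast hm
  have hn2 : (2 : ℝ) ≤ n := by exact_mod_cast hn
  have hmn : (m : ℝ) ≤ n := by exact_mod_cast (by omega : m ≤ n)
  unfold Ker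
  refine (Finset.abs_sum_le_sum_abs _ _).trans ?_
  set F : Finset (Finset (Fin n)) := univ.filter (fun A => A.card ≤ d) with hF
  have h1 : ∑ A ∈ F, |avgJ A (fun η => Qf g η A x)| ≤ ∑ A ∈ F, (m : ℝ) ^ A.card :=
    Finset.sum_le_sum fun A _ => abs_avgJ_le A _ _ (by positivity) fun η => abs_Qf_le hm g η A x
  have h2 : ∑ A ∈ F, (m : ℝ) ^ A.card =
      ∑ s ∈ range (d + 1), ∑ A ∈ F with A.card = s, (m : ℝ) ^ A.card := by
    symm
    refine Finset.sum_fiberwise_of_maps_to (fun A hA => ?_) _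
    rw [hF, Finset.mem_filter] at hA
    exact Finset.mem_range.2 (by omega)
  have h3 : ∀ s ∈ range (d + 1), ∑ A ∈ F with A.card = s, (m : ℝ) ^ A.card ≤
      ((n : ℝ) * m) ^ s := by
    intro s _
    have e1 : ∑ A ∈ F with A.card = s, (m : ℝ) ^ A.card =
        ((F.filter fun A => A.card = s).card : ℝ) * (m : ℝ) ^ s := by
      rw [← nsmul_eq_mul, ← Finset.sum_const]
      refine Finset.sum_congr rfl fun A hA => ?_
      rw [(Finset.mem_filter.1 hA).2]
    have e2 : (F.filter fun A => A.card = s).card ≤ n ^ s := by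
      calc (F.filter fun A => A.card = s).card ≤ (powersetCard s (univ : Finset (Fin n))).card := by
            refine Finset.card_le_card fun A hA => ?_
            rw [Finset.mem_powersetCard]
            exact ⟨Finset.subset_univ _, (Finset.mem_filter.1 hA).2⟩
        _ = n.choose s := by rw [Finset.card_powersetCard, Finset.card_univ, Fintype.card_fin]
        _ ≤ n ^ s := Nat.choose_le_pow n s
    rw [e1, mul_pow]
    apply mul_le_mul_of_nonneg_right _ (by positivity)
    exact_mod_cast e2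
  have hy : (2 : ℝ) ≤ (n : ℝ) * m := by nlinarith
  calc _ ≤ ∑ A ∈ F, (m : ℝ) ^ A.card := h1
    _ ≤ ∑ s ∈ range (d + 1), ((n : ℝ) * m) ^ s := by
        rw [h2]
        exact Finset.sum_le_sum h3
    _ ≤ 2 * ((n : ℝ) * m) ^ d := geom hy d
    _ ≤ 3 * (n : ℝ) ^ (2 * d) := by
        have e1 : ((n : ℝ) * m) ^ d ≤ (n : ℝ) ^ (2 * d) := by
          rw [pow_mul]
          apply pow_le_pow_left₀ (by positivity)
          nlinarith
        have e2 : 0 ≤ ((n : ℝ) * m) ^ d := by positivity
        linarith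

theorem r5c : R5c := by
  intro n m α _ _ hm g T a
  refine ⟨?_, ?_, ?_⟩
  · unfold zval avgJ
    refine div_nonneg (Finset.sum_nonneg fun η _ => Finset.prod_nonneg fun i _ => ?_)
      (Nat.cast_nonneg _)
    split_ifs <;> simp
  · unfold zval avgJ
    simp only [Finset.prod_empty, Finset.sum_const, nsmul_eq_mul, mul_one]
    apply div_self
    have hne : (J n m (∅ : Finset (Fin n))).Nonempty :=
      ⟨fun _ => ⟨0, hm⟩, by
        unfold J
        rw [Finset.mem_filter]
        exact ⟨Finset.mem_univ _, fun i hi => absurd hi (Finset.notMem_empty i)⟩⟩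
    exact_mod_cast (Finset.card_pos.2 hne).ne'
  · intro i hi j hj hij hg
    unfold zval avgJ
    have h : ∀ η ∈ J n m T, ∏ i ∈ T, ((m : ℝ) * (if g i (a i) = η i then 1 else 0)) = 0 := by
      intro η hη
      unfold J at hη
      rw [Finset.mem_filter] at hη
      by_cases h1 : g i (a i) = η i
      · have h2 : ¬ g j (a j) = η j := by
          intro h2
          exact hij (hη.2 i hi j hj (by rw [← h1, ← h2, hg]))
        exact Finset.prod_eq_zero hj (by rw [if_neg h2, mul_zero])
      · exact Finset.prod_eq_zero hi (by rw [if_neg h1, mul_zero])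
    rw [Finset.sum_eq_zero h, zero_div]

end Pool.Agent.SL
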