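import Pool.Agent.Lib.SL.Defs

/-!
# SL, row R7: the number of functions with small circuits
-/

set_option autoImplicit false

namespace Pool.Agent.SL

open Finset

namespace R7x

variable {ν : Type} {s : ℕ}

/-- the function of a wire -/
def Wv (v : Fin s → (ν → Bool) → Bool) : ν ⊕ Fin s → (ν → Bool) → Bool
  | Sum.inl u => fun x => x u
  | Sum.inr j => v j

/-- codes of circuits -/
abbrev Code (ν : Type) (s : ℕ) : Type := Fin s → (ν ⊕ Fin s) × (ν ⊕ Fin s)

/-- the gates `v` follow the code `c` -/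
def Realizes (c : Code ν s) (v : Fin s → (ν → Bool) → Bool) : Prop :=
  ∀ i, (∀ j, (c i).1 = Sum.inr j → j < i) ∧ (∀ j, (c i).2 = Sum.inr j → j < i) ∧
    ∀ x, v i x = !(Wv v (c i).1 x && Wv v (c i).2 x)

theorem Wv_congr {v v' : Fin s → (ν → Bool) → Bool} {i : Fin s} (h : ∀ j < i, v j = v' j)
    (a : ν ⊕ Fin s) (ha : ∀ j, a = Sum.inr j → j < i) : Wv v a = Wv v' a := by
  cases a with
  | inl u => rfl
  | inr j => exact h j (ha j rfl)

theorem unique {c : Code ν s} {v v' : Fin s → (ν → Bool) → Bool} (h : Realizes c v)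
    (h' : Realizes c v') : v = v' := by
  have key : ∀ n : ℕ, ∀ i : Fin s, (i : ℕ) = n → v i = v' i := by
    intro n
    induction n using Nat.strong_induction_on with
    | _ n ih =>
      intro i hi
      have hj : ∀ j < i, v j = v' j := fun j hj => ih j (by rw [← hi]; exact hj) j rfl
      funext x
      obtain ⟨h1, h2, h3⟩ := h i
      obtain ⟨-, -, h3'⟩ := h' i
      rw [h3 x, h3' x, Wv_congr hj _ h1, Wv_congr hj _ h2]
  funext i
  exact key i i rfl

theorem wire_code {v : Fin s → (ν → Bool) → Bool} {i : Fin s} {a : (ν → Bool) → Bool}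
    (h : IsWire v i a) : ∃ w : ν ⊕ Fin s, (∀ j, w = Sum.inr j → j < i) ∧ ∀ x, a x = Wv v w x := by
  rcases h with ⟨u, hu⟩ | ⟨j, hj, rfl⟩
  · exact ⟨Sum.inl u, fun j hj => by simp at hj, hu⟩
  · refine ⟨Sum.inr j, fun k hk => ?_, fun x => rfl⟩
    rw [← Sum.inr_injective hk]
    exact hj

theorem exists_code {v : Fin s → (ν → Bool) → Bool}
    (h : ∀ i, ∃ a b, IsWire v i a ∧ IsWire v i b ∧ ∀ x, v i x = !(a x && b x)) :
    ∃ c : Code ν s, Realizes c v := by
  have h1 : ∀ i, ∃ p : (ν ⊕ Fin s) × (ν ⊕ Fin s), (∀ j, p.1 = Sum.inr j → j < i) ∧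
      (∀ j, p.2 = Sum.inr j → j < i) ∧ ∀ x, v i x = !(Wv v p.1 x && Wv v p.2 x) := by
    intro i
    obtain ⟨a, b, ha, hb, hab⟩ := h i
    obtain ⟨w, hw, hw'⟩ := wire_code ha
    obtain ⟨z, hz, hz'⟩ := wire_code hb
    refine ⟨(w, z), hw, hz, fun x => ?_⟩
    rw [hab x, hw' x, hz' x]
  choose c hc using h1
  exact ⟨c, hc⟩

end R7x

open R7x in
/-- R7 -/
theorem r7 : R7 := by
  classical
  intro ν _ _ s
  have h1 : ∀ f : {f : (ν → Bool) → Bool // HasCircuit s f}, ∃ p : Code ν s × Fin s,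
      ∃ v : Fin s → (ν → Bool) → Bool, Realizes p.1 v ∧ f.1 = v p.2 := by
    rintro ⟨f, v, hv, i, hi⟩
    obtain ⟨c, hc⟩ := exists_code hv
    exact ⟨(c, i), v, hc, hi⟩
  choose F hF using h1
  have hinj : Function.Injective F := by
    intro f g hfg
    obtain ⟨v, hv, hf⟩ := hF f
    obtain ⟨v', hv', hg⟩ := hF g
    rw [hfg] at hv hf
    rw [unique hv hv'] at hf
    exact Subtype.ext (hf.trans hg.symm)
  have h2 := Fintype.card_le_of_injective F hinj
  have h3 : Fintype.card (Code ν s × Fin s) = s * ((Fintype.card ν + s) ^ 2) ^ s := by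
    rw [Fintype.card_prod, Fintype.card_fun, Fintype.card_prod, Fintype.card_sum, Fintype.card_fin,
      sq, mul_comm]
  rw [h3, Fintype.card_subtype] at h2
  convert h2

end Pool.Agent.SL
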