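import Pool.Agent.Lib.SL.Defs

/-! Row R1: partition of a set into spread pieces. -/

namespace Pool.Agent.SL

open Finset

namespace R1x

variable {n : ℕ} {α : Type} [Fintype α] [DecidableEq α]

lemma mem_Fib {T : Finset (Fin n)} {a x : Fin n → α} : x ∈ Fib T a ↔ ∀ i ∈ T, x i = a i := by
  simp [Fib]

lemma card_Fib (T : Finset (Fin n)) (a : Fin n → α) :
    (Fib T a).card * Fintype.card α ^ T.card = Fintype.card (Fin n → α) := by
  classical
  have h1 : Fib T a = Fintype.piFinset (fun i => if i ∈ T then {a i} else univ) := by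
    ext x
    rw [mem_Fib, Fintype.mem_piFinset]
    constructor
    · intro h i
      by_cases hi : i ∈ T
      · simp [hi, h i hi]
      · simp [hi]
    · intro h i hi
      have := h i
      simpa [hi] using this
  rw [h1, Fintype.card_piFinset]
  have h2 : Fintype.card α ^ T.card = ∏ i : Fin n, if i ∈ T then Fintype.card α else 1 := by
    rw [Finset.prod_ite_mem, univ_inter, prod_const]
  rw [h2, ← prod_mul_distrib, Fintype.card_fun, Fintype.card_fin]
  have h3 : ∀ i : Fin n, ((if i ∈ T then ({a i} : Finset α) else univ).card *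
      (if i ∈ T then Fintype.card α else 1)) = Fintype.card α := by
    intro i
    by_cases hi : i ∈ T <;> simp [hi]
  rw [prod_congr rfl fun i _ => h3 i, prod_const, card_univ, Fintype.card_fin]

lemma spread_empty (r : ℕ) (T : Finset (Fin n)) : Spread (α := α) r T ∅ := by
  intro B _ a
  simp

lemma spread_union {r : ℕ} {T : Finset (Fin n)} {p q : Finset (Fin n → α)} (hp : Spread r T p)
    (hq : Spread r T q) (hd : Disjoint p q) : Spread r T (p ∪ q) := by
  intro B hB a
  rw [filter_union, card_union_of_disjoint hd,
    card_union_of_disjoint (disjoint_filter_filter hd), add_mul]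
  exact add_le_add (hp B hB a) (hq B hB a)

/-- The greedy choice. -/
lemma greedy {r t : ℕ} (hr : 1 ≤ r) (hq : Fintype.card α = r ^ 2) {U : Finset (Fin n → α)}
    (hU : Fintype.card (Fin n → α) < U.card * r ^ t) :
    ∃ (T : Finset (Fin n)) (a : Fin n → α), (U ∩ Fib T a).Nonempty ∧
      Spread r T (U ∩ Fib T a) ∧ T.card ≤ t := by
  classical
  have hU0 : 0 < U.card := by
    rcases Nat.eq_zero_or_pos U.card with h | h
    · rw [h, zero_mul] at hU; exact absurd hU (Nat.not_lt_zero _)
    · exact h
  obtain ⟨u, hu⟩ := card_pos.1 hU0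
  set Cand : Finset (Finset (Fin n) × (Fin n → α)) := univ.filter
    (fun c => U.card ≤ (U ∩ Fib c.1 c.2).card * r ^ c.1.card) with hCand
  have hne : Cand.Nonempty := by
    refine ⟨(∅, u), ?_⟩
    rw [hCand, mem_filter]
    refine ⟨mem_univ _, ?_⟩
    have : Fib (∅ : Finset (Fin n)) u = univ := by
      ext x; simp [mem_Fib]
    simp [this]
  obtain ⟨⟨T, a⟩, hc, hmax⟩ := exists_max_image Cand (fun c => c.1.card) hne
  rw [hCand, mem_filter] at hc
  have hc1 : U.card ≤ (U ∩ Fib T a).card * r ^ T.card := hc.2
  have hrT : 0 < r ^ T.card := Nat.pow_pos hr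
  refine ⟨T, a, ?_, ?_, ?_⟩
  · rw [← card_pos]
    rcases Nat.eq_zero_or_pos (U ∩ Fib T a).card with h | h
    · rw [h, zero_mul] at hc1; omega
    · exact h
  · intro B hB b
    rcases B.eq_empty_or_nonempty with hB0 | hB0
    · subst hB0
      simp
    · set c : Fin n → α := fun i => if i ∈ T then a i else b i with hcd
      have hset : (U ∩ Fib T a).filter (fun x => ∀ i ∈ B, x i = b i) = U ∩ Fib (T ∪ B) c := by
        ext x
        rw [mem_filter, mem_inter, mem_inter, mem_Fib, mem_Fib]
        constructor
        · rintro ⟨⟨h1, h2⟩, h3⟩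
          refine ⟨h1, fun i hi => ?_⟩
          by_cases hiT : i ∈ T
          · rw [h2 i hiT, hcd]; simp [hiT]
          · have hiB : i ∈ B := by
              rcases mem_union.1 hi with h | h
              · exact absurd h hiT
              · exact h
            rw [h3 i hiB, hcd]; simp [hiT]
        · rintro ⟨h1, h2⟩
          refine ⟨⟨h1, fun i hi => ?_⟩, fun i hi => ?_⟩
          · rw [h2 i (mem_union_left _ hi), hcd]; simp [hi]
          · have hiT : i ∉ T := fun h => (disjoint_left.1 hB) hi h
            rw [h2 i (mem_union_right _ hi), hcd]; simp [hiT]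
      rw [hset]
      have hcard : (T ∪ B).card = T.card + B.card := card_union_of_disjoint hB.symm
      have hBpos : 0 < B.card := card_pos.2 hB0
      have hnot : (T ∪ B, c) ∉ Cand := by
        intro h
        have := hmax _ h
        simp only at this
        omega
      rw [hCand, mem_filter] at hnot
      have hlt : (U ∩ Fib (T ∪ B) c).card * r ^ (T ∪ B).card < U.card := by
        by_contra hcon
        exact hnot ⟨mem_univ _, not_lt.1 hcon⟩
      rw [hcard] at hlt
      have h5 : ((U ∩ Fib (T ∪ B) c).card * r ^ B.card) * r ^ T.card ≤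
          (U ∩ Fib T a).card * r ^ T.card := by
        calc ((U ∩ Fib (T ∪ B) c).card * r ^ B.card) * r ^ T.card
            = (U ∩ Fib (T ∪ B) c).card * r ^ (T.card + B.card) := by rw [pow_add]; ring
          _ ≤ U.card := hlt.le
          _ ≤ _ := hc1
      exact Nat.le_of_mul_le_mul_right h5 hrT
  · by_contra hcon
    push Not at hcon
    have h6 : (U ∩ Fib T a).card ≤ (Fib T a).card := card_le_card inter_subset_right
    have h7 : (Fib T a).card * (r ^ 2) ^ T.card = Fintype.card (Fin n → α) := by
      rw [← hq]; exact card_Fib T a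
    have h8 : U.card * r ^ T.card ≤ Fintype.card (Fin n → α) := by
      calc U.card * r ^ T.card ≤ ((U ∩ Fib T a).card * r ^ T.card) * r ^ T.card :=
            Nat.mul_le_mul_right _ hc1
        _ ≤ ((Fib T a).card * r ^ T.card) * r ^ T.card :=
            Nat.mul_le_mul_right _ (Nat.mul_le_mul_right _ h6)
        _ = (Fib T a).card * (r ^ 2) ^ T.card := by ring
        _ = _ := h7
    have h9 : U.card * r ^ t ≤ U.card * r ^ T.card :=
      Nat.mul_le_mul_left _ (Nat.pow_le_pow_right hr hcon.le)
    omega

end R1x

open R1x in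
theorem r1 : R1 := by
  classical
  intro n t r α _ _ hr hq U
  induction hN : U.card using Nat.strong_induction_on generalizing U with
  | _ N ih =>
  by_cases hU : U.card * r ^ t ≤ Fintype.card (Fin n → α)
  · refine ⟨fun _ _ => ∅, U, fun _ _ => empty_subset _, Subset.refl _, fun f => by simp,
      fun T a => spread_empty r T, fun T a h => absurd h (by simp), hU⟩
  · push Not at hU
    obtain ⟨T, a, hne, hsp, hT⟩ := greedy hr hq hU
    set p := U ∩ Fib T a with hp
    have hpU : p ⊆ U := inter_subset_left
    have hlt : (U \ p).card < N := by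
      rw [← hN]
      exact card_lt_card (sdiff_ssubset hpU hne)
    obtain ⟨P', L', h1, h2, h3, h4, h5, h6⟩ := ih _ hlt (U \ p) rfl
    have hdis : Disjoint (P' T a) p := by
      refine disjoint_left.2 fun x hx hxp => ?_
      have := h1 T a hx
      rw [mem_inter, mem_sdiff] at this
      exact this.1.2 hxp
    refine ⟨fun T' a' => if T' = T ∧ a' = a then P' T a ∪ p else P' T' a', L', ?_, ?_, ?_, ?_, ?_,
      h6⟩
    · intro T' a'
      beta_reduce
      by_cases h : T' = T ∧ a' = a
      · rw [if_pos h, h.1, h.2]
        refine union_subset ?_ (Subset.refl _)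
        exact (h1 T a).trans (inter_subset_inter_right sdiff_subset)
      · rw [if_neg h]
        exact (h1 T' a').trans (inter_subset_inter_right sdiff_subset)
    · exact h2.trans sdiff_subset
    · intro f
      have e1 : ∑ x ∈ U, f x = ∑ x ∈ U \ p, f x + ∑ x ∈ p, f x :=
        (sum_sdiff hpU).symm
      rw [e1, h3 f]
      have e2 : ∀ T' : Finset (Fin n), ∀ a' : Fin n → α,
          ∑ x ∈ (if T' = T ∧ a' = a then P' T a ∪ p else P' T' a'), f x =
            ∑ x ∈ P' T' a', f x + if T' = T ∧ a' = a then ∑ x ∈ p, f x else 0 := by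
        intro T' a'
        by_cases h : T' = T ∧ a' = a
        · rw [if_pos h, if_pos h, h.1, h.2, sum_union hdis]
        · rw [if_neg h, if_neg h, add_zero]
      simp_rw [e2, sum_add_distrib]
      have e3 : (∑ T' : Finset (Fin n), ∑ a' : Fin n → α,
          if T' = T ∧ a' = a then ∑ x ∈ p, f x else 0) = ∑ x ∈ p, f x := by
        rw [sum_eq_single T, sum_eq_single a]
        · simp
        · intro b _ hb; simp [hb]
        · intro h; exact absurd (mem_univ _) h
        · intro b _ hb; simp [hb]
        · intro h; exact absurd (mem_univ _) h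
      rw [e3]
      ring
    · intro T' a'
      beta_reduce
      by_cases h : T' = T ∧ a' = a
      · rw [if_pos h, h.1]
        exact spread_union (h4 T a) hsp hdis
      · rw [if_neg h]
        exact h4 T' a'
    · intro T' a' hne'
      beta_reduce at hne'
      by_cases h : T' = T ∧ a' = a
      · rw [h.1]; exact hT
      · rw [if_neg h] at hne'
        exact h5 T' a' hne'

end Pool.Agent.SL
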