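import Pool.Agent.Lib.SL.Model

/-!
# Short lines force long or deep proofs (MP_e81270_lc): definitions and rows

`n` pigeons, pigeon `i` picks `x i ∈ α`, its label is `g i (x i) ∈ Fin m`.
-/

namespace Pool.Agent.SL

open Finset

/-! ## Combinatorial part -/

section comb

variable {n m : ℕ} {α : Type} [Fintype α] [DecidableEq α]

/-- the subcube `x = a` on `T` -/
def Fib (T : Finset (Fin n)) (a : Fin n → α) : Finset (Fin n → α) :=
  univ.filter (fun x => ∀ i ∈ T, x i = a i)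

/-- `p` is spread outside `T` with parameter `r` -/
def Spread (r : ℕ) (T : Finset (Fin n)) (p : Finset (Fin n → α)) : Prop :=
  ∀ B : Finset (Fin n), Disjoint B T → ∀ a : Fin n → α,
    (p.filter (fun x => ∀ i ∈ B, x i = a i)).card * r ^ B.card ≤ p.card

/-- the product `∏_{i∈A} (m [g_i(x_i) = η_i] - 1)` -/
noncomputable def Qf (g : Fin n → α → Fin m) (η : Fin n → Fin m) (A : Finset (Fin n))
    (x : Fin n → α) : ℝ :=
  ∏ i ∈ A, ((m : ℝ) * (if g i (x i) = η i then 1 else 0) - 1)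

/-- the piece `p` is good for `g`: all products outside `T` have small sums over `p` -/
def Good (τ : ℝ) (g : Fin n → α → Fin m) (T : Finset (Fin n)) (p : Finset (Fin n → α)) : Prop :=
  ∀ B : Finset (Fin n), Disjoint B T → ∀ η : Fin n → Fin m,
    |∑ x ∈ p, Qf g η B x| ≤ (p.card : ℝ) * τ ^ B.card

/-- functions `[n] → [m]` injective on `A` -/
def J (n m : ℕ) (A : Finset (Fin n)) : Finset (Fin n → Fin m) :=
  univ.filter (fun η => ∀ i ∈ A, ∀ j ∈ A, η i = η j → i = j)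

/-- average over `J A` -/
noncomputable def avgJ (A : Finset (Fin n)) (f : (Fin n → Fin m) → ℝ) : ℝ :=
  (∑ η ∈ J n m A, f η) / ((J n m A).card : ℝ)

/-- the kernel of the pseudo-measure -/
noncomputable def Ker (d : ℕ) (g : Fin n → α → Fin m) (x : Fin n → α) : ℝ :=
  ∑ A ∈ (univ : Finset (Finset (Fin n))).filter (fun A => A.card ≤ d),
    avgJ A (fun η => Qf g η A x)

/-- the pseudo-measure -/
noncomputable def Mf (d : ℕ) (g : Fin n → α → Fin m) (U : Finset (Fin n → α)) : ℝ :=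
  (∑ x ∈ U, Ker d g x) / (Fintype.card (Fin n → α) : ℝ)

/-- main term of a piece -/
noncomputable def zval (g : Fin n → α → Fin m) (T : Finset (Fin n)) (a : Fin n → α) : ℝ :=
  avgJ T (fun η => ∏ i ∈ T, ((m : ℝ) * (if g i (a i) = η i then 1 else 0)))

end comb

/-- R1: partition into spread pieces -/
def R1 : Prop :=
  ∀ (n t r : ℕ) (α : Type) [Fintype α] [DecidableEq α], 1 ≤ r → Fintype.card α = r ^ 2 →
    ∀ U : Finset (Fin n → α),
      ∃ (P : Finset (Fin n) → (Fin n → α) → Finset (Fin n → α)) (L : Finset (Fin n → α)),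
        (∀ T a, P T a ⊆ U ∩ Fib T a) ∧ L ⊆ U ∧
        (∀ f : (Fin n → α) → ℝ,
          ∑ x ∈ U, f x = (∑ T : Finset (Fin n), ∑ a : Fin n → α, ∑ x ∈ P T a, f x)
            + ∑ x ∈ L, f x) ∧
        (∀ T a, Spread r T (P T a)) ∧
        (∀ T a, (P T a).Nonempty → T.card ≤ t) ∧
        L.card * r ^ t ≤ Fintype.card (Fin n → α)

/-- R2: moments -/
def R2 : Prop :=
  ∀ (n m r k : ℕ) (α : Type) [Fintype α] [DecidableEq α], 1 ≤ m → 1 ≤ r → 1 ≤ k →
    ∀ (T B : Finset (Fin n)) (p : Finset (Fin n → α)) (η : Fin n → Fin m),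
      Spread r T p → Disjoint B T →
      ∑ g : Fin n → α → Fin m, (∑ x ∈ p, Qf g η B x) ^ (2 * k)
        ≤ (Fintype.card (Fin n → α → Fin m) : ℝ) * (p.card : ℝ) ^ (2 * k)
          * (8 * (k : ℝ) * (m : ℝ) ^ 2 / r) ^ (k * B.card)

/-- R3: a good `g` for all pieces of a family (from R2) -/
def R3 : Prop :=
  ∀ (n m r k : ℕ) (α : Type) [Fintype α] [DecidableEq α] (τ : ℝ), 1 ≤ m → 1 ≤ r → 1 ≤ k →
    0 < τ → 8 * (k : ℝ) * (m : ℝ) ^ 2 / r ≤ τ ^ 2 / 4 →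
    ∀ Fam : Finset (Finset (Fin n) × Finset (Fin n → α)),
      (∀ P ∈ Fam, Spread r P.1 P.2) →
      Fam.card * 2 ^ n * m ^ n < 4 ^ k →
      ∃ g : Fin n → α → Fin m, ∀ P ∈ Fam, Good τ g P.1 P.2

/-- R4: consistency of the averages over injections -/
def R4 : Prop :=
  ∀ (n m : ℕ) (A A' : Finset (Fin n)), A ⊆ A' → A'.card ≤ m → 1 ≤ m →
    0 < (J n m A').card ∧
    ∀ f : (Fin n → Fin m) → ℝ, (∀ η η', (∀ i ∈ A, η i = η' i) → f η = f η') →
      avgJ A' f = avgJ A f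

/-- R5: value of the pseudo-measure on a good piece (from R4) -/
def R5 : Prop :=
  ∀ (n m t : ℕ) (α : Type) [Fintype α] [DecidableEq α] [Nonempty α], 8 ≤ n → n = m + 1 →
    2 * t ≤ m → ∀ s : ℕ, 4 ≤ s → ∀ (g : Fin n → α → Fin m) (T : Finset (Fin n)) (a : Fin n → α)
      (p : Finset (Fin n → α)), T.card ≤ t → p ⊆ Fib T a → Good (1 / (n : ℝ) ^ s) g T p →
      |(∑ x ∈ p, Ker (2 * t) g x) - p.card * zval g T a|
        ≤ p.card * (zval g T a / 2 + 3 / (n : ℝ) ^ ((s - 2) * t))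

/-- R5b: trivial bound (from nothing; R4 for the nonemptiness is not needed) -/
def R5b : Prop :=
  ∀ (n m d : ℕ) (α : Type) [Fintype α] [DecidableEq α], 2 ≤ n → n = m + 1 →
    ∀ (g : Fin n → α → Fin m) (x : Fin n → α), |Ker d g x| ≤ 3 * (n : ℝ) ^ (2 * d)

/-- R5c: `zval` is nonnegative, is `1` for `T = ∅`, and vanishes if two labels agree -/
def R5c : Prop :=
  ∀ (n m : ℕ) (α : Type) [Fintype α] [DecidableEq α], 1 ≤ m →
    ∀ (g : Fin n → α → Fin m) (T : Finset (Fin n)) (a : Fin n → α),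
      0 ≤ zval g T a ∧ zval g ∅ a = 1 ∧
      (∀ i ∈ T, ∀ j ∈ T, i ≠ j → g i (a i) = g j (a j) → zval g T a = 0)

/-! ## The walk -/

/-- intersection of a list of sets -/
def Inter {Ω : Type} [Fintype Ω] [DecidableEq Ω] (h : List (Finset Ω)) : Finset Ω :=
  h.foldr (fun A B => A ∩ B) univ

/-- R6: the walk. `W k` = set where line `k` is false, `cl` = sets where a clause is false,
`κ` = density of the pseudo-measure -/
def R6 : Prop :=
  ∀ (Ω : Type) [Fintype Ω] [DecidableEq Ω] (κ : Ω → ℝ) (ε : ℝ) (base cl : Finset (Finset Ω))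
    (r S D q P : ℕ) (W : Fin S → Finset Ω) (rank : Fin S → ℕ),
    0 ≤ ε → (∀ k, W k ∈ base) →
    (∀ h₁ h₂ : List (Finset Ω), h₁.length ≤ q + 4 → (∀ V ∈ h₁, V ∈ base ∨ Vᶜ ∈ base) →
      h₂.length ≤ r → (∀ V ∈ h₂, V ∈ cl ∨ Vᶜ ∈ cl) →
      -ε ≤ ∑ x ∈ Inter h₁ ∩ Inter h₂, κ x) →
    (∀ h₁ h₂ : List (Finset Ω), h₁.length ≤ q + 4 → (∀ V ∈ h₁, V ∈ base ∨ Vᶜ ∈ base) →
      h₂.length ≤ r → (∀ V ∈ h₂, V ∈ cl ∨ Vᶜ ∈ cl) →
      ∀ C ∈ cl, Inter h₁ ∩ Inter h₂ ⊆ C → ∑ x ∈ Inter h₁ ∩ Inter h₂, κ x ≤ ε) →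
    (∀ k, rank k ≤ D) → D ≤ P * q →
    (∀ k, ∃ R ⊆ cl, R.card ≤ r ∧
      (W k ⊆ R.biUnion id ∨
       (∃ i, i < k ∧ rank i ≤ rank k ∧ W k ⊆ W i ∪ R.biUnion id) ∨
       (∃ i j, i < k ∧ j < k ∧ rank i < rank k ∧ rank j < rank k ∧
          W k ⊆ W i ∪ W j ∪ R.biUnion id))) →
    ∀ k, ∑ x ∈ W k, κ x ≤ (P + 1) * (S : ℝ) ^ (P + 1) * (2 ^ (q + 1) * (r + 4) * ε)

open Classical in
/-- R7: number of functions with circuits of size `s` -/
def R7 : Prop :=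
  ∀ (ν : Type) [Fintype ν] [DecidableEq ν] (s : ℕ),
    (univ.filter (fun f : (ν → Bool) → Bool => HasCircuit s f)).card
      ≤ s * ((Fintype.card ν + s) ^ 2) ^ s

end Pool.Agent.SL
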