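import Mathlib
import Pool.Agent.Lib.SL.Defs

/-! Row R6: the walk. -/

set_option autoImplicit false

namespace Pool.Agent.SL

open Finset

namespace R6x

variable {Ω : Type} [Fintype Ω] [DecidableEq Ω]

theorem mem_Inter {h : List (Finset Ω)} {x : Ω} : x ∈ Inter h ↔ ∀ V ∈ h, x ∈ V := by
  induction h with
  | nil => simp [Inter]
  | cons V h ih =>
    have : Inter (V :: h) = V ∩ Inter h := rfl
    rw [this, mem_inter, ih]
    simp

theorem Inter_congr {h h' : List (Finset Ω)} (H : ∀ V, V ∈ h ↔ V ∈ h') : Inter h = Inter h' := by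
  ext x
  rw [mem_Inter, mem_Inter]
  exact ⟨fun a V hV => a V ((H V).2 hV), fun a V hV => a V ((H V).1 hV)⟩

theorem split (κ : Ω → ℝ) (V : Finset Ω) (h : List (Finset Ω)) :
    ∑ x ∈ Inter h, κ x = ∑ x ∈ Inter (V :: h), κ x + ∑ x ∈ Inter (Vᶜ :: h), κ x := by
  have h1 : Inter (V :: h) = Inter h ∩ V := by
    ext x
    simp only [mem_Inter, mem_inter, List.mem_cons, forall_eq_or_imp]
    exact and_comm
  have h2 : Inter (Vᶜ :: h) = Inter h \ V := by
    ext x
    simp only [mem_Inter, mem_sdiff, List.mem_cons, forall_eq_or_imp, mem_compl]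
    exact and_comm
  rw [h1, h2]
  exact (sum_inter_add_sum_sdiff (Inter h) V κ).symm

/-- admissible lists -/
def Adm (base : Finset (Finset Ω)) (h : List (Finset Ω)) : Prop := ∀ V ∈ h, V ∈ base ∨ Vᶜ ∈ base

theorem Adm.cons {base : Finset (Finset Ω)} {h : List (Finset Ω)} (H : Adm base h) {V : Finset Ω}
    (hV : V ∈ base) : Adm base (V :: h) := by
  intro U hU
  rcases List.mem_cons.1 hU with rfl | hU
  · exact Or.inl hV
  · exact H U hU

theorem Adm.consc {base : Finset (Finset Ω)} {h : List (Finset Ω)} (H : Adm base h) {V : Finset Ω}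
    (hV : V ∈ base) : Adm base (Vᶜ :: h) := by
  intro U hU
  rcases List.mem_cons.1 hU with rfl | hU
  · exact Or.inr (by rwa [compl_compl])
  · exact H U hU

section

variable {κ : Ω → ℝ} {ε : ℝ} {base cl : Finset (Finset Ω)} {M r : ℕ}

/-- the two properties of the pseudo-measure -/
structure Pseudo (κ : Ω → ℝ) (ε : ℝ) (base cl : Finset (Finset Ω)) (M r : ℕ) : Prop where
  eps : 0 ≤ ε
  low : ∀ h₁ h₂ : List (Finset Ω), h₁.length ≤ M → Adm base h₁ → h₂.length ≤ r → Adm cl h₂ →
    -ε ≤ ∑ x ∈ Inter h₁ ∩ Inter h₂, κ x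
  upp : ∀ h₁ h₂ : List (Finset Ω), h₁.length ≤ M → Adm base h₁ → h₂.length ≤ r → Adm cl h₂ →
    ∀ C ∈ cl, Inter h₁ ∩ Inter h₂ ⊆ C → ∑ x ∈ Inter h₁ ∩ Inter h₂, κ x ≤ ε

theorem Inter_nil : Inter ([] : List (Finset Ω)) = univ := rfl

theorem Adm.nil : Adm base ([] : List (Finset Ω)) := fun V hV => by simp at hV

theorem Pseudo.low1 (H : Pseudo κ ε base cl M r) (h : List (Finset Ω)) (hl : h.length ≤ M)
    (ha : Adm base h) : -ε ≤ ∑ x ∈ Inter h, κ x := by
  have := H.low h [] hl ha (by simp) Adm.nil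
  rwa [Inter_nil, inter_univ] at this

theorem split' (κ : Ω → ℝ) (V A : Finset Ω) (h : List (Finset Ω)) :
    ∑ x ∈ A ∩ Inter h, κ x =
      ∑ x ∈ A ∩ Inter (V :: h), κ x + ∑ x ∈ A ∩ Inter (Vᶜ :: h), κ x := by
  have h1 : A ∩ Inter (V :: h) = (A ∩ Inter h) ∩ V := by
    ext x
    simp only [mem_Inter, mem_inter, List.mem_cons, forall_eq_or_imp]
    tauto
  have h2 : A ∩ Inter (Vᶜ :: h) = (A ∩ Inter h) \ V := by
    ext x
    simp only [mem_Inter, mem_sdiff, mem_inter, List.mem_cons, forall_eq_or_imp, mem_compl]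
    tauto
  rw [h1, h2]
  exact (sum_inter_add_sum_sdiff (A ∩ Inter h) V κ).symm

theorem clauses (H : Pseudo κ ε base cl M r) {h₁ : List (Finset Ω)} (ha : Adm base h₁)
    (hl : h₁.length ≤ M) : ∀ (R : List (Finset Ω)) (h : List (Finset Ω)),
    (∀ C ∈ R, C ∈ cl) → Adm cl h → h.length + R.length ≤ r →
    (∀ x ∈ Inter h₁ ∩ Inter h, ∃ C ∈ R, x ∈ C) →
    ∑ x ∈ Inter h₁ ∩ Inter h, κ x ≤ R.length * ε
  | [], h, _, _, _, hx => by
    have : Inter h₁ ∩ Inter h = ∅ := by
      rw [eq_empty_iff_forall_notMem]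
      intro x hx'
      obtain ⟨C, hC, _⟩ := hx x hx'
      simp at hC
    simp [this]
  | C :: R, h, hR, hc, hlr, hx => by
    have hC : C ∈ cl := hR C (by simp)
    simp only [List.length_cons] at hlr
    rw [split' κ C (Inter h₁) h]
    have h1 : ∑ x ∈ Inter h₁ ∩ Inter (C :: h), κ x ≤ ε := by
      refine H.upp h₁ (C :: h) hl ha (by simp only [List.length_cons]; omega) (hc.cons hC) C hC ?_
      intro x hx'
      exact mem_Inter.1 (mem_inter.1 hx').2 C (by simp)
    have h2 := clauses H ha hl R (Cᶜ :: h) (fun C' h' => hR C' (by simp [h'])) (hc.consc hC)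
      (by simp only [List.length_cons]; omega) (by
        intro x hx'
        have hx1 := mem_Inter.1 (mem_inter.1 hx').2
        have hxh : x ∈ Inter h₁ ∩ Inter h :=
          mem_inter.2 ⟨(mem_inter.1 hx').1, mem_Inter.2 fun V hV => hx1 V (by simp [hV])⟩
        obtain ⟨C', hC', hxC⟩ := hx x hxh
        rcases List.mem_cons.1 hC' with rfl | hC'
        · exact absurd hxC (mem_compl.1 (hx1 _ (by simp)))
        · exact ⟨C', hC', hxC⟩)
    simp only [List.length_cons]
    push_cast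
    linarith

theorem clausesF (H : Pseudo κ ε base cl M r) {R : Finset (Finset Ω)} (hR : R ⊆ cl)
    (hr : R.card ≤ r) {h : List (Finset Ω)} (ha : Adm base h) (hl : h.length ≤ M)
    (hx : Inter h ⊆ R.biUnion id) : ∑ x ∈ Inter h, κ x ≤ r * ε := by
  have := clauses H ha hl R.toList [] (fun C hC => hR (by simpa using hC)) Adm.nil
    (by rw [length_toList]; simpa using hr) (by
      intro x hx'
      rw [Inter_nil, inter_univ] at hx'
      obtain ⟨C, hC, hxC⟩ := mem_biUnion.1 (hx hx')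
      exact ⟨C, by simpa using hC, hxC⟩)
  rw [length_toList, Inter_nil, inter_univ] at this
  refine this.trans ?_
  have h1 : (R.card : ℝ) ≤ r := by exact_mod_cast hr
  exact mul_le_mul_of_nonneg_right h1 H.eps

theorem swap2 (A B : Finset Ω) (h : List (Finset Ω)) : Inter (A :: B :: h) = Inter (B :: A :: h) :=
  Inter_congr fun V => by simp only [List.mem_cons]; tauto

theorem drop1 (H : Pseudo κ ε base cl M r) {V U : Finset Ω} (hV : V ∈ base) (hU : U ∈ base)
    {h : List (Finset Ω)} (ha : Adm base h) (hl : h.length + 2 ≤ M) :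
    ∑ x ∈ Inter (U :: V :: h), κ x ≤ ∑ x ∈ Inter (U :: h), κ x + ε := by
  rw [swap2, split κ V (U :: h)]
  have := H.low1 (Vᶜ :: U :: h) (by simp only [List.length_cons]; omega) ((ha.cons hU).consc hV)
  linarith

theorem step0 (H : Pseudo κ ε base cl M r) {R : Finset (Finset Ω)} (hR : R ⊆ cl)
    (hr : R.card ≤ r) {V : Finset Ω} (hV : V ∈ base) (hs : V ⊆ R.biUnion id)
    {h : List (Finset Ω)} (ha : Adm base h) (hl : h.length + 1 ≤ M) :
    ∑ x ∈ Inter (V :: h), κ x ≤ r * ε :=
  clausesF H hR hr (ha.cons hV) (by simp only [List.length_cons]; omega) fun x hx =>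
    hs (mem_Inter.1 hx V (by simp))

theorem step1 (H : Pseudo κ ε base cl M r) {R : Finset (Finset Ω)} (hR : R ⊆ cl)
    (hr : R.card ≤ r) {V U : Finset Ω} (hV : V ∈ base) (hU : U ∈ base)
    (hs : V ⊆ U ∪ R.biUnion id)
    {h : List (Finset Ω)} (ha : Adm base h) (hl : h.length + 2 ≤ M) :
    ∑ x ∈ Inter (V :: h), κ x ≤ ∑ x ∈ Inter (U :: h), κ x + (r + 1) * ε := by
  rw [split κ U (V :: h)]
  have h1 := drop1 H hV hU ha (by omega)
  have h2 : ∑ x ∈ Inter (Uᶜ :: V :: h), κ x ≤ r * ε := by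
    refine clausesF H hR hr ((ha.cons hV).consc hU) (by simp only [List.length_cons]; omega) ?_
    intro x hx
    have hx := mem_Inter.1 hx
    rcases mem_union.1 (hs (hx V (by simp))) with h' | h'
    · exact absurd h' (mem_compl.1 (hx _ (by simp)))
    · exact h'
  linarith

theorem step2 (H : Pseudo κ ε base cl M r) {R : Finset (Finset Ω)} (hR : R ⊆ cl)
    (hr : R.card ≤ r) {V U T : Finset Ω} (hV : V ∈ base) (hU : U ∈ base) (hT : T ∈ base)
    (hs : V ⊆ U ∪ T ∪ R.biUnion id)
    {h : List (Finset Ω)} (ha : Adm base h) (hl : h.length + 3 ≤ M) :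
    ∑ x ∈ Inter (V :: h), κ x ≤
      ∑ x ∈ Inter (U :: h), κ x + ∑ x ∈ Inter (T :: Uᶜ :: h), κ x + (r + 2) * ε := by
  rw [split κ U (V :: h)]
  have h1 := drop1 H hV hU ha (by omega)
  have e : Inter (Uᶜ :: V :: h) = Inter (V :: Uᶜ :: h) := swap2 _ _ _
  rw [e, split κ T (V :: Uᶜ :: h)]
  have h2 := drop1 H hV hT (ha.consc hU) (by simp only [List.length_cons]; omega)
  have h3 : ∑ x ∈ Inter (Tᶜ :: V :: Uᶜ :: h), κ x ≤ r * ε := by
    refine clausesF H hR hr (((ha.consc hU).cons hV).consc hT)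
      (by simp only [List.length_cons]; omega) ?_
    intro x hx
    have hx := mem_Inter.1 hx
    rcases mem_union.1 (hs (hx V (by simp))) with h' | h'
    · rcases mem_union.1 h' with h' | h'
      · exact absurd h' (mem_compl.1 (hx _ (by simp)))
      · exact absurd h' (mem_compl.1 (hx _ (by simp)))
    · exact h'
  linarith

theorem same (V : Finset Ω) (h : List (Finset Ω)) : Inter (V :: V :: h) = Inter (V :: h) :=
  Inter_congr fun U => by simp only [List.mem_cons]; tauto

end

section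

variable {κ : Ω → ℝ} {ε : ℝ} {base cl : Finset (Finset Ω)} {r S q : ℕ}
  {W : Fin S → Finset Ω} {rank : Fin S → ℕ}

/-- the inference condition -/
def Inf (cl : Finset (Finset Ω)) (r : ℕ) (W : Fin S → Finset Ω) (rank : Fin S → ℕ)
    (k : Fin S) : Prop :=
  ∃ R ⊆ cl, R.card ≤ r ∧
    (W k ⊆ R.biUnion id ∨
     (∃ i, i < k ∧ rank i ≤ rank k ∧ W k ⊆ W i ∪ R.biUnion id) ∨
     (∃ i j, i < k ∧ j < k ∧ rank i < rank k ∧ rank j < rank k ∧
        W k ⊆ W i ∪ W j ∪ R.biUnion id))

theorem claim (H : Pseudo κ ε base cl (q + 4) r) (hW : ∀ k, W k ∈ base)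
    (hI : ∀ k, Inf cl r W rank k) (ρ : ℕ) : ∀ (j : ℕ) (h : List (Finset Ω)), h.length + j ≤ q →
    Adm base h → ∀ (N : ℕ) (k : Fin S), (k : ℕ) < N → rank k ≤ ρ + j →
    ∃ f : Fin S → ℝ, (∀ k', f k' ≤ ∑ x ∈ Inter (W k' :: h), κ x + 2 ^ j * ε) ∧
      ∑ x ∈ Inter (W k :: h), κ x ≤ ∑ k' ∈ univ.filter (fun k' => rank k' ≤ ρ), f k' +
        (2 ^ (j + 1) - 1) * ((k : ℕ) + 1) * (r + 3) * ε := by
  have hε := H.eps
  intro j
  induction j with
  | zero =>
    intro h hl ha N k _ hk
    refine ⟨fun k' => if k' = k then ∑ x ∈ Inter (W k' :: h), κ x else 0, ?_, ?_⟩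
    · intro k'
      have := H.low1 (W k' :: h) (by simp only [List.length_cons]; omega) (ha.cons (hW k'))
      dsimp only
      split_ifs
      · linarith
      · linarith
    · rw [sum_ite_eq' (univ.filter fun k' => rank k' ≤ ρ) k]
      rw [if_pos (by simpa using hk)]
      have : 0 ≤ (2 ^ (0 + 1) - 1 : ℝ) * ((k : ℕ) + 1) * (r + 3) * ε := by
        have : (0:ℝ) ≤ 2 ^ (0 + 1) - 1 := by norm_num
        positivity
      linarith
  | succ j ihj =>
    intro h hl ha N
    induction N with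
    | zero => intro k hk; omega
    | succ N ihN =>
      intro k hkN hk
      have hlow : ∀ k', -ε ≤ ∑ x ∈ Inter (W k' :: h), κ x := fun k' =>
        H.low1 (W k' :: h) (by simp only [List.length_cons]; omega) (ha.cons (hW k'))
      have h2j : (1:ℝ) ≤ 2 ^ (j + 1) := one_le_pow₀ (by norm_num)
      have h2j' : (2:ℝ) ^ (j + 1 + 1) = 2 * 2 ^ (j + 1) := by ring
      have hk0 : (0:ℝ) ≤ (k : ℕ) := by positivity
      have hr0 : (0:ℝ) ≤ r := by positivity
      obtain ⟨R, hR, hr, h0 | ⟨i, hik, hri, h1⟩ | ⟨i, i', hik, hik', hri, hri', h2⟩⟩ := hI k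
      · refine ⟨fun _ => 0, fun k' => ?_, ?_⟩
        · have := hlow k'
          nlinarith
        · have h3 := step0 H hR hr (hW k) h0 ha (by omega)
          rw [sum_const_zero, zero_add]
          refine h3.trans ?_
          have h4 : (1:ℝ) ≤ (2 ^ (j + 1 + 1) - 1) * ((k : ℕ) + 1) := by nlinarith
          have h5 : (r:ℝ) * ε ≤ (r + 3) * ε := by nlinarith
          have h6 : 0 ≤ (r + 3) * ε := by positivity
          calc (r:ℝ) * ε ≤ 1 * ((r + 3) * ε) := by linarith
            _ ≤ ((2 ^ (j + 1 + 1) - 1) * ((k : ℕ) + 1)) * ((r + 3) * ε) :=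
                mul_le_mul_of_nonneg_right h4 h6
            _ = _ := by ring
      · have hiN : (i : ℕ) < N := by
          have : (i : ℕ) < k := hik
          omega
        obtain ⟨f, hf1, hf2⟩ := ihN i hiN (hri.trans hk)
        refine ⟨f, hf1, ?_⟩
        have h3 := step1 H hR hr (hW k) (hW i) h1 ha (by omega)
        have hi1 : ((i : ℕ) : ℝ) + 1 ≤ (k : ℕ) := by
          have : (i : ℕ) < k := hik
          exact_mod_cast this
        have h4 : (2 ^ (j + 1 + 1) - 1 : ℝ) * ((i : ℕ) + 1) * (r + 3) * ε + (r + 1) * ε ≤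
            (2 ^ (j + 1 + 1) - 1) * ((k : ℕ) + 1) * (r + 3) * ε := by
          have h6 : 0 ≤ (r + 3) * ε := by positivity
          have h7 : (r + 1) * ε ≤ (r + 3) * ε := by nlinarith
          have h8 : (2 ^ (j + 1 + 1) - 1 : ℝ) * ((i : ℕ) + 1) + 1 ≤
              (2 ^ (j + 1 + 1) - 1) * ((k : ℕ) + 1) := by nlinarith
          have h9 := mul_le_mul_of_nonneg_right h8 h6
          nlinarith
        linarith
      · have hi1 : ((i : ℕ) : ℝ) + 1 ≤ (k : ℕ) := by
          have : (i : ℕ) < k := hik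
          exact_mod_cast this
        have hi2 : ((i' : ℕ) : ℝ) + 1 ≤ (k : ℕ) := by
          have : (i' : ℕ) < k := hik'
          exact_mod_cast this
        obtain ⟨f1, hf1, hg1⟩ := ihj (W i :: h) (by simp only [List.length_cons]; omega)
          (ha.cons (hW i)) ((i : ℕ) + 1) i (by omega) (by omega)
        obtain ⟨f2, hf2, hg2⟩ := ihj ((W i)ᶜ :: h) (by simp only [List.length_cons]; omega)
          (ha.consc (hW i)) ((i' : ℕ) + 1) i' (by omega) (by omega)
        refine ⟨fun k' => f1 k' + f2 k', fun k' => ?_, ?_⟩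
        · have a1 := hf1 k'
          have a2 := hf2 k'
          have a3 := split κ (W i) (W k' :: h)
          rw [swap2 (W i), swap2 (W i)ᶜ] at a3
          have a4 : (2:ℝ) ^ (j + 1) * ε = 2 ^ j * ε + 2 ^ j * ε := by ring
          linarith
        · rw [same] at hg1
          have h3 := step2 H hR hr (hW k) (hW i) (hW i') h2 ha (by omega)
          rw [sum_add_distrib]
          have h4 : (2 ^ (j + 1) - 1 : ℝ) * ((i : ℕ) + 1) * (r + 3) * ε +
              (2 ^ (j + 1) - 1 : ℝ) * ((i' : ℕ) + 1) * (r + 3) * ε + (r + 2) * ε ≤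
              (2 ^ (j + 1 + 1) - 1) * ((k : ℕ) + 1) * (r + 3) * ε := by
            have h6 : 0 ≤ (r + 3) * ε := by positivity
            have h7 : (r + 2) * ε ≤ (r + 3) * ε := by nlinarith
            have h8 : (2 ^ (j + 1) - 1 : ℝ) * ((i : ℕ) + 1) +
                (2 ^ (j + 1) - 1 : ℝ) * ((i' : ℕ) + 1) + 1 ≤
                (2 ^ (j + 1 + 1) - 1) * ((k : ℕ) + 1) := by nlinarith
            have h9 := mul_le_mul_of_nonneg_right h8 h6
            nlinarith
          linarith

theorem base0 (H : Pseudo κ ε base cl (q + 4) r) (hW : ∀ k, W k ∈ base)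
    (hI : ∀ k, Inf cl r W rank k) : ∀ (N : ℕ) (k : Fin S), (k : ℕ) < N → rank k = 0 →
    ∑ x ∈ Inter (W k :: []), κ x ≤ ((k : ℕ) + 1) * ((r + 1) * ε) := by
  have hε := H.eps
  intro N
  induction N with
  | zero => intro k hk; omega
  | succ N ihN =>
    intro k hkN hk
    have hr0 : (0:ℝ) ≤ r := by positivity
    have hk0 : (0:ℝ) ≤ (k : ℕ) := by positivity
    have ha : Adm base ([] : List (Finset Ω)) := fun V hV => by simp at hV
    have h6 : 0 ≤ (r + 1) * ε := by positivity
    obtain ⟨R, hR, hr, h0 | ⟨i, hik, hri, h1⟩ | ⟨i, i', hik, hik', hri, hri', h2⟩⟩ := hI k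
    · have h3 := step0 H hR hr (hW k) h0 ha (by simp only [List.length_nil]; omega)
      have : (r:ℝ) * ε ≤ (r + 1) * ε := by nlinarith
      nlinarith
    · have hik2 : (i : ℕ) < k := hik
      have h4 := ihN i (by omega) (by omega)
      have h3 := step1 H hR hr (hW k) (hW i) h1 ha (by simp only [List.length_nil]; omega)
      have hi1 : ((i : ℕ) : ℝ) + 1 ≤ (k : ℕ) := by exact_mod_cast hik2
      nlinarith
    · omega

end

end R6x

open R6x in
theorem r6 : R6 := by
  intro Ω _ _ κ ε base cl r S D q P W rank hε hW hlow hupp hD hDP hI k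
  have H : Pseudo κ ε base cl (q + 4) r := ⟨hε, hlow, hupp⟩
  have hI' : ∀ k, Inf cl r W rank k := hI
  have hS : 0 < S := k.pos
  have hS1 : (1:ℝ) ≤ S := by exact_mod_cast hS
  set X : ℝ := 2 ^ (q + 1) * (r + 4) * ε with hX
  have hX0 : 0 ≤ X := by positivity
  have hnil : ∀ k, Inter (W k :: []) = W k := by
    intro k
    ext x
    simp [mem_Inter]
  have h2q : (1:ℝ) ≤ 2 ^ q := one_le_pow₀ (by norm_num)
  have e2 : (2:ℝ) ^ (q + 1) = 2 * 2 ^ q := by ring
  have hr0 : (0:ℝ) ≤ r := by positivity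
  have key : ∀ (p : ℕ) (k : Fin S), rank k ≤ p * q →
      ∑ x ∈ W k, κ x ≤ (p + 1) * (S : ℝ) ^ (p + 1) * X := by
    intro p
    induction p with
    | zero =>
      intro k hk
      have h1 := base0 H hW hI' ((k : ℕ) + 1) k (by omega) (by simpa using hk)
      rw [hnil] at h1
      refine h1.trans ?_
      have hkS : ((k : ℕ) : ℝ) + 1 ≤ S := by
        have : (k : ℕ) + 1 ≤ S := k.2
        exact_mod_cast this
      have h2 : (r + 1) * ε ≤ X := by
        rw [hX, mul_assoc]
        have h3 : (r + 1) * ε ≤ (r + 4) * ε := by nlinarith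
        have h4 : 0 ≤ (r + 4) * ε := by positivity
        nlinarith
      have h5 : 0 ≤ (r + 1) * ε := by positivity
      have h6 : (((k : ℕ) : ℝ) + 1) * ((r + 1) * ε) ≤ S * X :=
        mul_le_mul hkS h2 h5 (by positivity)
      have e1 : (((0 : ℕ) : ℝ) + 1) * (S : ℝ) ^ (0 + 1) * X = S * X := by
        push_cast
        ring
      rw [e1]
      exact h6
    | succ p ih =>
      intro k hk
      have ha : Adm base ([] : List (Finset Ω)) := fun V hV => by simp at hV
      obtain ⟨f, hf1, hf2⟩ := claim H hW hI' (p * q) q [] (by simp) ha ((k : ℕ) + 1) k (by omega)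
        (by rw [add_mul, one_mul] at hk; exact hk)
      rw [hnil] at hf2
      set β : ℝ := (p + 1) * (S : ℝ) ^ (p + 1) * X with hβ
      have hβ0 : 0 ≤ β := by positivity
      have h1 : ∑ k' ∈ univ.filter (fun k' => rank k' ≤ p * q), f k' ≤ S * (β + 2 ^ q * ε) := by
        calc ∑ k' ∈ univ.filter (fun k' => rank k' ≤ p * q), f k'
            ≤ ∑ k' ∈ univ.filter (fun k' => rank k' ≤ p * q), (β + 2 ^ q * ε) := by
              refine sum_le_sum fun k' hk' => ?_
              have h2 := hf1 k'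
              rw [hnil] at h2
              have h3 := ih k' (by simpa using hk')
              linarith
          _ = ((univ.filter (fun k' => rank k' ≤ p * q)).card : ℝ) * (β + 2 ^ q * ε) := by
              rw [sum_const, nsmul_eq_mul]
          _ ≤ S * (β + 2 ^ q * ε) := by
              refine mul_le_mul_of_nonneg_right ?_ (by positivity)
              have : (univ.filter (fun k' => rank k' ≤ p * q)).card ≤ S := by
                refine (card_filter_le _ _).trans ?_
                simp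
              exact_mod_cast this
      have hkS : ((k : ℕ) : ℝ) + 1 ≤ S := by
        have : (k : ℕ) + 1 ≤ S := k.2
        exact_mod_cast this
      have h4 : (2 ^ (q + 1) - 1 : ℝ) * ((k : ℕ) + 1) * (r + 3) * ε ≤
          S * ((2 ^ (q + 1) - 1) * (r + 3) * ε) := by
        have h5 : 0 ≤ (2 ^ (q + 1) - 1 : ℝ) * (r + 3) * ε := by
          have : (0:ℝ) ≤ 2 ^ (q + 1) - 1 := by linarith
          positivity
        calc (2 ^ (q + 1) - 1 : ℝ) * ((k : ℕ) + 1) * (r + 3) * ε
            = (((k : ℕ) : ℝ) + 1) * ((2 ^ (q + 1) - 1) * (r + 3) * ε) := by ring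
          _ ≤ _ := mul_le_mul_of_nonneg_right hkS h5
      have h6 : 2 ^ q * ε + (2 ^ (q + 1) - 1 : ℝ) * (r + 3) * ε ≤ X := by
        rw [hX, e2]
        have h7 : 0 ≤ 2 ^ q * ε := by positivity
        have h8 : 0 ≤ (r + 3) * ε := by positivity
        nlinarith
      have hSp : (1:ℝ) ≤ (S : ℝ) ^ (p + 1) := one_le_pow₀ hS1
      have h9 : S * (β + X) ≤ ((p + 1 : ℕ) + 1) * (S : ℝ) ^ (p + 1 + 1) * X := by
        have e3 : ((p + 1 : ℕ) + 1 : ℝ) * (S : ℝ) ^ (p + 1 + 1) * X =
            S * (β + (S : ℝ) ^ (p + 1) * X) := by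
          rw [hβ]
          push_cast
          ring
        rw [e3]
        have : X ≤ (S : ℝ) ^ (p + 1) * X := by nlinarith
        gcongr
      calc ∑ x ∈ W k, κ x ≤ S * (β + 2 ^ q * ε) + S * ((2 ^ (q + 1) - 1) * (r + 3) * ε) := by
            linarith
        _ = S * (β + (2 ^ q * ε + (2 ^ (q + 1) - 1) * (r + 3) * ε)) := by ring
        _ ≤ S * (β + X) := by gcongr
        _ ≤ _ := h9
  have := key P k ((hD k).trans hDP)
  exact this

end Pool.Agent.SL
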