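import Pool.Agent.Lib.SL.R8c
import Pool.Agent.Lib.SL.R1g
import Pool.Agent.Lib.SL.R2
import Pool.Agent.Lib.SL.R3
import Pool.Agent.Lib.SL.R4
import Pool.Agent.Lib.SL.R5
import Pool.Agent.Lib.SL.R5bc
import Pool.Agent.Lib.SL.R6
import Pool.Agent.Lib.SL.R7

/-! # Short lines force long or deep proofs: final assembly -/

namespace Pool.Agent.SL

open Finset Filter

/-- the theorem with two parameters `c` (line length) and `s` (error exponent) -/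
theorem final_aux (c s ℓ u n B N X : ℕ) (hs : 4 ≤ s) (hn : n = 2 ^ ℓ) (hℓu : ℓ = u + 2)
    (hB : B = (c + 3 * s + 7) * ℓ) (hN : N = n * B) (hX : X = ℓ * ((s - 2) * 2 ^ u))
    (hu8 : 8 ≤ u) (hE3 : B ≤ 2 ^ ℓ)
    (hE2 : (30 * c + 60) * B ^ (c + 2) ≤ 2 ^ ℓ)
    (hE4 : Real.logb 2 (48 * (((N ^ c : ℕ) : ℝ) + 4)) ≤ (X : ℝ) / 100)
    (V : Finset (((Fin n × Fin B) → Bool) → Bool)) (hV : V.card ≤ 2 ^ (N ^ c)) :
    ∃ F : Finset (Clause (Fin n × Fin B)),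
      (∀ x, ∃ C ∈ F, ¬ Holds C x) ∧
      F.card ≤ N ^ (2 * c + 6 * s + 16) ∧
      (∀ C ∈ F, C.card ≤ 2 * B) ∧
      ∀ S D : ℕ,
        Nonempty (Refutation F (fun f => f ∈ V ∨ HasCircuit (N ^ c) f) (N ^ c) S D) →
        0.12 * (X : ℝ) ^ 2 ≤ ((D : ℝ) + (N : ℝ)) * Real.logb 2 ((S : ℝ) + 1) := by
  classical
  have hℓ10 : 10 ≤ ℓ := by omega
  have hℓB : ℓ ≤ B := by
    rw [hB]
    exact Nat.le_mul_of_pos_left _ (by omega)
  have hB1 : 1 ≤ B := by omega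
  obtain ⟨Lset, hLset⟩ : ∃ Lset : Finset (((Fin n × Fin B) → Bool) → Bool),
      Lset = V ∪ univ.filter (fun f => HasCircuit (N ^ c) f) := ⟨_, rfl⟩
  have hLcard : Lset.card ≤ 2 ^ (N ^ c) + N ^ c * ((N + N ^ c) ^ 2) ^ (N ^ c) := by
    rw [hLset]
    refine le_trans (card_union_le _ _) (Nat.add_le_add hV ?_)
    have h := r7 (Fin n × Fin B) (N ^ c)
    rw [Fintype.card_prod, Fintype.card_fin, Fintype.card_fin, ← hN] at h
    exact h
  have hu1 : n = 4 * 2 ^ u := by rw [hn, hℓu, pow_add]; ring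
  have hpu : 2 ^ 8 ≤ 2 ^ u := Nat.pow_le_pow_right (by norm_num) hu8
  have hXN : X ≤ N := by
    rw [hX, hN, hu1, hB]
    calc ℓ * ((s - 2) * 2 ^ u) = 2 ^ u * ((s - 2) * ℓ) := by ring
      _ ≤ 4 * 2 ^ u * ((c + 3 * s + 7) * ℓ) := by
          apply Nat.mul_le_mul (by omega)
          apply Nat.mul_le_mul_right
          omega
  obtain ⟨q, hq⟩ : ∃ q, q = X / 2 := ⟨_, rfl⟩
  have hqN : q ≤ N := le_trans (by rw [hq]; exact Nat.div_le_self _ _) hXN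
  have hfam := R8x.family c ℓ n B N (N ^ c) (by omega) hn hN rfl hB1 hℓB hE3 hE2
    Lset.card q hqN hLcard
  obtain ⟨F, hF1, hF2, hF3, hF4⟩ := R8x.comb (n := n) (m := n - 1) (b := B)
    r1g (r3 r2) (r5 r4) r5b r5c r6 (2 ^ ((c + 5 + 2 * s) * ℓ)) (2 ^ ((s + 2) * ℓ))
    (2 ^ ((c + 2) * ℓ)) (2 ^ u) s q (N ^ c)
    (by omega) (by omega) (by omega) (by omega)
    (by rw [← pow_add, hB]; congr 1; ring) Nat.one_le_two_pow hs
    (by
      rw [hn, ← pow_mul, ← pow_mul]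
      calc 32 * 2 ^ ((c + 2) * ℓ) * 2 ^ (ℓ * 2) * 2 ^ (ℓ * (2 * s))
          = 2 ^ (5 + (c + 2) * ℓ + ℓ * 2 + ℓ * (2 * s)) := by
            rw [pow_add, pow_add, pow_add]; norm_num
        _ ≤ 2 ^ ((c + 5 + 2 * s) * ℓ) := by
            apply Nat.pow_le_pow_right (by norm_num)
            calc 5 + (c + 2) * ℓ + ℓ * 2 + ℓ * (2 * s)
                ≤ ℓ + (c + 2) * ℓ + ℓ * 2 + ℓ * (2 * s) := by omega
              _ = (c + 5 + 2 * s) * ℓ := by ring)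
    (by rw [hn, ← pow_mul, mul_comm ℓ (s + 2)])
    Lset hfam
  refine ⟨F, hF1, ?_, hF3, ?_⟩
  · -- number of clauses
    refine le_trans hF2 ?_
    have e1 : n ^ 2 * (2 ^ B) ^ 2 = n ^ (2 * c + 6 * s + 16) := by
      rw [hn, ← pow_mul, ← pow_mul, ← pow_mul, ← pow_add, hB]
      congr 1
      ring
    rw [e1, hN]
    apply Nat.pow_le_pow_left
    exact Nat.le_mul_of_pos_right _ hB1
  · intro S D hR
    obtain ⟨Rf⟩ := hR
    have hR' : Nonempty (Refutation F (fun f => f ∈ Lset) (N ^ c) S D) := by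
      refine ⟨⟨Rf.line, ?_, Rf.rank, Rf.rank_le, Rf.last, Rf.infer⟩⟩
      intro k
      rw [hLset, mem_union, mem_filter]
      rcases Rf.isLine k with h | h
      · left; exact h
      · right; exact ⟨mem_univ _, h⟩
    have hX100 : 100 ≤ X := by
      rw [hX]
      calc 100 ≤ 1 * (1 * 2 ^ u) := by omega
        _ ≤ ℓ * ((s - 2) * 2 ^ u) :=
            Nat.mul_le_mul (by omega) (Nat.mul_le_mul_right _ (by omega))
    have hq0 : 0 < q := by rw [hq]; omega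
    have hDP : D ≤ (D / q + 1) * q := by
      have := Nat.lt_div_mul_add (a := D) hq0
      rw [Nat.add_mul, one_mul]
      omega
    have h := hF4 S D (D / q + 1) hDP hR'
    have hpow : (2 : ℝ) ^ X ≤ 48 * (((N ^ c : ℕ) : ℝ) + 4) * 2 ^ q *
        ((((D / q + 1 : ℕ) : ℝ) + 1) * (S : ℝ) ^ (D / q + 1 + 1)) := by
      have hnt : (2 : ℝ) ^ X = (n : ℝ) ^ ((s - 2) * 2 ^ u) := by
        rw [hn]
        push_cast
        rw [← pow_mul, hX]
      have hnpos : (0 : ℝ) < n := by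
        have : 0 < n := by omega
        exact_mod_cast this
      have hpos : (0 : ℝ) < (n : ℝ) ^ ((s - 2) * 2 ^ u) := by positivity
      rw [hnt]
      generalize (n : ℝ) ^ ((s - 2) * 2 ^ u) = Z at h hpos
      have h' := mul_le_mul_of_nonneg_right h hpos.le
      have e : ((((D / q + 1 : ℕ) : ℝ) + 1) * (S : ℝ) ^ (D / q + 1 + 1) *
          (2 ^ (q + 1) * (((N ^ c : ℕ) : ℝ) + 4) * (6 / Z))) * Z
          = 12 * (((N ^ c : ℕ) : ℝ) + 4) * 2 ^ q *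
            ((((D / q + 1 : ℕ) : ℝ) + 1) * (S : ℝ) ^ (D / q + 1 + 1)) := by
        rw [pow_succ (2 : ℝ) q]
        field_simp
        ring
      rw [e] at h'
      linarith
    have key := R8x.final_ineq X S D (N ^ c) hX100 hE4 (D / q + 1) q hq rfl hpow
    refine le_trans key ?_
    have hS0 : (0 : ℝ) ≤ S := Nat.cast_nonneg _
    have hlog0 : 0 ≤ Real.logb 2 ((S : ℝ) + 1) := Real.logb_nonneg (by norm_num) (by linarith)
    have hXNR : (X : ℝ) ≤ N := by exact_mod_cast hXN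
    apply mul_le_mul_of_nonneg_right _ hlog0
    linarith

/-- the theorem with the parameter `γ`: lines of length about `|F| ^ (1 / (2 + γ))` -/
theorem final (γ : ℝ) (hγ : 0 < γ) (hγ1 : γ ≤ 1) (c : ℕ) (hc : 96 ≤ γ * c) :
    ∃ K ℓ₀ : ℕ, 0 < K ∧ ∀ ℓ n b N : ℕ, ℓ₀ ≤ ℓ → n = 2 ^ ℓ → b = K * ℓ → N = n * b →
      ∀ V : Finset ((Fin n × Fin b → Bool) → Bool), V.card ≤ 2 ^ (N ^ c) →
        ∃ F : Finset (Clause (Fin n × Fin b)),
          (∀ x, ∃ C ∈ F, ¬ Holds C x) ∧ (F.card : ℝ) ≤ (N : ℝ) ^ ((2 + γ) * c) ∧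
          (∀ C ∈ F, C.card ≤ 2 * b) ∧
          ∀ S D : ℕ,
            Nonempty (Refutation F (fun f => f ∈ V ∨ HasCircuit (N ^ c) f) (N ^ c) S D) →
              γ ^ 2 * (N : ℝ) ^ 2 / 400000 ≤ ((D : ℝ) + N) * Real.logb 2 ((S : ℝ) + 1) := by
  -- the choice of s
  obtain ⟨s, hs⟩ : ∃ s, s = ⌊γ * c / 12⌋₊ := ⟨_, rfl⟩
  have hγc : 0 ≤ γ * c / 12 := by linarith
  have hs1 : (s : ℝ) ≤ γ * c / 12 := by rw [hs]; exact Nat.floor_le hγc
  have hs2 : γ * c / 12 < s + 1 := by rw [hs]; exact Nat.lt_floor_add_one _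
  have hs4 : 4 ≤ s := by
    have : (4 : ℝ) < (s : ℝ) + 1 := by linarith
    have : (4 : ℝ) < ((s + 1 : ℕ) : ℝ) := by push_cast; exact this
    have : 4 < s + 1 := by exact_mod_cast this
    omega
  have hcR : (96 : ℝ) ≤ c := by
    have hc0 : (0 : ℝ) ≤ c := Nat.cast_nonneg _
    nlinarith
  -- asymptotic facts
  have ev1 := R8x.ev_pow 1 (c + 3 * s + 7) 1 2 (by norm_num)
  have ev2 := R8x.ev_pow (30 * c + 60) (c + 3 * s + 7) (c + 2) 2 (by norm_num)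
  have hr1 : (1 : ℝ) < 2 ^ ((1 : ℝ) / 100) := by
    apply Real.one_lt_rpow (by norm_num) (by norm_num)
  have ev3 := R8x.ev_pow 240 (4 * (c + 3 * s + 7)) c (2 ^ ((1 : ℝ) / 100)) hr1
  obtain ⟨a1, ha1⟩ := Filter.eventually_atTop.mp ev1
  obtain ⟨a2, ha2⟩ := Filter.eventually_atTop.mp ev2
  obtain ⟨a3, ha3⟩ := Filter.eventually_atTop.mp ev3
  refine ⟨c + 3 * s + 7, max (max a1 a2) (max (a3 + 3) 10), by omega, ?_⟩
  intro ℓ n b N hℓ hn hb hN V hV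
  have hℓ1 : a1 ≤ ℓ := le_trans (le_trans (le_max_left _ _) (le_max_left _ _)) hℓ
  have hℓ2 : a2 ≤ ℓ := le_trans (le_trans (le_max_right _ _) (le_max_left _ _)) hℓ
  have hℓ3 : a3 + 3 ≤ ℓ := le_trans (le_trans (le_max_left _ _) (le_max_right _ _)) hℓ
  have hℓ10 : 10 ≤ ℓ := le_trans (le_trans (le_max_right _ _) (le_max_right _ _)) hℓ
  have hE3 : b ≤ 2 ^ ℓ := by
    have := ha1 ℓ hℓ1
    have h2 : ((b : ℕ) : ℝ) ≤ ((2 ^ ℓ : ℕ) : ℝ) := by
      rw [hb]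
      push_cast
      push_cast at this
      linarith
    exact_mod_cast h2
  have hE2 : (30 * c + 60) * b ^ (c + 2) ≤ 2 ^ ℓ := by
    have := ha2 ℓ hℓ2
    have h2 : (((30 * c + 60) * b ^ (c + 2) : ℕ) : ℝ) ≤ ((2 ^ ℓ : ℕ) : ℝ) := by
      rw [hb]
      push_cast
      push_cast at this
      linarith
    exact_mod_cast h2
  obtain ⟨u, hu⟩ : ∃ u, ℓ = u + 2 := ⟨ℓ - 2, by omega⟩
  obtain ⟨X, hX⟩ : ∃ X, X = ℓ * ((s - 2) * 2 ^ u) := ⟨_, rfl⟩
  have hnu : n = 4 * 2 ^ u := by rw [hn, hu, pow_add]; ring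
  have hX1 : 2 ^ u * ℓ ≤ X := by
    rw [hX]
    calc 2 ^ u * ℓ = ℓ * (1 * 2 ^ u) := by ring
      _ ≤ ℓ * ((s - 2) * 2 ^ u) := by
          apply Nat.mul_le_mul_left
          apply Nat.mul_le_mul_right
          omega
  -- N in terms of 2 ^ u * ℓ
  have hNu : N = 4 * (c + 3 * s + 7) * (2 ^ u * ℓ) := by
    rw [hN, hnu, hb]; ring
  have hE4 : Real.logb 2 (48 * (((N ^ c : ℕ) : ℝ) + 4)) ≤ (X : ℝ) / 100 := by
    have h3 := ha3 (2 ^ u * ℓ) (by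
      have h1 : u < 2 ^ u := Nat.lt_two_pow_self
      have h4 : 2 ^ u ≤ 2 ^ u * ℓ := Nat.le_mul_of_pos_right _ (by omega)
      omega)
    have hN1 : (1 : ℝ) ≤ (N : ℝ) ^ c := by
      apply one_le_pow₀
      have : 1 ≤ N := by
        rw [hNu]
        exact Nat.mul_pos (by omega) (Nat.mul_pos (by positivity) (by omega))
      exact_mod_cast this
    have h4 : 48 * (((N ^ c : ℕ) : ℝ) + 4) ≤ (2 ^ ((1 : ℝ) / 100)) ^ (2 ^ u * ℓ) := by
      refine le_trans ?_ h3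
      have e : ((4 * (c + 3 * s + 7) : ℕ) : ℝ) * ((2 ^ u * ℓ : ℕ) : ℝ) = (N : ℝ) := by
        rw [hNu]; push_cast; ring
      rw [e]
      push_cast
      nlinarith
    have h5 := Real.logb_le_logb_of_le (b := 2) (by norm_num) (by positivity) h4
    rw [Real.logb_pow, Real.logb_rpow (by norm_num) (by norm_num)] at h5
    have hX1R : ((2 ^ u * ℓ : ℕ) : ℝ) ≤ (X : ℝ) := by exact_mod_cast hX1
    linarith
  obtain ⟨F, hF1, hF2, hF3, hF4⟩ := final_aux c s ℓ u n b N X hs4 hn hu hb hN hX (by omega)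
    hE3 hE2 hE4 V hV
  have hN1 : 1 ≤ N := by
    rw [hNu]
    exact Nat.mul_pos (by omega) (Nat.mul_pos (by positivity) (by omega))
  have hN1R : (1 : ℝ) ≤ N := by exact_mod_cast hN1
  refine ⟨F, hF1, ?_, hF3, ?_⟩
  · have h1 : (F.card : ℝ) ≤ (N : ℝ) ^ (2 * c + 6 * s + 16) := by exact_mod_cast hF2
    refine le_trans h1 ?_
    rw [← Real.rpow_natCast]
    apply Real.rpow_le_rpow_of_exponent_le hN1R
    push_cast
    nlinarith
  · intro S D hR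
    refine le_trans ?_ (hF4 S D hR)
    -- compare X and N
    have hs2R : ((s - 2 : ℕ) : ℝ) = (s : ℝ) - 2 := by
      rw [Nat.cast_sub (by omega)]; norm_num
    have hXR : (X : ℝ) = ((s : ℝ) - 2) * ((2 : ℝ) ^ u * ℓ) := by
      rw [hX]; push_cast; rw [hs2R]; ring
    have hNR : (N : ℝ) = 4 * ((c : ℝ) + 3 * s + 7) * ((2 : ℝ) ^ u * ℓ) := by
      rw [hNu]; push_cast; ring
    have hw : (0 : ℝ) ≤ (2 : ℝ) ^ u * ℓ := by positivity
    have hcc : γ * c ≤ c := by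
      have hc0 : (0 : ℝ) ≤ c := Nat.cast_nonneg _
      nlinarith
    have hcmp : γ * N ≤ 192 * X * 1 := by
      rw [hXR, hNR]
      have hK : (c : ℝ) + 3 * s + 7 ≤ 2 * c := by linarith
      have hs3 : γ * c / 24 ≤ (s : ℝ) - 2 := by linarith
      have e1 : γ * (4 * ((c : ℝ) + 3 * s + 7)) ≤ 192 * ((s : ℝ) - 2) := by
        have : γ * ((c : ℝ) + 3 * s + 7) ≤ γ * (2 * c) := by gcongr
        linarith
      calc γ * (4 * ((c : ℝ) + 3 * s + 7) * ((2 : ℝ) ^ u * ℓ))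
          = (γ * (4 * ((c : ℝ) + 3 * s + 7))) * ((2 : ℝ) ^ u * ℓ) := by ring
        _ ≤ (192 * ((s : ℝ) - 2)) * ((2 : ℝ) ^ u * ℓ) := by gcongr
        _ = 192 * (((s : ℝ) - 2) * ((2 : ℝ) ^ u * ℓ)) * 1 := by ring
    have hγN : 0 ≤ γ * N := by positivity
    have hsq : (γ * N) ^ 2 ≤ (192 * (X : ℝ)) ^ 2 := by
      apply pow_le_pow_left₀ hγN
      linarith
    calc γ ^ 2 * (N : ℝ) ^ 2 / 400000 = (γ * N) ^ 2 / 400000 := by ring
      _ ≤ (192 * (X : ℝ)) ^ 2 / 400000 := by gcongr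
      _ ≤ 0.12 * (X : ℝ) ^ 2 := by
          have : (192 * (X : ℝ)) ^ 2 / 400000 = 0.09216 * (X : ℝ) ^ 2 := by ring
          rw [this]
          have hX0 : 0 ≤ (X : ℝ) ^ 2 := by positivity
          linarith

end Pool.Agent.SL
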