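import Mathlib

/-!
# Proofs with short lines (MP_e81270_lc): the definitions used by the statement
-/

namespace Pool.Agent.SL

/-- `a` is an input variable or one of the functions `v j`, `j < i` -/
def IsWire {ν : Type} {s : ℕ} (v : Fin s → (ν → Bool) → Bool) (i : Fin s)
    (a : (ν → Bool) → Bool) : Prop :=
  (∃ u : ν, ∀ x, a x = x u) ∨ ∃ j, j < i ∧ a = v j

/-- `f` is computed by a Boolean circuit with `s` NAND gates over the input variables `ν`:
`v i` is the function computed by gate `i`, its two inputs are input variables or earlier gates,
and `f` is one of the `v i`. -/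
def HasCircuit {ν : Type} (s : ℕ) (f : (ν → Bool) → Bool) : Prop :=
  ∃ v : Fin s → (ν → Bool) → Bool,
    (∀ i, ∃ a b, IsWire v i a ∧ IsWire v i b ∧ ∀ x, v i x = !(a x && b x)) ∧ ∃ i, f = v i

/-- a clause: a finite set of literals, the literal `(v, s)` is true under `x` iff `x v = s` -/
abbrev Clause (ν : Type) := Finset (ν × Bool)

/-- the clause holds under the assignment -/
def Holds {ν : Type} (C : Clause ν) (x : ν → Bool) : Prop := ∃ l ∈ C, x l.1 = l.2

/-- A refutation of the CNF `F` with `S` lines. The lines are Boolean functions satisfying `Line`,
one of them is constantly false, and every line is implied by at most two earlier lines together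
with at most `r` clauses of `F`. `rank` does not decrease from a premise to the conclusion and
increases at every inference from two earlier lines, so `D` bounds the number of inferences from
two earlier lines on every path of the proof. -/
structure Refutation {ν : Type} (F : Finset (Clause ν)) (Line : ((ν → Bool) → Bool) → Prop)
    (r S D : ℕ) where
  line : Fin S → (ν → Bool) → Bool
  isLine : ∀ k, Line (line k)
  rank : Fin S → ℕ
  rank_le : ∀ k, rank k ≤ D
  last : ∃ k, ∀ x, line k x = false
  infer : ∀ k, ∃ R ⊆ F, R.card ≤ r ∧
    ((∀ x, (∀ C ∈ R, Holds C x) → line k x = true) ∨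
     (∃ i, i < k ∧ rank i ≤ rank k ∧
        ∀ x, (∀ C ∈ R, Holds C x) → line i x = true → line k x = true) ∨
     (∃ i j, i < k ∧ j < k ∧ rank i < rank k ∧ rank j < rank k ∧
        ∀ x, (∀ C ∈ R, Holds C x) → line i x = true → line j x = true → line k x = true))

end Pool.Agent.SL
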