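import Pool.Agent.Lib.SL.R8a

/-! # Row R8, second part: the formula and the walk combined -/

namespace Pool.Agent.SL

open Finset

namespace R8x

variable {n m b : ℕ}

/-- from blocks to assignments -/
def toA (ω : Fin n → Fin b → Bool) : Fin n × Fin b → Bool := fun p => ω p.1 p.2

/-- from assignments to blocks -/
def ofA (x : Fin n × Fin b → Bool) : Fin n → Fin b → Bool := fun i u => x (i, u)

theorem toA_ofA (x : Fin n × Fin b → Bool) : toA (ofA x) = x := rfl

/-- the clause `¬ (x_j = a ∧ x_j' = a')` -/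
def cla (j j' : Fin n) (a a' : Fin b → Bool) : Clause (Fin n × Fin b) :=
  (univ.image (fun u => ((j, u), !a u))) ∪ (univ.image (fun u => ((j', u), !a' u)))

theorem holds_cla (j j' : Fin n) (a a' : Fin b → Bool) (x : Fin n × Fin b → Bool) :
    Holds (cla j j' a a') x ↔ ¬ (ofA x j = a ∧ ofA x j' = a') := by
  unfold Holds cla ofA
  constructor
  · rintro ⟨l, hl, hx⟩ ⟨h1, h2⟩
    rw [mem_union, mem_image, mem_image] at hl
    rcases hl with ⟨u, _, rfl⟩ | ⟨u, _, rfl⟩
    · have := congrFun h1 u
      simp only at hx this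
      rw [this] at hx
      cases h : a u <;> simp [h] at hx
    · have := congrFun h2 u
      simp only at hx this
      rw [this] at hx
      cases h : a' u <;> simp [h] at hx
  · intro h
    rw [not_and_or] at h
    rcases h with h | h
    · have : ∃ u, x (j, u) ≠ a u := by
        by_contra hcon
        push Not at hcon
        exact h (funext hcon)
      obtain ⟨u, hu⟩ := this
      refine ⟨((j, u), !a u), ?_, ?_⟩
      · rw [mem_union]; left; exact mem_image_of_mem _ (mem_univ u)
      · simp only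
        cases h1 : a u <;> cases h2 : x (j, u) <;> simp_all
    · have : ∃ u, x (j', u) ≠ a' u := by
        by_contra hcon
        push Not at hcon
        exact h (funext hcon)
      obtain ⟨u, hu⟩ := this
      refine ⟨((j', u), !a' u), ?_, ?_⟩
      · rw [mem_union]; right; exact mem_image_of_mem _ (mem_univ u)
      · simp only
        cases h1 : a' u <;> cases h2 : x (j', u) <;> simp_all

/-- the formula: labels `g`, no two pigeons have the same label -/
def FF (g : Fin n → (Fin b → Bool) → Fin m) : Finset (Clause (Fin n × Fin b)) :=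
  (univ.filter (fun z : (Fin n × Fin n) × ((Fin b → Bool) × (Fin b → Bool)) =>
    z.1.1 ≠ z.1.2 ∧ g z.1.1 z.2.1 = g z.1.2 z.2.2)).image
      (fun z => cla z.1.1 z.1.2 z.2.1 z.2.2)

theorem FF_card (g : Fin n → (Fin b → Bool) → Fin m) : (FF g).card ≤ n ^ 2 * (2 ^ b) ^ 2 := by
  unfold FF
  refine le_trans card_image_le (le_trans (card_filter_le _ _) ?_)
  simp only [card_univ, Fintype.card_prod, Fintype.card_fin, Fintype.card_fun, Fintype.card_bool]
  apply le_of_eq
  ring

theorem FF_width (g : Fin n → (Fin b → Bool) → Fin m) : ∀ C ∈ FF g, C.card ≤ 2 * b := by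
  intro C hC
  unfold FF at hC
  rw [mem_image] at hC
  obtain ⟨z, _, rfl⟩ := hC
  unfold cla
  refine le_trans (card_union_le _ _) ?_
  have h1 : (univ.image (fun u : Fin b => ((z.1.1, u), !z.2.1 u))).card ≤ b := by
    refine le_trans card_image_le ?_
    simp
  have h2 : (univ.image (fun u : Fin b => ((z.1.2, u), !z.2.2 u))).card ≤ b := by
    refine le_trans card_image_le ?_
    simp
  omega

theorem FF_unsat (hmn : m < n) (g : Fin n → (Fin b → Bool) → Fin m)
    (x : Fin n × Fin b → Bool) : ∃ C ∈ FF g, ¬ Holds C x := by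
  obtain ⟨i, j, hij, h⟩ : ∃ i j : Fin n, i ≠ j ∧ g i (ofA x i) = g j (ofA x j) := by
    have := Fintype.exists_ne_map_eq_of_card_lt (fun i : Fin n => g i (ofA x i)) (by simpa using hmn)
    obtain ⟨i, j, hij, h⟩ := this
    exact ⟨i, j, hij, h⟩
  refine ⟨cla i j (ofA x i) (ofA x j), ?_, ?_⟩
  · unfold FF
    rw [mem_image]
    exact ⟨((i, j), (ofA x i, ofA x j)), by simp [hij, h], rfl⟩
  · rw [holds_cla]
    simp

theorem comb (h1 : R1g) (h3 : R3) (h5 : R5) (h5b : R5b) (h5c : R5c) (h6 : R6)
    (r0 R0 k t s q r : ℕ) (hn : 8 ≤ n) (hm : n = m + 1) (ht1 : 1 ≤ t) (ht : 2 * t ≤ m)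
    (hα : 2 ^ b = r0 * R0) (hk : 1 ≤ k) (hs : 4 ≤ s)
    (hkr : 32 * k * n ^ 2 * n ^ (2 * s) ≤ r0) (hR1 : n ^ (s + 2) ≤ R0)
    (Lset : Finset (((Fin n × Fin b) → Bool) → Bool))
    (hU : (((2 * Lset.card + 1) ^ (q + 4) * (2 * (n ^ 2 * (2 ^ b) ^ 2) + 1) ^ r)
      * (2 ^ n * (2 ^ b) ^ n) + 1) * 2 ^ n * m ^ n < 4 ^ k) :
    ∃ F : Finset (Clause (Fin n × Fin b)),
      (∀ x, ∃ C ∈ F, ¬ Holds C x) ∧ F.card ≤ n ^ 2 * (2 ^ b) ^ 2 ∧ (∀ C ∈ F, C.card ≤ 2 * b) ∧
      ∀ S D P : ℕ, D ≤ P * q → Nonempty (Refutation F (fun f => f ∈ Lset) r S D) →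
        (1 : ℝ) / 4 ≤ (P + 1) * (S : ℝ) ^ (P + 1)
          * (2 ^ (q + 1) * (r + 4) * (6 / (n : ℝ) ^ ((s - 2) * t))) := by
  classical
  have hcα : Fintype.card (Fin b → Bool) = r0 * R0 := by
    rw [Fintype.card_fun, Fintype.card_bool, Fintype.card_fin, hα]
  have hcΩ : Fintype.card (Fin n → Fin b → Bool) = (2 ^ b) ^ n := by
    rw [Fintype.card_fun, Fintype.card_fun, Fintype.card_bool, Fintype.card_fin, Fintype.card_fin]
  -- false set of a line
  let fs : (((Fin n × Fin b) → Bool) → Bool) → Finset (Fin n → Fin b → Bool) :=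
    fun f => univ.filter (fun ω => f (toA ω) = false)
  let cs : (Fin n × Fin n) × ((Fin b → Bool) × (Fin b → Bool)) →
      Finset (Fin n → Fin b → Bool) :=
    fun z => univ.filter (fun ω => ω z.1.1 = z.2.1 ∧ ω z.1.2 = z.2.2)
  set base : Finset (Finset (Fin n → Fin b → Bool)) := Lset.image fs with hbase
  set clAll : Finset (Finset (Fin n → Fin b → Bool)) := univ.image cs with hclAll
  have hbc : (base ∪ base.image compl).card + 1 ≤ 2 * Lset.card + 1 := by
    have e1 : base.card ≤ Lset.card := card_image_le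
    have e2 : (base.image compl).card ≤ base.card := card_image_le
    have e3 := card_union_le base (base.image compl)
    omega
  have hcc : (clAll ∪ clAll.image compl).card + 1 ≤ 2 * (n ^ 2 * (2 ^ b) ^ 2) + 1 := by
    have e1 : clAll.card ≤ n ^ 2 * (2 ^ b) ^ 2 := by
      refine le_trans card_image_le ?_
      simp only [card_univ, Fintype.card_prod, Fintype.card_fin, Fintype.card_fun,
        Fintype.card_bool]
      apply le_of_eq
      ring
    have e2 : (clAll.image compl).card ≤ clAll.card := card_image_le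
    have e3 := card_union_le clAll (clAll.image compl)
    omega
  obtain ⟨G1, hG1, hG1'⟩ := fam_inter (base ∪ base.image compl) (q + 4)
  obtain ⟨G2, hG2, hG2'⟩ := fam_inter (clAll ∪ clAll.image compl) r
  set 𝓤 : Finset (Finset (Fin n → Fin b → Bool)) := Finset.image₂ (fun A B => A ∩ B) G1 G2
    with h𝓤
  have hUc : 𝓤.card ≤ (2 * Lset.card + 1) ^ (q + 4) * (2 * (n ^ 2 * (2 ^ b) ^ 2) + 1) ^ r := by
    refine le_trans (Finset.card_image₂_le _ _ _) ?_
    apply Nat.mul_le_mul
    · exact le_trans hG1 (Nat.pow_le_pow_left hbc _)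
    · exact le_trans hG2 (Nat.pow_le_pow_left hcc _)
  obtain ⟨g, hg1, hg2, hg3⟩ := core (n := n) (m := m) (α := Fin b → Bool) h1 h3 h5 h5b h5c
    r0 R0 k t s hn hm ht1 ht hcα hk hs hkr hR1 𝓤 (by
      rw [hcΩ]
      refine lt_of_le_of_lt ?_ hU
      gcongr)
  set Ωc : ℝ := (Fintype.card (Fin n → Fin b → Bool) : ℝ) with hΩc
  have hΩpos : 0 < Ωc := by
    rw [hΩc, hcΩ]; positivity
  set ε : ℝ := 6 / (n : ℝ) ^ ((s - 2) * t) with hε
  have hnpos : (0 : ℝ) < n := by
    have : 0 < n := by omega
    exact_mod_cast this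
  have hε0 : 0 ≤ ε := by positivity
  refine ⟨FF g, FF_unsat (by omega) g, FF_card g, FF_width g, ?_⟩
  intro S D P hDP hne
  obtain ⟨Rf⟩ := hne
  set κ : (Fin n → Fin b → Bool) → ℝ := fun ω => Ker (2 * t) g ω / Ωc with hκ
  have hκsum : ∀ U : Finset (Fin n → Fin b → Bool),
      ∑ x ∈ U, κ x = (∑ x ∈ U, Ker (2 * t) g x) / Ωc := by
    intro U
    rw [hκ, Finset.sum_div]
  let viol : Clause (Fin n × Fin b) → Finset (Fin n → Fin b → Bool) :=
    fun C => univ.filter (fun ω => ¬ Holds C (toA ω))
  set cl : Finset (Finset (Fin n → Fin b → Bool)) := (FF g).image viol with hcl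
  -- elements of cl
  have hclform : ∀ C ∈ cl, ∃ i j : Fin n, ∃ a a' : Fin b → Bool, i ≠ j ∧ g i a = g j a' ∧
      C = cs ((i, j), (a, a')) := by
    intro C hC
    rw [hcl, mem_image] at hC
    obtain ⟨C', hC', rfl⟩ := hC
    unfold FF at hC'
    rw [mem_image] at hC'
    obtain ⟨z, hz, rfl⟩ := hC'
    rw [mem_filter] at hz
    refine ⟨z.1.1, z.1.2, z.2.1, z.2.2, hz.2.1, hz.2.2, ?_⟩
    ext ω
    simp only [viol, cs, mem_filter, mem_univ, true_and]
    rw [holds_cla, not_not]
    exact Iff.rfl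
  have hclsub : cl ⊆ clAll := by
    intro C hC
    obtain ⟨i, j, a, a', _, _, rfl⟩ := hclform C hC
    exact mem_image_of_mem _ (mem_univ _)
  have hmem1 : ∀ V : Finset (Fin n → Fin b → Bool), V ∈ base ∨ Vᶜ ∈ base →
      V ∈ base ∪ base.image compl := by
    intro V hV
    rcases hV with hV | hV
    · exact mem_union_left _ hV
    · apply mem_union_right
      rw [mem_image]
      exact ⟨Vᶜ, hV, compl_compl V⟩
  have hmem2 : ∀ V : Finset (Fin n → Fin b → Bool), V ∈ cl ∨ Vᶜ ∈ cl →
      V ∈ clAll ∪ clAll.image compl := by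
    intro V hV
    rcases hV with hV | hV
    · exact mem_union_left _ (hclsub hV)
    · apply mem_union_right
      rw [mem_image]
      exact ⟨Vᶜ, hclsub hV, compl_compl V⟩
  have hin : ∀ h₁ h₂ : List (Finset (Fin n → Fin b → Bool)), h₁.length ≤ q + 4 →
      (∀ V ∈ h₁, V ∈ base ∨ Vᶜ ∈ base) → h₂.length ≤ r → (∀ V ∈ h₂, V ∈ cl ∨ Vᶜ ∈ cl) →
      Inter h₁ ∩ Inter h₂ ∈ 𝓤 := by
    intro h₁ h₂ hl1 hb1 hl2 hb2
    rw [h𝓤, Finset.mem_image₂]
    exact ⟨Inter h₁, hG1' h₁ hl1 (fun V hV => hmem1 V (hb1 V hV)),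
      Inter h₂, hG2' h₂ hl2 (fun V hV => hmem2 V (hb2 V hV)), rfl⟩
  have hW := h6 (Fin n → Fin b → Bool) κ ε base cl r S D q P (fun k => fs (Rf.line k)) Rf.rank
    hε0 (fun k => mem_image_of_mem _ (Rf.isLine k))
    (by
      intro h₁ h₂ hl1 hb1 hl2 hb2
      have := hg2 _ (hin h₁ h₂ hl1 hb1 hl2 hb2)
      rw [hκsum, le_div_iff₀ hΩpos]
      linarith)
    (by
      intro h₁ h₂ hl1 hb1 hl2 hb2 C hC hsub
      obtain ⟨i, j, a, a', hij, hgg, rfl⟩ := hclform C hC
      have := hg3 _ (hin h₁ h₂ hl1 hb1 hl2 hb2) i j a a' hij hgg (by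
        intro x hx
        have := hsub hx
        simpa [cs] using this)
      rw [hκsum, div_le_iff₀ hΩpos]
      exact this)
    Rf.rank_le hDP
    (by
      intro k
      obtain ⟨R, hRF, hRc, hR⟩ := Rf.infer k
      refine ⟨R.image viol, image_subset_image hRF, le_trans card_image_le hRc, ?_⟩
      have hbad : ∀ ω : Fin n → Fin b → Bool, ω ∉ (R.image viol).biUnion id →
          ∀ C ∈ R, Holds C (toA ω) := by
        intro ω hω C hC
        by_contra hcon
        apply hω
        rw [mem_biUnion]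
        exact ⟨viol C, mem_image_of_mem _ hC, by simp [viol, hcon]⟩
      rcases hR with hR | ⟨i, hi, hri, hR⟩ | ⟨i, j, hi, hj, hri, hrj, hR⟩
      · left
        intro ω hω
        by_contra hcon
        have := hR (toA ω) (hbad ω hcon)
        simp only [fs, mem_filter, mem_univ, true_and] at hω
        rw [hω] at this
        exact absurd this (by simp)
      · right; left
        refine ⟨i, hi, hri, ?_⟩
        intro ω hω
        by_contra hcon
        rw [mem_union, not_or] at hcon
        have hli : Rf.line i (toA ω) = true := by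
          have := hcon.1
          simp only [fs, mem_filter, mem_univ, true_and] at this
          simpa using this
        have := hR (toA ω) (hbad ω hcon.2) hli
        simp only [fs, mem_filter, mem_univ, true_and] at hω
        rw [hω] at this
        exact absurd this (by simp)
      · right; right
        refine ⟨i, j, hi, hj, hri, hrj, ?_⟩
        intro ω hω
        by_contra hcon
        rw [mem_union, mem_union, not_or, not_or] at hcon
        have hli : Rf.line i (toA ω) = true := by
          have := hcon.1.1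
          simp only [fs, mem_filter, mem_univ, true_and] at this
          simpa using this
        have hlj : Rf.line j (toA ω) = true := by
          have := hcon.1.2
          simp only [fs, mem_filter, mem_univ, true_and] at this
          simpa using this
        have := hR (toA ω) (hbad ω hcon.2) hli hlj
        simp only [fs, mem_filter, mem_univ, true_and] at hω
        rw [hω] at this
        exact absurd this (by simp))
  obtain ⟨k₀, hk₀⟩ := Rf.last
  have hfin := hW k₀
  have huniv : fs (Rf.line k₀) = univ := by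
    apply Finset.filter_true_of_mem
    intro ω _
    exact hk₀ _
  have hfin' : ∑ x, κ x ≤ (P + 1) * (S : ℝ) ^ (P + 1) * (2 ^ (q + 1) * (r + 4) * ε) := by
    have h0 := hfin
    simp only [huniv] at h0
    exact h0
  refine le_trans ?_ hfin'
  rw [hκsum, le_div_iff₀ hΩpos]
  linarith

end R8x

end Pool.Agent.SL
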