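import Pool.Agent.Lib.SL.R8b

/-! # Row R8, third part: numbers -/

namespace Pool.Agent.SL

open Finset Filter

namespace R8x

/-- polynomials against exponentials -/
theorem ev_pow (A B e : ℕ) (r : ℝ) (hr : 1 < r) :
    ∀ᶠ x : ℕ in atTop, (A : ℝ) * ((B : ℝ) * x) ^ e ≤ r ^ x := by
  have h := tendsto_pow_const_div_const_pow_of_one_lt e hr
  have h2 : ∀ᶠ x : ℕ in atTop, (x : ℝ) ^ e / r ^ x < 1 / ((A : ℝ) * (B : ℝ) ^ e + 1) :=
    h.eventually (gt_mem_nhds (by positivity))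
  filter_upwards [h2] with x hx
  have hrx : 0 < r ^ x := by positivity
  rw [div_lt_div_iff₀ hrx (by positivity)] at hx
  have : (A : ℝ) * ((B : ℝ) * x) ^ e = (A : ℝ) * (B : ℝ) ^ e * (x : ℝ) ^ e := by
    rw [mul_pow]; ring
  rw [this]
  have hxe : (0 : ℝ) ≤ (x : ℝ) ^ e := by positivity
  nlinarith

/-- exponents of the family -/
theorem family (c ℓ n B N M : ℕ) (hℓ : 3 ≤ ℓ) (hn : n = 2 ^ ℓ) (hN : N = n * B) (hM : M = N ^ c)
    (hB1 : 1 ≤ B) (hℓB : ℓ ≤ B) (hE3 : B ≤ 2 ^ ℓ)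
    (hE2 : (30 * c + 60) * B ^ (c + 2) ≤ 2 ^ ℓ) (Lc q : ℕ) (hq : q ≤ N)
    (hL : Lc ≤ 2 ^ M + M * ((N + M) ^ 2) ^ M) :
    (((2 * Lc + 1) ^ (q + 4) * (2 * (n ^ 2 * (2 ^ B) ^ 2) + 1) ^ M)
      * (2 ^ n * (2 ^ B) ^ n) + 1) * 2 ^ n * (n - 1) ^ n < 4 ^ (2 ^ ((c + 2) * ℓ)) := by
  have hn1 : 1 ≤ n := by rw [hn]; exact Nat.one_le_two_pow
  have hnN : n ≤ N := by rw [hN]; exact Nat.le_mul_of_pos_right _ hB1
  have hN1 : 1 ≤ N := le_trans hn1 hnN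
  have hBN : B ≤ N := by rw [hN]; exact Nat.le_mul_of_pos_left _ hn1
  have hM1 : 1 ≤ M := by rw [hM]; exact Nat.one_le_pow _ _ hN1
  have hN2 : N ≤ 2 ^ (2 * ℓ) := by
    rw [hN]
    calc n * B ≤ n * n := Nat.mul_le_mul_left _ (by rw [hn]; exact hE3)
      _ = 2 ^ (2 * ℓ) := by rw [hn, ← pow_add]; congr 1; ring
  have hMp : M ≤ 2 ^ (2 * ℓ * c) := by
    rw [hM]
    calc N ^ c ≤ (2 ^ (2 * ℓ)) ^ c := Nat.pow_le_pow_left hN2 c
      _ = 2 ^ (2 * ℓ * c) := by rw [← pow_mul]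
  have hNM : N + M ≤ 2 ^ (2 * ℓ * (c + 1) + 1) := by
    have e1 : N ≤ 2 ^ (2 * ℓ * (c + 1)) :=
      le_trans hN2 (Nat.pow_le_pow_right (by norm_num) (by nlinarith))
    have e2 : M ≤ 2 ^ (2 * ℓ * (c + 1)) :=
      le_trans hMp (Nat.pow_le_pow_right (by norm_num) (by nlinarith))
    calc N + M ≤ 2 ^ (2 * ℓ * (c + 1)) + 2 ^ (2 * ℓ * (c + 1)) := Nat.add_le_add e1 e2
      _ = 2 ^ (2 * ℓ * (c + 1) + 1) := by rw [pow_succ 2 (2 * ℓ * (c + 1))]; omega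
  -- circuits
  have hcirc : M * ((N + M) ^ 2) ^ M ≤ 2 ^ ((6 * c + 6) * ℓ * M) := by
    calc M * ((N + M) ^ 2) ^ M
        ≤ 2 ^ (2 * ℓ * c) * ((2 ^ (2 * ℓ * (c + 1) + 1)) ^ 2) ^ M := by gcongr
      _ = 2 ^ (2 * ℓ * c + (2 * ℓ * (c + 1) + 1) * 2 * M) := by
          rw [← pow_mul, ← pow_mul, ← pow_add, mul_assoc (2 * ℓ * (c + 1) + 1) 2 M]
      _ ≤ 2 ^ ((6 * c + 6) * ℓ * M) := by
          apply Nat.pow_le_pow_right (by norm_num)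
          have e1 : 2 * ℓ * c ≤ 2 * ℓ * c * M := Nat.le_mul_of_pos_right _ hM1
          calc 2 * ℓ * c + (2 * ℓ * (c + 1) + 1) * 2 * M
              ≤ 2 * ℓ * c * M + (2 * ℓ * (c + 1) + 1) * 2 * M := by gcongr
            _ = (2 * ℓ * c + (2 * ℓ * (c + 1) + 1) * 2) * M := by ring
            _ ≤ ((6 * c + 6) * ℓ) * M := by
                apply Nat.mul_le_mul_right
                nlinarith
  have hLc : 2 * Lc + 1 ≤ 2 ^ ((6 * c + 6) * ℓ * M + 3) := by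
    have e1 : 2 ^ M ≤ 2 ^ ((6 * c + 6) * ℓ * M) := by
      apply Nat.pow_le_pow_right (by norm_num)
      exact Nat.le_mul_of_pos_left _ (by nlinarith)
    have e2 : Lc ≤ 2 ^ ((6 * c + 6) * ℓ * M) + 2 ^ ((6 * c + 6) * ℓ * M) :=
      le_trans hL (Nat.add_le_add e1 hcirc)
    have e3 : 1 ≤ 2 ^ ((6 * c + 6) * ℓ * M) := Nat.one_le_two_pow
    have e4 : 2 ^ ((6 * c + 6) * ℓ * M + 3) = 8 * 2 ^ ((6 * c + 6) * ℓ * M) := by
      rw [pow_add]; ring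
    omega
  have hF1 : (2 * Lc + 1) ^ (q + 4) ≤ 2 ^ (((6 * c + 6) * ℓ * M + 3) * (N + 4)) := by
    calc (2 * Lc + 1) ^ (q + 4) ≤ (2 ^ ((6 * c + 6) * ℓ * M + 3)) ^ (q + 4) :=
          Nat.pow_le_pow_left hLc _
      _ = 2 ^ (((6 * c + 6) * ℓ * M + 3) * (q + 4)) := by rw [← pow_mul]
      _ ≤ 2 ^ (((6 * c + 6) * ℓ * M + 3) * (N + 4)) := by
          apply Nat.pow_le_pow_right (by norm_num)
          gcongr
  have hF2 : (2 * (n ^ 2 * (2 ^ B) ^ 2) + 1) ^ M ≤ 2 ^ ((2 * ℓ + 2 * B + 2) * M) := by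
    have e1 : n ^ 2 * (2 ^ B) ^ 2 = 2 ^ (2 * ℓ + 2 * B) := by
      rw [hn, ← pow_mul, ← pow_mul, ← pow_add]
      congr 1; ring
    have e2 : 2 * (n ^ 2 * (2 ^ B) ^ 2) + 1 ≤ 2 ^ (2 * ℓ + 2 * B + 2) := by
      rw [e1, pow_add _ (2 * ℓ + 2 * B) 2]
      have : 1 ≤ 2 ^ (2 * ℓ + 2 * B) := Nat.one_le_two_pow
      omega
    calc (2 * (n ^ 2 * (2 ^ B) ^ 2) + 1) ^ M ≤ (2 ^ (2 * ℓ + 2 * B + 2)) ^ M :=
          Nat.pow_le_pow_left e2 _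
      _ = 2 ^ ((2 * ℓ + 2 * B + 2) * M) := by rw [← pow_mul]
  have hF3 : 2 ^ n * (2 ^ B) ^ n = 2 ^ (n + N) := by
    rw [← pow_mul, ← pow_add, hN]
    congr 1; ring
  have hF4 : (n - 1) ^ n ≤ 2 ^ (ℓ * n) := by
    calc (n - 1) ^ n ≤ n ^ n := Nat.pow_le_pow_left (Nat.sub_le _ _) _
      _ = 2 ^ (ℓ * n) := by
          have e : n ^ n = (2 ^ ℓ) ^ n := by rw [← hn]
          rw [e, ← pow_mul]
  set Y : ℕ := ((6 * c + 6) * ℓ * M + 3) * (N + 4) + (2 * ℓ + 2 * B + 2) * M + (n + N) with hY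
  have hprod : ((2 * Lc + 1) ^ (q + 4) * (2 * (n ^ 2 * (2 ^ B) ^ 2) + 1) ^ M)
      * (2 ^ n * (2 ^ B) ^ n) + 1 ≤ 2 ^ (Y + 1) := by
    rw [hF3]
    calc ((2 * Lc + 1) ^ (q + 4) * (2 * (n ^ 2 * (2 ^ B) ^ 2) + 1) ^ M) * 2 ^ (n + N) + 1
        ≤ (2 ^ (((6 * c + 6) * ℓ * M + 3) * (N + 4)) * 2 ^ ((2 * ℓ + 2 * B + 2) * M))
            * 2 ^ (n + N) + 1 := by gcongr
      _ = 2 ^ Y + 1 := by
          rw [hY, pow_add _ (((6 * c + 6) * ℓ * M + 3) * (N + 4) + (2 * ℓ + 2 * B + 2) * M) (n + N),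
            pow_add _ (((6 * c + 6) * ℓ * M + 3) * (N + 4)) ((2 * ℓ + 2 * B + 2) * M)]
      _ ≤ 2 ^ Y + 2 ^ Y := Nat.add_le_add_left Nat.one_le_two_pow _
      _ = 2 ^ (Y + 1) := by rw [pow_succ 2 Y]; omega
  -- the exponent
  have hexp : Y + 1 + n + ℓ * n < 2 * 2 ^ ((c + 2) * ℓ) := by
    have hMN : M * N = N ^ (c + 1) := by rw [hM, pow_succ]
    have hMBN : M ≤ B * N ^ (c + 1) := by
      calc M = 1 * (M * 1) := by ring
        _ ≤ B * (M * N) := by gcongr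
        _ = B * N ^ (c + 1) := by rw [hMN]
    have hNBN : N ≤ B * N ^ (c + 1) := by
      calc N = 1 * (1 * N) := by ring
        _ ≤ B * (M * N) := by gcongr
        _ = B * N ^ (c + 1) := by rw [hMN]
    have hBM : B * M ≤ B * N ^ (c + 1) := by
      rw [← hMN]
      exact Nat.mul_le_mul_left _ (Nat.le_mul_of_pos_right _ hN1)
    have t1 : ((6 * c + 6) * ℓ * M + 3) * (N + 4) ≤ (30 * c + 45) * (B * N ^ (c + 1)) := by
      have a1 : (6 * c + 6) * ℓ * M + 3 ≤ (6 * c + 9) * (B * M) := by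
        have : ℓ * M ≤ B * M := Nat.mul_le_mul_right _ hℓB
        have h3 : 1 ≤ B * M := Nat.mul_pos hB1 hM1
        calc (6 * c + 6) * ℓ * M + 3 = (6 * c + 6) * (ℓ * M) + 3 * 1 := by ring
          _ ≤ (6 * c + 6) * (B * M) + 3 * (B * M) := by gcongr
          _ = (6 * c + 9) * (B * M) := by ring
      have a2 : N + 4 ≤ 5 * N := by omega
      calc ((6 * c + 6) * ℓ * M + 3) * (N + 4) ≤ ((6 * c + 9) * (B * M)) * (5 * N) :=
            Nat.mul_le_mul a1 a2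
        _ = (30 * c + 45) * (B * (M * N)) := by ring
        _ = (30 * c + 45) * (B * N ^ (c + 1)) := by rw [hMN]
    have t2 : (2 * ℓ + 2 * B + 2) * M ≤ 6 * (B * N ^ (c + 1)) := by
      calc (2 * ℓ + 2 * B + 2) * M ≤ (6 * B) * M := by
            apply Nat.mul_le_mul_right
            omega
        _ = 6 * (B * M) := by ring
        _ ≤ 6 * (B * N ^ (c + 1)) := Nat.mul_le_mul_left _ hBM
    have hℓn : ℓ * n ≤ N := by
      rw [hN, mul_comm]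
      exact Nat.mul_le_mul_left _ hℓB
    have t3 : n + N + 1 + n + ℓ * n ≤ 5 * (B * N ^ (c + 1)) := by
      have : n + N + 1 + n + ℓ * n ≤ 5 * N := by omega
      exact le_trans this (Nat.mul_le_mul_left _ hNBN)
    have hZ : Y + 1 + n + ℓ * n + 1 ≤ (30 * c + 60) * (B * N ^ (c + 1)) := by
      have h1 : 1 ≤ B * N ^ (c + 1) := le_trans hN1 hNBN
      have e : (30 * c + 60) * (B * N ^ (c + 1)) = (30 * c + 45) * (B * N ^ (c + 1))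
          + 6 * (B * N ^ (c + 1)) + 5 * (B * N ^ (c + 1)) + 4 * (B * N ^ (c + 1)) := by ring
      rw [hY, e]
      omega
    have hBN2 : B * N ^ (c + 1) = B ^ (c + 2) * 2 ^ (ℓ * (c + 1)) := by
      rw [hN, hn, mul_pow, ← pow_mul]
      ring
    have hfin : (30 * c + 60) * (B * N ^ (c + 1)) ≤ 2 ^ ((c + 2) * ℓ) := by
      rw [hBN2]
      calc (30 * c + 60) * (B ^ (c + 2) * 2 ^ (ℓ * (c + 1)))
          = ((30 * c + 60) * B ^ (c + 2)) * 2 ^ (ℓ * (c + 1)) := by ring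
        _ ≤ 2 ^ ℓ * 2 ^ (ℓ * (c + 1)) := by gcongr
        _ = 2 ^ ((c + 2) * ℓ) := by rw [← pow_add]; congr 1; ring
    omega
  calc (((2 * Lc + 1) ^ (q + 4) * (2 * (n ^ 2 * (2 ^ B) ^ 2) + 1) ^ M)
      * (2 ^ n * (2 ^ B) ^ n) + 1) * 2 ^ n * (n - 1) ^ n
      ≤ 2 ^ (Y + 1) * 2 ^ n * 2 ^ (ℓ * n) := by gcongr
    _ = 2 ^ (Y + 1 + n + ℓ * n) := by
        rw [pow_add _ (Y + 1 + n) (ℓ * n), pow_add _ (Y + 1) n]
    _ < 2 ^ (2 * 2 ^ ((c + 2) * ℓ)) := Nat.pow_lt_pow_right (by norm_num) hexp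
    _ = 4 ^ (2 ^ ((c + 2) * ℓ)) := by rw [pow_mul]; norm_num

/-- the last inequality, `N'` = exponent of the error, `q = N' / 2` -/
theorem final_ineq (N' S D r : ℕ) (hN' : 100 ≤ N')
    (hr : Real.logb 2 (48 * ((r : ℝ) + 4)) ≤ N' / 100)
    (P q : ℕ) (hq : q = N' / 2) (hP : P = D / q + 1)
    (h : (2 : ℝ) ^ N' ≤ 48 * ((r : ℝ) + 4) * 2 ^ q * ((P + 1) * (S : ℝ) ^ (P + 1))) :
    0.12 * (N' : ℝ) ^ 2 ≤ ((D : ℝ) + N') * Real.logb 2 (S + 1) := by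
  have hq1 : 2 * q ≤ N' := by omega
  have hq2 : N' ≤ 2 * q + 1 := by omega
  have hq0 : 1 ≤ q := by omega
  have hS0 : (0 : ℝ) ≤ S := Nat.cast_nonneg _
  have hlog0 : 0 ≤ Real.logb 2 (S + 1) := Real.logb_nonneg (by norm_num) (by linarith)
  have hA : ((P : ℝ) + 1) * (S : ℝ) ^ (P + 1) ≤ ((S : ℝ) + 1) ^ (2 * (P + 1)) := by
    have e1 : (P : ℝ) + 1 ≤ 2 ^ (P + 1) := by
      have : P + 1 < 2 ^ (P + 1) := Nat.lt_two_pow_self
      have h2 : ((P + 1 : ℕ) : ℝ) < ((2 ^ (P + 1) : ℕ) : ℝ) := by exact_mod_cast this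
      push_cast at h2
      linarith
    calc ((P : ℝ) + 1) * (S : ℝ) ^ (P + 1) ≤ 2 ^ (P + 1) * (S : ℝ) ^ (P + 1) := by gcongr
      _ = (2 * (S : ℝ)) ^ (P + 1) := by rw [mul_pow]
      _ ≤ (((S : ℝ) + 1) ^ 2) ^ (P + 1) := by
          apply pow_le_pow_left₀ (by positivity)
          nlinarith [sq_nonneg ((S : ℝ))]
      _ = ((S : ℝ) + 1) ^ (2 * (P + 1)) := by rw [← pow_mul]
  have h' : (2 : ℝ) ^ N' ≤ 48 * ((r : ℝ) + 4) * 2 ^ q * ((S : ℝ) + 1) ^ (2 * (P + 1)) := by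
    refine le_trans h ?_
    gcongr
  have hlog : (N' : ℝ) ≤ N' / 100 + q + 2 * (P + 1) * Real.logb 2 (S + 1) := by
    have h1 := Real.logb_le_logb_of_le (b := 2) (by norm_num) (by positivity) h'
    rw [Real.logb_mul (by positivity) (by positivity), Real.logb_mul (by positivity) (by positivity),
      Real.logb_pow, Real.logb_pow, Real.logb_pow, Real.logb_self_eq_one (by norm_num)] at h1
    push_cast at h1
    linarith
  have hPq : ((P : ℝ) + 1) * q ≤ D + 2 * q := by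
    have : (P + 1) * q ≤ D + 2 * q := by
      rw [hP]
      have : D / q * q ≤ D := Nat.div_mul_le_self D q
      calc (D / q + 1 + 1) * q = D / q * q + 2 * q := by ring
        _ ≤ D + 2 * q := by omega
    exact_mod_cast this
  have hq1R : 2 * (q : ℝ) ≤ N' := by exact_mod_cast hq1
  have hq2R : (N' : ℝ) ≤ 2 * q + 1 := by exact_mod_cast hq2
  have hN'R : (100 : ℝ) ≤ N' := by exact_mod_cast hN'
  have hq0R : (1 : ℝ) ≤ q := by exact_mod_cast hq0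
  have hm : (0.49 : ℝ) * N' ≤ 2 * (P + 1) * Real.logb 2 (S + 1) := by linarith
  have h3 : (0.49 : ℝ) * N' * q ≤ 2 * ((D + 2 * q) * Real.logb 2 (S + 1)) := by
    calc (0.49 : ℝ) * N' * q ≤ 2 * (P + 1) * Real.logb 2 (S + 1) * q := by gcongr
      _ = 2 * (((P + 1) * q) * Real.logb 2 (S + 1)) := by ring
      _ ≤ 2 * ((D + 2 * q) * Real.logb 2 (S + 1)) := by gcongr
  have h4 : ((D : ℝ) + 2 * q) * Real.logb 2 (S + 1)
      ≤ ((D : ℝ) + N') * Real.logb 2 (S + 1) := by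
    apply mul_le_mul_of_nonneg_right _ hlog0
    linarith
  have h5 : (0.12 : ℝ) * N' ^ 2 ≤ 0.49 * N' * q / 2 := by nlinarith
  linarith

end R8x

end Pool.Agent.SL
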